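import Mathlib

/-! Basic facts on the Jacobson radical of a noncommutative ring. -/

namespace Q10

/-- If `j` lies in the Jacobson radical then `1 + j` is a unit. -/
theorem isUnit_one_add_of_mem_jacobson {R : Type*} [Ring R] {j : R} (hj : j ∈ Ring.jacobson R) :
    IsUnit (1 + j) := by
  have left : ∀ j ∈ Ring.jacobson R, ∃ z : R, z * (1 + j) = 1 := by
    intro j hj
    rw [← Ideal.jacobson_bot, Ideal.mem_jacobson_iff] at hj
    obtain ⟨z, hz⟩ := hj 1
    refine ⟨z, ?_⟩
    have : z * 1 * j + z - 1 = 0 := by simpa using hz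
    have h2 : z * (1 + j) - 1 = 0 := by rw [← this]; noncomm_ring
    exact sub_eq_zero.mp h2
  obtain ⟨z, hz⟩ := left j hj
  have hz' : z = 1 + (-(z * j)) := by
    have : z + z * j = 1 := by rw [← hz]; noncomm_ring
    rw [← this]; abel
  have hmem : -(z * j) ∈ Ring.jacobson R :=
    (Ring.jacobson R).neg_mem (Ideal.mul_mem_left _ _ hj)
  obtain ⟨w, hw⟩ := left _ hmem
  rw [← hz'] at hw
  have hwj : w = 1 + j := by
    calc w = w * (z * (1 + j)) := by rw [hz, mul_one]
      _ = (w * z) * (1 + j) := by noncomm_ring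
      _ = 1 + j := by rw [hw, one_mul]
  exact ⟨⟨1 + j, z, by rw [← hwj, hw], hz⟩, rfl⟩

theorem isUnit_one_add_mul_of_mem_jacobson {R : Type*} [Ring R] {j : R}
    (hj : j ∈ Ring.jacobson R) (r : R) : IsUnit (1 + r * j) :=
  isUnit_one_add_of_mem_jacobson (Ideal.mul_mem_left _ _ hj)

/-- Conversely, if `1 + r * j` is a unit (or just left invertible) for every `r` then `j` lies in
the Jacobson radical. -/
theorem mem_jacobson_of_isUnit {R : Type*} [Ring R] {j : R}
    (h : ∀ r : R, ∃ z, z * (1 + r * j) = 1) : j ∈ Ring.jacobson R := by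
  rw [← Ideal.jacobson_bot, Ideal.mem_jacobson_iff]
  intro y
  obtain ⟨z, hz⟩ := h y
  refine ⟨z, ?_⟩
  have : z * y * j + z - 1 = 0 := by
    have : z + z * (y * j) = 1 := by rw [← hz]; noncomm_ring
    rw [← this]; noncomm_ring
  simpa using this

/-- `ℤ` is a Jacobson ring. -/
theorem isJacobsonRing_int : IsJacobsonRing ℤ := by
  rw [isJacobsonRing_iff_prime_eq]
  intro P hP
  by_cases h : P = ⊥
  · subst h
    rw [eq_bot_iff]
    intro x hx
    rw [Ideal.mem_jacobson_bot] at hx
    have h3 := hx (3 * x)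
    rw [Int.isUnit_iff] at h3
    have : x * x ≥ 0 := mul_self_nonneg x
    have hx0 : x * x = 0 := by
      rcases h3 with h3 | h3 <;> nlinarith
    simpa using mul_self_eq_zero.mp hx0
  · haveI : P.IsMaximal := IsPrime.to_maximal_ideal h
    exact Ideal.jacobson_eq_self_of_isMaximal

end Q10
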