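import Mathlib

/-!
# The ring `K ⊕ x K` with `x² = 0` and `d x = x σ(d)`

If `K` is a field which is algebraic over `σ(K)`, then every surjection from a submodule of a
finitely generated left module onto that module is injective.
-/

noncomputable section

namespace Q10.BasicRing

/-- The ring `K ⊕ x K`, elements `a + x b`. -/
@[ext]
structure SR {K : Type} [Field K] (σ : K →+* K) where
  a : K
  b : K

namespace SR

variable {K : Type} [Field K] {σ : K →+* K}

instance : Zero (SR σ) := ⟨⟨0, 0⟩⟩
instance : One (SR σ) := ⟨⟨1, 0⟩⟩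
instance : Add (SR σ) := ⟨fun s t => ⟨s.a + t.a, s.b + t.b⟩⟩
instance : Neg (SR σ) := ⟨fun s => ⟨-s.a, -s.b⟩⟩
instance : Mul (SR σ) := ⟨fun s t => ⟨s.a * t.a, σ s.a * t.b + s.b * t.a⟩⟩

@[simp] theorem zero_a : (0 : SR σ).a = 0 := rfl
@[simp] theorem zero_b : (0 : SR σ).b = 0 := rfl
@[simp] theorem one_a : (1 : SR σ).a = 1 := rfl
@[simp] theorem one_b : (1 : SR σ).b = 0 := rfl
@[simp] theorem add_a (s t : SR σ) : (s + t).a = s.a + t.a := rfl
@[simp] theorem add_b (s t : SR σ) : (s + t).b = s.b + t.b := rfl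
@[simp] theorem neg_a (s : SR σ) : (-s).a = -s.a := rfl
@[simp] theorem neg_b (s : SR σ) : (-s).b = -s.b := rfl
@[simp] theorem mul_a (s t : SR σ) : (s * t).a = s.a * t.a := rfl
@[simp] theorem mul_b (s t : SR σ) : (s * t).b = σ s.a * t.b + s.b * t.a := rfl

instance : Ring (SR σ) where
  add_assoc s t u := by ext <;> simp <;> ring
  zero_add s := by ext <;> simp
  add_zero s := by ext <;> simp
  neg_add_cancel s := by ext <;> simp
  add_comm s t := by ext <;> simp <;> ring
  nsmul := nsmulRec
  zsmul := zsmulRec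
  left_distrib s t u := by ext <;> simp <;> ring
  right_distrib s t u := by ext <;> simp <;> ring
  zero_mul s := by ext <;> simp
  mul_zero s := by ext <;> simp
  mul_assoc s t u := by ext <;> simp <;> ring
  one_mul s := by ext <;> simp
  mul_one s := by ext <;> simp

/-- The first coordinate as a ring homomorphism. -/
def aHom : SR σ →+* K where
  toFun := a
  map_one' := rfl
  map_mul' _ _ := rfl
  map_zero' := rfl
  map_add' _ _ := rfl

/-- The second coordinate as an additive map. -/
def bHom : SR σ →+ K where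
  toFun := b
  map_zero' := rfl
  map_add' _ _ := rfl

/-- The inclusion of `K`. -/
def ι : K →+* SR σ where
  toFun k := ⟨k, 0⟩
  map_one' := rfl
  map_mul' s t := by ext <;> simp
  map_zero' := rfl
  map_add' s t := by ext <;> simp

/-- The element `x`. -/
def X : SR σ := ⟨0, 1⟩

theorem X_mul_X : (X : SR σ) * X = 0 := by ext <;> simp [X]

theorem mul_X (r : SR σ) : r * X = X * ι (σ r.a) := by ext <;> simp [X, ι]

theorem ι_mul_X (d : K) : ι d * (X : SR σ) = X * ι (σ d) := mul_X _

theorem eq_add (r : SR σ) : r = ι r.a + X * ι r.b := by ext <;> simp [X, ι]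

end SR

open SR

section Left

variable {K : Type} [Field K] {σ : K →+* K} {M : Type} [AddCommGroup M] [Module (SR σ) M]

theorem X_smul_X (m : M) : (X : SR σ) • (X : SR σ) • m = 0 := by
  rw [← mul_smul, X_mul_X, zero_smul]

/-- The submodule `x M`. -/
def xM (σ : K →+* K) (M : Type) [AddCommGroup M] [Module (SR σ) M] : Submodule (SR σ) M where
  carrier := {m | ∃ m', m = (X : SR σ) • m'}
  zero_mem' := ⟨0, by rw [smul_zero]⟩
  add_mem' := by
    rintro _ _ ⟨m, rfl⟩ ⟨m', rfl⟩
    exact ⟨m + m', by rw [smul_add]⟩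
  smul_mem' := by
    rintro r _ ⟨m, rfl⟩
    exact ⟨ι (σ r.a) • m, by rw [← mul_smul, mul_X, mul_smul]⟩

theorem mem_xM {m : M} : m ∈ xM σ M ↔ ∃ m', m = (X : SR σ) • m' := Iff.rfl

theorem X_smul_mem {m : M} (h : m ∈ xM σ M) : (X : SR σ) • m = 0 := by
  obtain ⟨m', rfl⟩ := h
  exact X_smul_X m'

/-- The chain of submodules. -/
def chain {N : Submodule (SR σ) M} (f : N →ₗ[SR σ] M) : ℕ → Submodule (SR σ) M
  | 0 => ⊤
  | n + 1 => ((chain f n).comap f).map N.subtype

theorem chain_le {N : Submodule (SR σ) M} (f : N →ₗ[SR σ] M) (n : ℕ) :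
    chain f (n + 1) ≤ chain f n := by
  induction n with
  | zero => exact le_top
  | succ n ih => exact Submodule.map_mono (Submodule.comap_mono ih)

theorem chain_antitone {N : Submodule (SR σ) M} (f : N →ₗ[SR σ] M) : Antitone (chain f) :=
  antitone_nat_of_succ_le (chain_le f)

/-- The statement `x A n = x A (n+1)`. -/
def P {N : Submodule (SR σ) M} (f : N →ₗ[SR σ] M) (n : ℕ) : Prop :=
  ∀ a ∈ chain f n, ∃ a' ∈ chain f (n + 1), (X : SR σ) • a = (X : SR σ) • a'

theorem P_pred {N : Submodule (SR σ) M} (f : N →ₗ[SR σ] M) (hf : Function.Surjective f) (n : ℕ)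
    (h : P f (n + 1)) : P f n := by
  intro a ha
  obtain ⟨b, rfl⟩ := hf a
  have hb : (b : M) ∈ chain f (n + 1) := ⟨b, ha, rfl⟩
  obtain ⟨_, ⟨b', hb', rfl⟩, h2⟩ := h _ hb
  refine ⟨f b', hb', ?_⟩
  rw [← map_smul, ← map_smul]
  congr 1
  exact Subtype.ext h2

theorem P_zero {N : Submodule (SR σ) M} (f : N →ₗ[SR σ] M) (hf : Function.Surjective f) (n : ℕ)
    (h : P f n) : P f 0 := by
  induction n with
  | zero => exact h
  | succ n ih => exact ih (P_pred f hf n h)

theorem exists_P {N : Submodule (SR σ) M} (f : N →ₗ[SR σ] M)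
    (hA : IsArtinian (SR σ) (M ⧸ xM σ M)) : ∃ n, P f n := by
  obtain ⟨n, hn⟩ := IsArtinian.monotone_stabilizes
    (⟨fun n => OrderDual.toDual ((chain f n).map (xM σ M).mkQ), fun m n hmn =>
      Submodule.map_mono (chain_antitone f hmn)⟩ : ℕ →o (Submodule (SR σ) (M ⧸ xM σ M))ᵒᵈ)
  refine ⟨n, fun a ha => ?_⟩
  have h1 : (chain f n).map (xM σ M).mkQ = (chain f (n + 1)).map (xM σ M).mkQ := hn (n + 1) (by omega)
  have h2 : (xM σ M).mkQ a ∈ (chain f (n + 1)).map (xM σ M).mkQ := by
    rw [← h1]
    exact Submodule.mem_map_of_mem ha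
  obtain ⟨a', ha', h3⟩ := h2
  refine ⟨a', ha', ?_⟩
  have h4 : a' - a ∈ xM σ M := by
    rw [← Submodule.ker_mkQ (xM σ M), LinearMap.mem_ker, map_sub, h3, sub_self]
  have h5 := X_smul_mem h4
  rw [smul_sub, sub_eq_zero] at h5
  exact h5.symm

theorem xM_le {N : Submodule (SR σ) M} (f : N →ₗ[SR σ] M) (hf : Function.Surjective f)
    (hA : IsArtinian (SR σ) (M ⧸ xM σ M)) (m : M) : ∃ n : N, (X : SR σ) • m = (X : SR σ) • (n : M) := by
  obtain ⟨n, hn⟩ := exists_P f hA
  obtain ⟨_, ⟨a, _, rfl⟩, h⟩ := P_zero f hf n hn m trivial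
  exact ⟨a, h⟩

/-- The `K`-module structure. -/
@[reducible] def modK (Q : Type) [AddCommGroup Q] [Module (SR σ) Q] : Module K Q :=
  Module.compHom Q (ι : K →+* SR σ)

instance instSMul : SMul K (SR σ) := ⟨fun k r => ι k * r⟩

theorem tower (Q : Type) [AddCommGroup Q] [Module (SR σ) Q] :
    let _ := modK (σ := σ) Q
    IsScalarTower K (SR σ) Q := by
  intro _
  exact ⟨fun k r q => mul_smul (ι k) r q⟩

theorem finiteK (Q : Type) [AddCommGroup Q] [Module (SR σ) Q] [Module.Finite (SR σ) Q]
    (hX : ∀ q : Q, (X : SR σ) • q = 0) :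
    let _ := modK (σ := σ) Q
    Module.Finite K Q := by
  intro _
  obtain ⟨S, hS⟩ := Module.Finite.fg_top (R := SR σ) (M := Q)
  refine ⟨⟨S, ?_⟩⟩
  rw [eq_top_iff]
  intro q _
  have hq : q ∈ Submodule.span (SR σ) (S : Set Q) := by rw [hS]; trivial
  induction hq using Submodule.span_induction with
  | mem x h => exact Submodule.subset_span h
  | zero => exact zero_mem _
  | add x y _ _ hx hy => exact add_mem (hx trivial) (hy trivial)
  | smul r x _ hx =>
    have h1 : r • x = r.a • x := by
      have : r • x = (ι r.a + X * ι r.b : SR σ) • x := by rw [← eq_add]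
      rw [this, add_smul, mul_smul, hX, add_zero]
      rfl
    rw [h1]
    exact Submodule.smul_mem _ _ (hx trivial)

theorem noeth (Q : Type) [AddCommGroup Q] [Module (SR σ) Q] [Module.Finite (SR σ) Q]
    (hX : ∀ q : Q, (X : SR σ) • q = 0) : IsNoetherian (SR σ) Q ∧ IsArtinian (SR σ) Q := by
  let _ := modK (σ := σ) Q
  have h1 : IsScalarTower K (SR σ) Q := tower Q
  have h2 : Module.Finite K Q := finiteK Q hX
  exact ⟨isNoetherian_of_tower K inferInstance, isArtinian_of_tower K inferInstance⟩

theorem X_smul_quot (q : M ⧸ xM σ M) : (X : SR σ) • q = 0 := by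
  obtain ⟨m, rfl⟩ := Submodule.mkQ_surjective _ q
  rw [← map_smul, ← LinearMap.mem_ker, Submodule.ker_mkQ]
  exact ⟨m, rfl⟩

/-- If `N` surjects onto `M` then `N = M`, and the induced map on `M / x M` is injective. -/
theorem top_and_inj [Module.Finite (SR σ) M] {N : Submodule (SR σ) M} (f : N →ₗ[SR σ] M)
    (hf : Function.Surjective f) :
    N = ⊤ ∧ ∀ n : N, f n ∈ xM σ M → (n : M) ∈ xM σ M := by
  obtain ⟨hN, hA⟩ := noeth (M ⧸ xM σ M) X_smul_quot
  have hle := xM_le f hf hA
  let q := (xM σ M).mkQ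
  have hq : ∀ m, q m = 0 ↔ m ∈ xM σ M := fun m => by
    rw [← LinearMap.mem_ker, Submodule.ker_mkQ]
  let j : N →ₗ[SR σ] M ⧸ xM σ M := q.comp N.subtype
  let ψ : N →ₗ[SR σ] M ⧸ xM σ M := q.comp f
  have hψ : Function.Surjective ψ := (Submodule.mkQ_surjective _).comp hf
  have hker : LinearMap.ker j ≤ LinearMap.ker ψ := by
    intro n hn
    rw [LinearMap.mem_ker] at hn ⊢
    obtain ⟨m, hm⟩ := (hq _).mp hn
    obtain ⟨a, ha⟩ := hle m
    have h1 : n = (X : SR σ) • a := Subtype.ext (by rw [Submodule.coe_smul, ← ha, ← hm]; rfl)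
    rw [h1]
    change q (f _) = 0
    rw [hq, map_smul]
    exact ⟨_, rfl⟩
  let e := LinearMap.quotKerEquivRange j
  let fb : LinearMap.range j →ₗ[SR σ] M ⧸ xM σ M :=
    ((LinearMap.ker j).liftQ ψ hker).comp e.symm.toLinearMap
  have hfb : ∀ n : N, fb ⟨j n, n, rfl⟩ = ψ n := by
    intro n
    have : e.symm ⟨j n, n, rfl⟩ = (LinearMap.ker j).mkQ n := by
      rw [LinearEquiv.symm_apply_eq]
      rfl
    change (LinearMap.ker j).liftQ ψ hker (e.symm _) = _
    rw [this]
    exact Submodule.liftQ_apply _ _ _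
  have hsurj : Function.Surjective fb := by
    intro y
    obtain ⟨n, rfl⟩ := hψ y
    exact ⟨_, hfb n⟩
  have hinj : Function.Injective fb :=
    IsNoetherian.injective_of_surjective_of_submodule fb hsurj
  let E : LinearMap.range j ≃ₗ[SR σ] M ⧸ xM σ M := LinearEquiv.ofBijective fb ⟨hinj, hsurj⟩
  have hs : Function.Surjective ((LinearMap.range j).subtype.comp E.symm.toLinearMap) :=
    IsArtinian.surjective_of_injective_endomorphism _
      ((Submodule.injective_subtype _).comp E.symm.injective)
  constructor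
  · rw [eq_top_iff]
    intro m _
    obtain ⟨y, hy⟩ := hs (q m)
    obtain ⟨n, hn⟩ := (E.symm y).2
    have h1 : q n = q m := by
      rw [← hy]
      exact hn
    have h2 : m - n ∈ xM σ M := by rw [← hq, map_sub, h1, sub_self]
    obtain ⟨m', hm'⟩ := h2
    obtain ⟨a, ha⟩ := hle m'
    have h3 : m - n ∈ N := by
      rw [hm', ha]
      exact N.smul_mem _ a.2
    have := N.add_mem h3 n.2
    rwa [sub_add_cancel] at this
  · intro n hn
    have h1 : ψ n = 0 := (hq _).mpr hn
    rw [← hfb n] at h1
    have h2 := (map_eq_zero_iff fb hinj).mp h1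
    have h3 : j n = 0 := congrArg Subtype.val h2
    exact (hq _).mp h3

open Polynomial in
/-- An injective integral endomorphism satisfies a polynomial with nonzero constant term. -/
theorem exists_poly {k A : Type} [Field k] [Ring A] [Algebra k A] (g : A)
    (hg : ∀ h : A, g * h = 0 → h = 0) (n : ℕ) (p : k[X]) (hp : p ≠ 0) (hpn : p.natDegree = n)
    (h0 : aeval g p = 0) : ∃ p' : k[X], p'.coeff 0 ≠ 0 ∧ aeval g p' = 0 := by
  induction n generalizing p with
  | zero =>
    refine ⟨p, ?_, h0⟩
    intro hc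
    apply hp
    rw [Polynomial.eq_C_of_natDegree_eq_zero hpn, hc, map_zero]
  | succ n ih =>
    by_cases hc : p.coeff 0 = 0
    · have h1 : p = Polynomial.X * p.divX := by
        have := Polynomial.X_mul_divX_add p
        rw [hc, map_zero, add_zero] at this
        exact this.symm
      have h2 : aeval g p.divX = 0 := by
        apply hg
        rw [h1, map_mul, aeval_X] at h0
        exact h0
      refine ih p.divX ?_ ?_ h2
      · intro h
        rw [h, mul_zero] at h1
        exact hp h1
      · rw [Polynomial.natDegree_divX_eq_natDegree_tsub_one, hpn]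
        rfl
    · exact ⟨p, hc, h0⟩

open Polynomial in
theorem orzech (halg : Algebra.IsIntegral σ.fieldRange K) [Module.Finite (SR σ) M]
    {N : Submodule (SR σ) M} (f : N →ₗ[SR σ] M) (hf : Function.Surjective f) :
    Function.Injective f := by
  obtain ⟨hN, hinj⟩ := top_and_inj f hf
  have hmem : ∀ m : M, m ∈ N := fun m => by rw [hN]; trivial
  let F : M →ₗ[SR σ] M := f.comp (LinearMap.codRestrict N LinearMap.id hmem)
  have hF : ∀ n : N, F n = f n := fun n => rfl
  have hFinj : ∀ m : M, F m ∈ xM σ M → m ∈ xM σ M := fun m h => hinj ⟨m, hmem m⟩ h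
  have hFx : xM σ M ≤ (xM σ M).comap F := by
    rintro _ ⟨m, rfl⟩
    rw [Submodule.mem_comap, map_smul]
    exact ⟨_, rfl⟩
  -- the key claim
  have key : ∀ m : M, (X : SR σ) • F m = 0 → (X : SR σ) • m = 0 := by
    let _ := modK (σ := σ) M
    let _ := modK (σ := σ) (M ⧸ xM σ M)
    have hfin : Module.Finite K (M ⧸ xM σ M) := finiteK _ X_smul_quot
    let g₀ := (xM σ M).mapQ (xM σ M) F hFx
    let g : Module.End K (M ⧸ xM σ M) :=
      { toFun := g₀
        map_add' := map_add g₀
        map_smul' := fun k q => map_smul g₀ (ι k) q }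
    have hgm : ∀ m, g ((xM σ M).mkQ m) = (xM σ M).mkQ (F m) := fun m => rfl
    have hginj : ∀ q, g q = 0 → q = 0 := by
      intro q hq
      obtain ⟨m, rfl⟩ := Submodule.mkQ_surjective _ q
      rw [hgm, ← LinearMap.mem_ker, Submodule.ker_mkQ] at hq
      rw [← LinearMap.mem_ker, Submodule.ker_mkQ]
      exact hFinj m hq
    have hint : IsIntegral K g := Algebra.IsIntegral.isIntegral g
    have hint' : IsIntegral σ.fieldRange g := isIntegral_trans g hint
    obtain ⟨p, hpm, hp⟩ := hint'
    obtain ⟨p', hp'0, hp'⟩ := exists_poly g (fun h hh => by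
      apply LinearMap.ext
      intro q
      apply hginj
      exact LinearMap.congr_fun hh q) p.natDegree p hpm.ne_zero rfl (by
        rw [aeval_def]; exact hp)
    -- the set of classes killed by `x`
    let Z : Submodule σ.fieldRange (M ⧸ xM σ M) :=
      { carrier := {q | ∀ m, (xM σ M).mkQ m = q → (X : SR σ) • m = 0}
        zero_mem' := fun m hm => by
          rw [← LinearMap.mem_ker, Submodule.ker_mkQ] at hm
          exact X_smul_mem hm
        add_mem' := by
          intro q q' hq hq' m hm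
          obtain ⟨a, ha⟩ := Submodule.mkQ_surjective _ q
          have h1 := hq a ha
          have h2 := hq' (m - a) (by rw [map_sub, hm, ha, add_sub_cancel_left])
          rw [smul_sub, h1, sub_zero] at h2
          exact h2
        smul_mem' := by
          rintro ⟨_, d, rfl⟩ q hq m hm
          obtain ⟨a, ha⟩ := Submodule.mkQ_surjective _ q
          have h1 := hq a ha
          have h3 : (xM σ M).mkQ (m - (ι (σ d) : SR σ) • a) = 0 := by
            rw [map_sub, hm, map_smul, ha]
            exact sub_self _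
          rw [← LinearMap.mem_ker, Submodule.ker_mkQ] at h3
          have h4 := X_smul_mem h3
          rw [smul_sub, ← mul_smul, ← ι_mul_X, mul_smul, h1, smul_zero, sub_zero] at h4
          exact h4 }
    have hZ : ∀ m, (xM σ M).mkQ m ∈ Z ↔ (X : SR σ) • m = 0 := by
      intro m
      constructor
      · intro h
        exact h m rfl
      · intro h m' hm'
        have h3 : (xM σ M).mkQ (m' - m) = 0 := by rw [map_sub, hm', sub_self]
        rw [← LinearMap.mem_ker, Submodule.ker_mkQ] at h3
        have h4 := X_smul_mem h3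
        rw [smul_sub, h, sub_zero] at h4
        exact h4
    have hgZ : ∀ q ∈ Z, g q ∈ Z := by
      intro q hq
      obtain ⟨m, rfl⟩ := Submodule.mkQ_surjective _ q
      rw [hgm, hZ, ← map_smul, (hZ m).mp hq, map_zero]
    have hpZ : ∀ r : (σ.fieldRange)[X], ∀ q ∈ Z, (aeval g r) q ∈ Z := by
      intro r
      induction r using Polynomial.induction_on' with
      | add r s hr hs =>
        intro q hq
        rw [map_add, LinearMap.add_apply]
        exact add_mem (hr q hq) (hs q hq)
      | monomial n c =>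
        intro q hq
        rw [aeval_monomial]
        have h1 : ∀ n : ℕ, (g ^ n) q ∈ Z := by
          intro n
          induction n with
          | zero => rw [pow_zero]; exact hq
          | succ n ih => rw [pow_succ', Module.End.mul_apply]; exact hgZ _ ih
        have h2 : ((algebraMap σ.fieldRange (Module.End K (M ⧸ xM σ M)) c) * g ^ n) q =
            c • ((g ^ n) q) := rfl
        rw [h2]
        exact Z.smul_mem _ (h1 n)
    intro m hm
    have h1 : g ((xM σ M).mkQ m) ∈ Z := by rw [hgm, hZ]; exact hm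
    have h2 := hpZ p'.divX _ h1
    have h3 : p'.coeff 0 • ((xM σ M).mkQ m) = -((aeval g p'.divX) (g ((xM σ M).mkQ m))) := by
      have h4 := congrArg (fun t : Module.End K (M ⧸ xM σ M) => t ((xM σ M).mkQ m)) hp'
      rw [← Polynomial.divX_mul_X_add p', map_add, map_mul, aeval_X, aeval_C,
        LinearMap.add_apply] at h4
      rw [eq_neg_iff_add_eq_zero, add_comm]
      exact h4
    have h5 : p'.coeff 0 • ((xM σ M).mkQ m) ∈ Z := by rw [h3]; exact neg_mem h2
    have h6 := Z.smul_mem (p'.coeff 0)⁻¹ h5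
    rw [smul_smul, inv_mul_cancel₀ hp'0, one_smul, hZ] at h6
    exact h6
  rw [injective_iff_map_eq_zero]
  intro n hn
  have h1 : (n : M) ∈ xM σ M := hinj n (by rw [hn]; exact zero_mem _)
  obtain ⟨m, hm⟩ := h1
  apply Subtype.ext
  rw [hm]
  apply key
  rw [← map_smul, ← hm, hF, hn]

end Left

end Q10.BasicRing
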