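import Mathlib
import Pool.Agent.Q10.BasicRing

/-!
# The field with a lacunary endomorphism, and the failure of F-noetherianity
-/

noncomputable section

namespace Q10.BasicRing

open SR

section Right

variable {K : Type} [Field K] {σ : K →+* K}

/-- The inclusion of `K` into the opposite ring. -/
def ιop : K →+* (SR σ)ᵐᵒᵖ where
  toFun k := MulOpposite.op (ι k)
  map_one' := rfl
  map_mul' s t := by
    rw [mul_comm, map_mul, MulOpposite.op_mul]
  map_zero' := rfl
  map_add' s t := by rw [map_add, MulOpposite.op_add]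

attribute [-instance] instSMul in
theorem right_noetherian : IsNoetherianRing (SR σ)ᵐᵒᵖ := by
  classical
  let _ : Module K (SR σ)ᵐᵒᵖ := Module.compHom (SR σ)ᵐᵒᵖ (ιop : K →+* (SR σ)ᵐᵒᵖ)
  have h1 : IsScalarTower K (SR σ)ᵐᵒᵖ (SR σ)ᵐᵒᵖ := ⟨fun k r s => mul_assoc (ιop k) r s⟩
  have h2 : Module.Finite K (SR σ)ᵐᵒᵖ := by
    refine ⟨⟨({1, MulOpposite.op X} : Finset (SR σ)ᵐᵒᵖ), ?_⟩⟩
    rw [eq_top_iff]
    intro r _
    have h3 : r = (r.unop.a) • (1 : (SR σ)ᵐᵒᵖ) + (r.unop.b) • (MulOpposite.op X) := by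
      apply MulOpposite.unop_injective
      change r.unop = 1 * ι r.unop.a + X * ι r.unop.b
      rw [one_mul, ← eq_add]
    rw [h3]
    refine add_mem (Submodule.smul_mem _ _ (Submodule.subset_span ?_))
      (Submodule.smul_mem _ _ (Submodule.subset_span ?_))
    · simp
    · simp
  exact isNoetherian_of_tower K inferInstance

end Right

section Subring

variable {K : Type} [Field K] {σ : K →+* K}

/-- The image in `K` of a subring. -/
def T₀ (T : Subring (SR σ)) : Subring K := T.map aHom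

theorem mem_T₀ {T : Subring (SR σ)} {a : K} : a ∈ T₀ T ↔ ∃ r ∈ T, r.a = a := Iff.rfl

/-- In a left noetherian subring containing `x`, long sequences satisfy relations. -/
theorem relation (T : Subring (SR σ)) (hX : X ∈ T) (hT : IsNoetherianRing T) :
    ∃ d : ℕ, ∀ u : Fin (d + 1) → K, (∀ i, u i ∈ T₀ T) →
      ∃ s : Fin (d + 1) → K, (∀ i, s i ∈ T₀ T) ∧ s ≠ 0 ∧ ∑ i, σ (s i) * u i = 0 := by
  let I : Submodule T T :=
    { carrier := {t | (t : SR σ).a = 0}
      zero_mem' := rfl
      add_mem' := fun {s t} hs ht => by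
        change (s : SR σ).a + (t : SR σ).a = 0
        rw [show (s : SR σ).a = 0 from hs, show (t : SR σ).a = 0 from ht, add_zero]
      smul_mem' := fun c t ht => by
        change (c : SR σ).a * (t : SR σ).a = 0
        rw [show (t : SR σ).a = 0 from ht, mul_zero] }
  have hI : I.FG := IsNoetherian.noetherian I
  obtain ⟨d, v, hv⟩ := Submodule.fg_iff_exists_fin_generating_family.mp hI
  refine ⟨d, fun u hu => ?_⟩
  -- each `u i` is a combination
  have h1 : ∀ i, ∃ m : Fin d → T, u i = ∑ k, σ ((m k : SR σ).a) * ((v k : SR σ).b) := by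
    intro i
    obtain ⟨r, hr, hri⟩ := mem_T₀.mp (hu i)
    have h2 : (⟨X * r, T.mul_mem hX hr⟩ : T) ∈ I := by
      change (X * r).a = 0
      simp [X]
    rw [← hv, Submodule.mem_span_range_iff_exists_fun] at h2
    obtain ⟨m, hm⟩ := h2
    refine ⟨m, ?_⟩
    have h3 := congrArg (fun t : T => bHom (t : SR σ)) hm
    simp only [AddSubmonoidClass.coe_finsetSum, map_sum] at h3
    have h4 : bHom (X * r) = u i := by
      change (X * r).b = u i
      simp [X, hri]
    rw [← h4]
    refine h3.symm.trans (Finset.sum_congr rfl fun k _ => ?_)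
    have hvk : (v k : SR σ).a = 0 := by
      have : v k ∈ I := by rw [← hv]; exact Submodule.subset_span ⟨k, rfl⟩
      exact this
    change ((m k : SR σ) * (v k : SR σ)).b = _
    rw [mul_b, hvk, mul_zero, add_zero]
  choose m hm using h1
  let mm : Fin (d + 1) → Fin d → T₀ T := fun i k => ⟨(m i k : SR σ).a, mem_T₀.mpr ⟨_, (m i k).2, rfl⟩⟩
  let Λ : (Fin (d + 1) → T₀ T) →ₗ[T₀ T] (Fin d → T₀ T) :=
    { toFun := fun s k => ∑ i, s i * mm i k
      map_add' := fun s t => by
        funext k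
        simp only [Pi.add_apply, add_mul, Finset.sum_add_distrib]
      map_smul' := fun c s => by
        funext k
        simp only [Pi.smul_apply, smul_eq_mul, RingHom.id_apply, Finset.mul_sum, mul_assoc] }
  have hΛ : ¬ Function.Injective Λ := fun h => by
    have := le_of_fin_injective (T₀ T) Λ h
    omega
  rw [injective_iff_map_eq_zero] at hΛ
  push Not at hΛ
  obtain ⟨s, hs, hs0⟩ := hΛ
  refine ⟨fun i => s i, fun i => (s i).2, ?_, ?_⟩
  · intro h
    apply hs0
    funext i
    exact Subtype.ext (congrFun h i)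
  · have h5 : ∀ k, ∑ i, (s i : K) * (m i k : SR σ).a = 0 := by
      intro k
      have h6 := congrArg (fun t : T₀ T => (t : K)) (congrFun hs k)
      change ((∑ i, s i * mm i k : T₀ T) : K) = 0 at h6
      rw [AddSubmonoidClass.coe_finsetSum] at h6
      exact h6
    calc ∑ i, σ (s i) * u i = ∑ i, ∑ k, σ ((s i : K) * (m i k : SR σ).a) * (v k : SR σ).b := by
          refine Finset.sum_congr rfl fun i _ => ?_
          rw [hm i, Finset.mul_sum]
          refine Finset.sum_congr rfl fun k _ => ?_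
          rw [map_mul, mul_assoc]
      _ = ∑ k, σ (∑ i, (s i : K) * (m i k : SR σ).a) * (v k : SR σ).b := by
          rw [Finset.sum_comm]
          refine Finset.sum_congr rfl fun k _ => ?_
          rw [map_sum, Finset.sum_mul]
      _ = 0 := by
          refine Finset.sum_eq_zero fun k _ => ?_
          rw [h5, map_zero, zero_mul]

end Subring

/-! ### The field -/

/-- The value group. -/
abbrev Γ : Type := Lex (ℤ →₀ ℤ)

instance : IsOrderedAddMonoid Γ where
  add_le_add_left _ _ h c := add_le_add_left h c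

/-- The exponents. -/
def ee (n : ℤ) : ℤ := n.toNat + 1

theorem ee_pos (n : ℤ) : 0 < ee n := by unfold ee; positivity

/-- The shift on finitely supported functions. -/
def sF (f : ℤ →₀ ℤ) : ℤ →₀ ℤ :=
  Finsupp.ofSupportFinite (fun n => ee n * f (n + 1)) (by
    refine Set.Finite.subset (f.hasFiniteSupport.preimage (f := fun n => n + 1)
      (Set.injOn_of_injective (add_left_injective 1))) ?_
    intro n hn
    rw [Function.mem_support] at hn
    rw [Set.mem_preimage, Function.mem_support]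
    intro h
    exact hn (by rw [h, mul_zero]))

theorem sF_apply (f : ℤ →₀ ℤ) (n : ℤ) : sF f n = ee n * f (n + 1) := rfl

/-- The endomorphism of the value group. -/
def sG : Γ →+ Γ where
  toFun f := toLex (sF (ofLex f))
  map_zero' := by
    apply ofLex.injective
    ext n
    change ee n * 0 = 0
    rw [mul_zero]
  map_add' f g := by
    apply ofLex.injective
    ext n
    change ee n * (ofLex f (n + 1) + ofLex g (n + 1)) = _
    rw [mul_add]
    rfl

theorem sG_apply (f : Γ) (n : ℤ) : ofLex (sG f) n = ee n * ofLex f (n + 1) := rfl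

theorem sG_strictMono : StrictMono sG := by
  intro f g h
  rw [Finsupp.Lex.lt_iff] at h ⊢
  obtain ⟨i, h1, h2⟩ := h
  refine ⟨i - 1, fun j hj => ?_, ?_⟩
  · rw [sG_apply, sG_apply, h1 (j + 1) (by omega)]
  · rw [sG_apply, sG_apply, sub_add_cancel]
    exact mul_lt_mul_of_pos_left h2 (ee_pos _)

theorem sG_injective : Function.Injective sG := sG_strictMono.injective

/-- The field of Hahn series. -/
abbrev H : Type := HahnSeries Γ ℚ

/-- The endomorphism of the Hahn series field. -/
def sH : H →+* H := HahnSeries.embDomainRingHom sG sG_injective fun _ _ => sG_strictMono.le_iff_le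

theorem sH_single (γ : Γ) (r : ℚ) : sH (HahnSeries.single γ r) = HahnSeries.single (sG γ) r :=
  HahnSeries.embDomain_single

theorem sH_order {a : H} (ha : a ≠ 0) : (sH a).order = sG a.order := by
  have h0 : sH a ≠ 0 := (map_ne_zero_iff sH sH.injective).mpr ha
  have hc : ∀ γ, (sH a).coeff (sG γ) = a.coeff γ := fun γ =>
    HahnSeries.embDomain_coeff (f := ⟨⟨sG, sG_injective⟩, sG_strictMono.le_iff_le⟩)
  apply le_antisymm
  · apply HahnSeries.order_le_of_coeff_ne_zero
    rw [hc]
    exact HahnSeries.coeff_order_eq_zero.not.mpr ha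
  · by_contra hlt
    push Not at hlt
    have h1 : (sH a).coeff (sH a).order ≠ 0 := HahnSeries.coeff_order_eq_zero.not.mpr h0
    by_cases hr : ∃ γ, sG γ = (sH a).order
    · obtain ⟨γ, hγ⟩ := hr
      rw [← hγ, hc] at h1
      have h2 := HahnSeries.order_le_of_coeff_ne_zero h1
      rw [← hγ] at hlt
      exact absurd hlt (not_lt.mpr (sG_strictMono.monotone h2))
    · apply h1
      exact HahnSeries.embDomain_of_notMem_range (fun ⟨γ, hγ⟩ => hr ⟨γ, hγ⟩)

/-- The field generated by the monomials. -/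
def K : Subfield H := Subfield.closure (Set.range fun γ : Γ => HahnSeries.single γ (1 : ℚ))

theorem mono_mem (γ : Γ) : HahnSeries.single γ (1 : ℚ) ∈ K := Subfield.subset_closure ⟨γ, rfl⟩

theorem sH_mem {a : H} (ha : a ∈ K) : sH a ∈ K := by
  have h : K ≤ Subfield.comap sH K := by
    rw [K, Subfield.closure_le]
    rintro _ ⟨γ, rfl⟩
    rw [SetLike.mem_coe, Subfield.mem_comap, sH_single]
    exact mono_mem _
  exact h ha

/-- The endomorphism `σ` of `K`. -/
def σ : K →+* K := sH.restrict K K fun _ h => sH_mem h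

theorem σ_coe (a : K) : ((σ a : K) : H) = sH a := rfl

/-- The monomials in `K`. -/
def mo (γ : Γ) : K := ⟨_, mono_mem γ⟩

theorem σ_mo (γ : Γ) : σ (mo γ) = mo (sG γ) := Subtype.ext (sH_single γ 1)

theorem mo_pow (γ : Γ) (n : ℕ) : mo γ ^ n = mo (n • γ) := by
  apply Subtype.ext
  change (HahnSeries.single γ (1 : ℚ)) ^ n = HahnSeries.single (n • γ) 1
  rw [HahnSeries.single_pow, one_pow]

/-- The value group modulo its image is torsion. -/
theorem torsion (γ : Γ) : ∃ m : ℕ, 0 < m ∧ ∃ γ', (m • γ : Γ) = sG γ' := by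
  classical
  let m : ℕ := ∏ n ∈ (ofLex γ).support, (ee n).toNat
  have hm : 0 < m := Finset.prod_pos fun n _ => by
    have := ee_pos n
    omega
  have hdvd : ∀ n : ℤ, ee n ∣ (m : ℤ) * ofLex γ n := by
    intro n
    by_cases hn : n ∈ (ofLex γ).support
    · have h1 : (ee n).toNat ∣ m := Finset.dvd_prod_of_mem _ hn
      have h2 : ((ee n).toNat : ℤ) ∣ (m : ℤ) := by exact_mod_cast h1
      rw [Int.toNat_of_nonneg (ee_pos n).le] at h2
      exact Dvd.dvd.mul_right h2 _
    · rw [Finsupp.notMem_support_iff.mp hn, mul_zero]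
      exact dvd_zero _
  refine ⟨m, hm, toLex (Finsupp.ofSupportFinite
    (fun n => ((m : ℤ) * ofLex γ (n - 1)) / ee (n - 1)) ?_), ?_⟩
  · refine Set.Finite.subset ((ofLex γ).hasFiniteSupport.preimage (f := fun n => n - 1)
      (Set.injOn_of_injective (sub_left_injective))) ?_
    intro n hn
    rw [Function.mem_support] at hn
    rw [Set.mem_preimage, Function.mem_support]
    intro h
    exact hn (by rw [h, mul_zero, Int.zero_ediv])
  · apply ofLex.injective
    ext n
    rw [sG_apply]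
    change (m • ofLex γ) n = ee n * (((m : ℤ) * ofLex γ (n + 1 - 1)) / ee (n + 1 - 1))
    rw [add_sub_cancel_right, Int.mul_ediv_cancel' (hdvd n), Finsupp.smul_apply, nsmul_eq_mul]

theorem isIntegral_mo (γ : Γ) : IsIntegral σ.fieldRange (mo γ) := by
  obtain ⟨m, hm, γ', h⟩ := torsion γ
  apply IsIntegral.of_pow hm
  rw [mo_pow, h, ← σ_mo]
  exact isIntegral_algebraMap (R := σ.fieldRange) (x := ⟨σ (mo γ'), mo γ', rfl⟩)

theorem algebraic : Algebra.IsIntegral σ.fieldRange K := by
  refine ⟨fun a => ?_⟩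
  let L : Subfield H := (algebraicClosure σ.fieldRange K).toSubfield.map K.subtype
  have h1 : K ≤ L := by
    change Subfield.closure _ ≤ L
    rw [Subfield.closure_le]
    rintro _ ⟨γ, rfl⟩
    refine ⟨mo γ, ?_, rfl⟩
    exact mem_algebraicClosure_iff'.mpr (isIntegral_mo γ)
  obtain ⟨b, hb, hba⟩ := h1 a.2
  have h2 : b = a := Subtype.ext hba
  rw [← h2]
  exact mem_algebraicClosure_iff'.mp hb

/-! ### Values -/

/-- If a sum vanishes then two nonzero terms have the same order. -/
theorem same_order {n : ℕ} (z : Fin n → H) (hz : ∑ i, z i = 0) (h0 : ∃ i, z i ≠ 0) :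
    ∃ i j, i < j ∧ z i ≠ 0 ∧ z j ≠ 0 ∧ (z i).order = (z j).order := by
  classical
  by_contra hcon
  push Not at hcon
  have hne : ∀ i j, i ≠ j → z i ≠ 0 → z j ≠ 0 → (z i).order ≠ (z j).order := by
    intro i j hij hi hj
    rcases lt_or_gt_of_ne hij with h | h
    · exact hcon i j h hi hj
    · exact (hcon j i h hj hi).symm
  obtain ⟨i, hi, hmin⟩ := Finset.exists_min_image (Finset.univ.filter fun i => z i ≠ 0)
    (fun i => (z i).order) (by
      obtain ⟨i, hi⟩ := h0
      exact ⟨i, by simp [hi]⟩)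
  rw [Finset.mem_filter] at hi
  have h1 : (∑ j, z j).coeff (z i).order = 0 := by rw [hz]; rfl
  rw [HahnSeries.coeff_sum, Finset.sum_eq_single i] at h1
  · exact HahnSeries.coeff_order_eq_zero.not.mpr hi.2 h1
  · intro j _ hj
    by_cases hj0 : z j = 0
    · rw [hj0]; rfl
    · apply HahnSeries.coeff_eq_zero_of_lt_order
      exact lt_of_le_of_ne (hmin j (by simp [hj0])) (hne i j (Ne.symm hj) hi.2 hj0)
  · intro h
    exact absurd (Finset.mem_univ i) h

/-- The exponent differences of level `n`. -/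
def Dl (T : Subring K) (n : ℤ) (δ : ℤ) : Prop :=
  ∃ a ∈ T, ∃ b ∈ T, a ≠ 0 ∧ b ≠ 0 ∧
    δ = ofLex (a : H).order n - ofLex (b : H).order n

theorem step (T : Subring K) (d : ℕ) (hd : ∀ u : Fin (d + 1) → K, (∀ i, u i ∈ T) →
      ∃ s : Fin (d + 1) → K, (∀ i, s i ∈ T) ∧ s ≠ 0 ∧ ∑ i, σ (s i) * u i = 0)
    (n : ℤ) (δ : ℤ) (h : Dl T n δ) :
    ∃ k : ℤ, 1 ≤ k ∧ k ≤ d ∧ ∃ δ', Dl T (n + 1) δ' ∧ k * δ = ee n * δ' := by
  obtain ⟨a, ha, b, hb, ha0, hb0, hδ⟩ := h
  obtain ⟨s, hs, hs0, hsum⟩ := hd (fun i => a ^ (i : ℕ) * b ^ (d - i)) (fun i =>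
    T.mul_mem (T.pow_mem ha _) (T.pow_mem hb _))
  have hu0 : ∀ i : Fin (d + 1), a ^ (i : ℕ) * b ^ (d - i) ≠ 0 := fun i =>
    mul_ne_zero (pow_ne_zero _ ha0) (pow_ne_zero _ hb0)
  have hsum' : ∑ i, ((σ (s i) * (a ^ (i : ℕ) * b ^ (d - i)) : K) : H) = 0 := by
    have := congrArg (fun t : K => (t : H)) hsum
    simpa using this
  have hnz : ∀ i, ((σ (s i) * (a ^ (i : ℕ) * b ^ (d - i)) : K) : H) ≠ 0 → s i ≠ 0 := by
    intro i hi h
    apply hi
    rw [h, map_zero, zero_mul]
    rfl
  obtain ⟨i, j, hij, hi, hj, hord⟩ := same_order _ hsum' (by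
    obtain ⟨i, hi⟩ := Function.ne_iff.mp hs0
    refine ⟨i, ?_⟩
    intro h
    have h' : (σ (s i) * (a ^ (i : ℕ) * b ^ (d - i)) : K) = 0 := Subtype.ext h
    rcases mul_eq_zero.mp h' with h1 | h1
    · exact hi ((map_eq_zero_iff σ σ.injective).mp h1)
    · exact hu0 i h1)
  have hsi := hnz i hi
  have hsj := hnz j hj
  have haH : (a : H) ≠ 0 := fun h => ha0 (Subtype.ext h)
  have hbH : (b : H) ≠ 0 := fun h => hb0 (Subtype.ext h)
  have ord : ∀ i : Fin (d + 1), s i ≠ 0 →
      ((σ (s i) * (a ^ (i : ℕ) * b ^ (d - i)) : K) : H).order =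
        sG (s i : H).order + ((i : ℕ) • (a : H).order + (d - i : ℕ) • (b : H).order) := by
    intro i hi
    have hiH : (s i : H) ≠ 0 := fun h => hi (Subtype.ext h)
    have h1 : ((σ (s i) * (a ^ (i : ℕ) * b ^ (d - i)) : K) : H) =
        sH (s i) * ((a : H) ^ (i : ℕ) * (b : H) ^ (d - i : ℕ)) := by
      rfl
    rw [h1, HahnSeries.order_mul ((map_ne_zero_iff sH sH.injective).mpr hiH)
      (mul_ne_zero (pow_ne_zero _ haH) (pow_ne_zero _ hbH)),
      HahnSeries.order_mul (pow_ne_zero _ haH) (pow_ne_zero _ hbH), HahnSeries.order_pow,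
      HahnSeries.order_pow, sH_order hiH]
  rw [ord i hsi, ord j hsj] at hord
  have hn := congrArg (fun g : Γ => ofLex g n) hord
  have hev : ∀ (g h : Γ), ofLex (g + h) n = ofLex g n + ofLex h n := fun _ _ => rfl
  have hev' : ∀ (m : ℕ) (g : Γ), ofLex (m • g) n = m * ofLex g n := by
    intro m g
    change (m • ofLex g) n = _
    rw [Finsupp.smul_apply, nsmul_eq_mul]
  simp only [hev, hev', sG_apply] at hn
  have hid : (i : ℕ) ≤ d := by omega
  have hjd : (j : ℕ) ≤ d := by omega
  rw [Nat.cast_sub hid, Nat.cast_sub hjd] at hn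
  refine ⟨((j : ℕ) : ℤ) - ((i : ℕ) : ℤ), ?_, ?_, ofLex (s i : H).order (n + 1) -
    ofLex (s j : H).order (n + 1), ⟨s i, hs i, s j, hs j, hsi, hsj, rfl⟩, ?_⟩
  · have : (i : ℕ) < (j : ℕ) := hij
    omega
  · omega
  · rw [hδ]
    linear_combination -hn

theorem no_relation (T : Subring K) (d : ℕ) (hd : ∀ u : Fin (d + 1) → K, (∀ i, u i ∈ T) →
      ∃ s : Fin (d + 1) → K, (∀ i, s i ∈ T) ∧ s ≠ 0 ∧ ∑ i, σ (s i) * u i = 0)
    (hc : mo (toLex (Finsupp.single 0 1)) ∈ T) : False := by
  have h0 : Dl T 0 1 := by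
    refine ⟨_, hc, 1, T.one_mem, ?_, one_ne_zero, ?_⟩
    · intro h
      have := congrArg (fun t : K => (t : H)) h
      exact HahnSeries.single_ne_zero one_ne_zero this
    · have h1 : ((mo (toLex (Finsupp.single 0 1)) : K) : H).order = toLex (Finsupp.single 0 1) :=
        HahnSeries.order_single one_ne_zero
      have h2 : ((1 : K) : H).order = 0 := HahnSeries.order_one
      rw [h1, h2]
      change (1 : ℤ) = (Finsupp.single (0 : ℤ) (1 : ℤ)) 0 - 0
      rw [Finsupp.single_eq_same, sub_zero]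
  -- nonzero differences exist at every level
  have h1 : ∀ n : ℕ, ∃ δ, δ ≠ 0 ∧ Dl T n δ := by
    intro n
    induction n with
    | zero => exact ⟨1, one_ne_zero, h0⟩
    | succ n ih =>
      obtain ⟨δ, hδ, h⟩ := ih
      obtain ⟨k, hk, _, δ', h', he⟩ := step T d hd n δ h
      refine ⟨δ', ?_, by exact_mod_cast h'⟩
      rintro rfl
      rw [mul_zero] at he
      rcases mul_eq_zero.mp he with h2 | h2
      · omega
      · exact hδ h2
  -- descent
  have h2 : ∀ q : ℕ, ∀ n : ℕ, d ≤ n → ∀ δ : ℤ, δ ≠ 0 → δ.natAbs = q → ¬ Dl T n δ := by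
    intro q
    induction q using Nat.strong_induction_on with
    | _ q ih =>
      intro n hn δ hδ hq h
      obtain ⟨k, hk, hkd, δ', h', he⟩ := step T d hd n δ h
      have hδ' : δ' ≠ 0 := by
        rintro rfl
        rw [mul_zero] at he
        rcases mul_eq_zero.mp he with h2 | h2
        · omega
        · exact hδ h2
      have he' := congrArg Int.natAbs he
      rw [Int.natAbs_mul, Int.natAbs_mul] at he'
      have hee : (ee n).natAbs = n + 1 := by
        unfold ee
        omega
      rw [hee] at he'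
      have hkn : k.natAbs ≤ n := by omega
      have hpos : 0 < δ.natAbs := Int.natAbs_pos.mpr hδ
      have hpos' : 0 < δ'.natAbs := Int.natAbs_pos.mpr hδ'
      have hlt : δ'.natAbs < q := by
        rw [← hq]
        by_contra hge
        push Not at hge
        have h3 : k.natAbs * δ.natAbs ≤ n * δ.natAbs := Nat.mul_le_mul_right _ hkn
        have h4 : (n + 1) * δ.natAbs ≤ (n + 1) * δ'.natAbs := Nat.mul_le_mul_left _ hge
        rw [← he'] at h4
        have h5 : (n + 1) * δ.natAbs ≤ n * δ.natAbs := h4.trans h3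
        rw [add_mul, one_mul] at h5
        omega
      exact ih _ hlt (n + 1) (by omega) δ' hδ' rfl (by exact_mod_cast h')
  obtain ⟨δ, hδ, h⟩ := h1 d
  exact h2 _ d (le_refl _) δ hδ rfl h

/-- The ring. -/
abbrev R : Type := SR σ

/-- A subring containing `x` and `c₀` is not left noetherian. -/
theorem not_noetherian (T : Subring R) (hX : X ∈ T) (hc : ι (mo (toLex (Finsupp.single 0 1))) ∈ T) :
    ¬ IsNoetherianRing T := by
  intro hT
  obtain ⟨d, hd⟩ := relation T hX hT
  exact no_relation (T₀ T) d hd ⟨_, hc, rfl⟩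

end Q10.BasicRing
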