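import Mathlib

/-!
# Centrally essential distributive endomorphism rings of abelian groups
-/

noncomputable section

universe u

namespace Q10.EndDist

section Groups

variable {A : Type u} [AddCommGroup A]

/-- A divisible subgroup. -/
def Div (D : AddSubgroup A) : Prop := ∀ m : ℕ, m ≠ 0 → ∀ d ∈ D, ∃ d' ∈ D, m • d' = d

theorem baer {D : AddSubgroup A} (hD : Div D) : Module.Baer ℤ D := by
  have h : ∀ (m : ℤ), m ≠ 0 → ∀ d : D, ∃ d' : D, m • d' = d := by
    intro m hm d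
    obtain ⟨d', hd', h⟩ := hD m.natAbs (Int.natAbs_ne_zero.mpr hm) d d.2
    rcases Int.natAbs_eq m with h1 | h1
    · refine ⟨⟨d', hd'⟩, Subtype.ext ?_⟩
      rw [h1]
      change (m.natAbs : ℤ) • d' = d
      rw [natCast_zsmul, h]
    · refine ⟨-⟨d', hd'⟩, Subtype.ext ?_⟩
      rw [h1]
      change (-(m.natAbs : ℤ)) • (-d') = d
      rw [neg_smul_neg, natCast_zsmul, h]
  have : DivisibleBy D ℤ :=
    { div := fun d m => if hm : m = 0 then 0 else (h m hm d).choose
      div_zero := fun d => by simp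
      div_cancel := fun {m} d hm => by
        simp only [hm, dite_false]
        exact (h m hm d).choose_spec }
  exact Module.Baer.of_divisible D

/-- Extension of homomorphisms from cyclic subgroups. -/
theorem ext_hom {D : AddSubgroup A} (hD : Div D) (v x : A) (hx : x ∈ D)
    (h : ∀ k : ℤ, k • v = 0 → k • x = 0) : ∃ f : A →+ D, (f v : A) = x := by
  let φv : ℤ →ₗ[ℤ] A := LinearMap.toSpanSingleton ℤ A v
  let φx : ℤ →ₗ[ℤ] D := LinearMap.toSpanSingleton ℤ D ⟨x, hx⟩
  let i : (ℤ ⧸ LinearMap.ker φv) →ₗ[ℤ] A := (LinearMap.ker φv).liftQ φv le_rfl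
  have hle : LinearMap.ker φv ≤ LinearMap.ker φx := by
    intro k hk
    rw [LinearMap.mem_ker] at hk ⊢
    exact Subtype.ext (h k hk)
  let g : (ℤ ⧸ LinearMap.ker φv) →ₗ[ℤ] D := (LinearMap.ker φv).liftQ φx hle
  have hi : Function.Injective i := by
    rw [← LinearMap.ker_eq_bot]
    exact Submodule.ker_liftQ_eq_bot _ _ _ le_rfl
  obtain ⟨f, hf⟩ := (baer hD).extension_property i hi g
  refine ⟨f.toAddMonoidHom, ?_⟩
  have h1 := LinearMap.congr_fun hf ((LinearMap.ker φv).mkQ 1)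
  have h2 : i ((LinearMap.ker φv).mkQ 1) = v := by
    change (LinearMap.ker φv).liftQ φv le_rfl ((LinearMap.ker φv).mkQ 1) = v
    rw [Submodule.mkQ_apply, Submodule.liftQ_apply]
    exact one_smul ℤ v
  have h3 : g ((LinearMap.ker φv).mkQ 1) = ⟨x, hx⟩ := by
    change (LinearMap.ker φv).liftQ φx hle ((LinearMap.ker φv).mkQ 1) = _
    rw [Submodule.mkQ_apply, Submodule.liftQ_apply]
    exact one_smul ℤ (⟨x, hx⟩ : D)
  rw [LinearMap.comp_apply, h2, h3] at h1
  exact congrArg Subtype.val h1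

/-- Divisible subgroups are direct summands. -/
theorem retraction {D : AddSubgroup A} (hD : Div D) :
    ∃ e : A →+ D, ∀ d ∈ D, (e d : A) = d := by
  obtain ⟨f, hf⟩ := (baer hD).extension_property_addMonoidHom D.subtype D.subtype_injective
    (AddMonoidHom.id D)
  exact ⟨f, fun d hd => congrArg Subtype.val (DFunLike.congr_fun hf ⟨d, hd⟩)⟩

/-- Elements of the torsion of `ℚ/ℤ` are multiples of a generator. -/
theorem circle {N : ℕ} (hN : N ≠ 0) {u v : AddCircle (1 : ℚ)} (hu : addOrderOf u = N)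
    (hv : N • v = 0) : v ∈ AddSubgroup.zmultiples u := by
  have hfin : {x : AddCircle (1 : ℚ) | N • x = 0}.Finite :=
    AddCircle.finite_torsion (1 : ℚ) (Nat.pos_of_ne_zero hN)
  have hcard : {x : AddCircle (1 : ℚ) | N • x = 0}.encard ≤ N :=
    AddCircle.card_torsion_le_of_isSMulRegular (1 : ℚ) N hN
      (.of_right_eq_zero_of_smul fun _ ↦ by simp [hN])
  have hsub : (AddSubgroup.zmultiples u : Set (AddCircle (1 : ℚ))) ⊆ {x | N • x = 0} := by
    rintro _ ⟨k, rfl⟩
    change N • (k • u) = 0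
    rw [smul_comm, ← hu, addOrderOf_nsmul_eq_zero, smul_zero]
  have hfu : (AddSubgroup.zmultiples u : Set (AddCircle (1 : ℚ))).Finite := hfin.subset hsub
  have hcard2 : (AddSubgroup.zmultiples u : Set (AddCircle (1 : ℚ))).encard = N := by
    rw [← Set.Finite.cast_ncard_eq hfu]
    have : (AddSubgroup.zmultiples u : Set (AddCircle (1 : ℚ))).ncard = addOrderOf u :=
      Nat.card_zmultiples u
    rw [this, hu]
  have heq : (AddSubgroup.zmultiples u : Set (AddCircle (1 : ℚ))) = {x | N • x = 0} :=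
    hfin.eq_of_subset_of_encard_le' hsub (by rw [hcard2]; exact hcard)
  have : v ∈ (AddSubgroup.zmultiples u : Set (AddCircle (1 : ℚ))) := by rw [heq]; exact hv
  exact this

end Groups

section Main

variable {A : Type u} [AddCommGroup A]

/-- The standing hypotheses on `n`. -/
structure Hyp (n : AddMonoid.End A) : Prop where
  idem : ∀ e : AddMonoid.End A, e * e = e → ∀ x, e * x = x * e
  central : ∀ x, n * x = x * n
  sq : n * n = 0
  comm : ∃ a b : AddMonoid.End A, n = a * b - b * a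
  dist : ∀ m : ℕ, m ≠ 0 → ∃ r s t : AddMonoid.End A, (m : AddMonoid.End A) * r = n * s ∧
    n * (1 - r) = (m : AddMonoid.End A) * t

variable {n : AddMonoid.End A}

theorem Hyp.idem' (H : Hyp n) {e : AddMonoid.End A} (he : ∀ a, e (e a) = e a)
    (x : AddMonoid.End A) (a : A) : e (x a) = x (e a) :=
  DFunLike.congr_fun (H.idem e (DFunLike.ext _ _ he) x) a

theorem Hyp.central' (H : Hyp n) (x : AddMonoid.End A) (a : A) : n (x a) = x (n a) :=
  DFunLike.congr_fun (H.central x) a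

theorem Hyp.sq' (H : Hyp n) (a : A) : n (n a) = 0 := DFunLike.congr_fun H.sq a

/-- Case of a cyclic summand. -/
theorem caseB (H : Hyp n) {p : ℕ} (hp : p.Prime) {y : A} (hy : p • y = 0) (hy0 : y ≠ 0)
    (hk : ∃ k : ℕ, ¬ ∃ z, p ^ k • z = y) :
    ∃ ε : AddMonoid.End A, (∀ a, ε (ε a) = ε a) ∧ (∀ a, n (ε a) = n a) ∧
      ∀ a, p • ε a = 0 → ε a = 0 := by
  classical
  obtain ⟨k, hk, hmin⟩ : ∃ k : ℕ, (¬ ∃ z, p ^ k • z = y) ∧ ∀ j < k, ∃ z, p ^ j • z = y := by
    refine ⟨Nat.find hk, Nat.find_spec hk, fun j hj => ?_⟩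
    have := Nat.find_min hk hj
    push Not at this
    exact this
  have hkpos : k ≠ 0 := by
    rintro rfl
    exact hk ⟨y, by simp⟩
  obtain ⟨l, rfl⟩ := Nat.exists_eq_succ_of_ne_zero hkpos
  obtain ⟨z, hz⟩ := hmin l (Nat.lt_succ_self l)
  have hzo : addOrderOf z = p ^ (l + 1) := by
    have : Fact p.Prime := ⟨hp⟩
    apply addOrderOf_eq_prime_pow
    · rw [hz]; exact hy0
    · rw [pow_succ', mul_smul, hz, hy]
  -- the character
  let B : AddSubgroup A := (nsmulAddMonoidHom (α := A) (p ^ (l + 1))).range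
  have hyB : (QuotientAddGroup.mk' B) y ≠ 0 := by
    intro h
    rw [QuotientAddGroup.mk'_apply, QuotientAddGroup.eq_zero_iff] at h
    obtain ⟨z', hz'⟩ := h
    exact hk ⟨z', hz'⟩
  obtain ⟨c, hc⟩ := CharacterModule.exists_character_apply_ne_zero_of_ne_zero hyB
  let c' : (A ⧸ B) →+ AddCircle (1 : ℚ) := c
  let χ : A →+ AddCircle (1 : ℚ) := c'.comp (QuotientAddGroup.mk' B)
  have hχy : χ y ≠ 0 := hc
  have hχB : ∀ a, p ^ (l + 1) • χ a = 0 := by
    intro a
    rw [← map_nsmul]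
    change c' (QuotientAddGroup.mk' B (p ^ (l + 1) • a)) = 0
    have : (QuotientAddGroup.mk' B) (p ^ (l + 1) • a) = 0 := by
      rw [QuotientAddGroup.mk'_apply, QuotientAddGroup.eq_zero_iff]
      exact ⟨a, rfl⟩
    rw [this, map_zero]
  have hχz : addOrderOf (χ z) = p ^ (l + 1) := by
    have : Fact p.Prime := ⟨hp⟩
    apply addOrderOf_eq_prime_pow
    · rw [← map_nsmul, hz]; exact hχy
    · exact hχB z
  have hmem : ∀ a, ∃ k : ℤ, k • χ z = χ a := fun a =>
    circle (pow_ne_zero _ hp.ne_zero) hχz (hχB a)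
  choose κ hκ using hmem
  have hiff : ∀ k : ℤ, k • χ z = 0 ↔ k • z = 0 := by
    intro k
    rw [← addOrderOf_dvd_iff_zsmul_eq_zero, ← addOrderOf_dvd_iff_zsmul_eq_zero, hχz, hzo]
  -- homomorphisms `a ↦ κ a • w`
  have hadd : ∀ w : A, (∀ k : ℤ, k • z = 0 → k • w = 0) → ∀ a b,
      κ (a + b) • w = κ a • w + κ b • w := by
    intro w hw a b
    have h1 : (κ (a + b) - (κ a + κ b)) • χ z = 0 := by
      rw [sub_smul, add_smul, hκ, hκ, hκ, map_add, sub_self]
    have h2 := hw _ ((hiff _).mp h1)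
    rw [sub_smul, add_smul, sub_eq_zero] at h2
    exact h2
  have hone : ∀ w : A, (∀ k : ℤ, k • z = 0 → k • w = 0) → κ z • w = w := by
    intro w hw
    have h1 : (κ z - 1) • χ z = 0 := by rw [sub_smul, one_smul, hκ, sub_self]
    have h2 := hw _ ((hiff _).mp h1)
    rw [sub_smul, one_smul, sub_eq_zero] at h2
    exact h2
  let mk : ∀ w : A, (∀ k : ℤ, k • z = 0 → k • w = 0) → AddMonoid.End A := fun w hw =>
    AddMonoidHom.mk' (fun a => κ a • w) (hadd w hw)
  have hmk : ∀ w hw a, mk w hw a = κ a • w := fun _ _ _ => rfl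
  let e : AddMonoid.End A := mk z fun _ h => h
  have hez : e z = z := hone z fun _ h => h
  have hee : ∀ a, e (e a) = e a := by
    intro a
    change e (κ a • z) = κ a • z
    rw [map_zsmul, hez]
  obtain ⟨a, b, hab⟩ := H.comm
  have haz : ∃ α : ℤ, a z = α • z := ⟨κ (a z), by
    have := H.idem' hee a z
    rw [hez] at this
    exact this.symm⟩
  have hbz : ∃ β : ℤ, b z = β • z := ⟨κ (b z), by
    have := H.idem' hee b z
    rw [hez] at this
    exact this.symm⟩
  obtain ⟨α, hα⟩ := haz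
  obtain ⟨β, hβ⟩ := hbz
  have hnz : n z = 0 := by
    rw [hab]
    change a (b z) - b (a z) = 0
    rw [hβ, hα, map_zsmul, map_zsmul, hα, hβ, smul_comm, sub_self]
  refine ⟨1 - e, ?_, ?_, ?_⟩
  · intro x
    change (x - e x) - e (x - e x) = x - e x
    rw [map_sub, hee, sub_self, sub_zero]
  · intro x
    change n (x - κ x • z) = n x
    rw [map_sub, map_zsmul, hnz, smul_zero, sub_zero]
  · intro x hx
    obtain ⟨w, hw⟩ : ∃ w, w = (1 - e) x := ⟨_, rfl⟩
    rw [← hw] at hx ⊢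
    have hew : e w = 0 := by
      rw [hw]
      change e (x - e x) = 0
      rw [map_sub, hee, sub_self]
    have hkw : ∀ k : ℤ, k • z = 0 → k • w = 0 := by
      intro k hk
      rw [← addOrderOf_dvd_iff_zsmul_eq_zero, hzo] at hk
      obtain ⟨q, rfl⟩ := hk
      have : ((p ^ (l + 1) : ℕ) : ℤ) * q = (p ^ l * q) * p := by push_cast; ring
      rw [this, mul_smul, natCast_zsmul, hx, smul_zero]
    have h1 := H.idem' hee (mk w hkw) z
    have h2 : mk w hkw z = w := hone w hkw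
    rw [hez, h2, hew] at h1
    exact h1.symm

/-- The `p`-torsion subgroup. -/
def Tp (A : Type u) [AddCommGroup A] (p : ℕ) : AddSubgroup A where
  carrier := {a | ∃ k : ℕ, p ^ k • a = 0}
  zero_mem' := ⟨0, by simp⟩
  add_mem' := by
    rintro a b ⟨k, hk⟩ ⟨l, hl⟩
    refine ⟨k + l, ?_⟩
    rw [smul_add, pow_add, mul_smul (p ^ k) (p ^ l) b, hl, mul_comm, mul_smul, hk]
    simp
  neg_mem' := by
    rintro a ⟨k, hk⟩
    exact ⟨k, by rw [smul_neg, hk, neg_zero]⟩

theorem Tp_div {p : ℕ} (hp : p.Prime) (h : ∀ y : A, p • y = 0 → ∀ k : ℕ, ∃ z, p ^ k • z = y) :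
    Div (Tp A p) := by
  have hpdiv : ∀ j : ℕ, ∀ a : A, p ^ j • a = 0 → ∃ b ∈ Tp A p, p • b = a := by
    intro j
    induction j with
    | zero =>
      intro a ha
      rw [pow_zero, one_smul] at ha
      exact ⟨0, zero_mem _, by rw [ha, smul_zero]⟩
    | succ j ih =>
      intro a ha
      obtain ⟨z, hz⟩ := h (p ^ j • a) (by rw [← mul_smul, ← pow_succ', ha]) (j + 1)
      have h1 : p ^ j • (a - p • z) = 0 := by
        rw [smul_sub, ← hz, ← mul_smul, ← pow_succ, sub_self]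
      obtain ⟨b, hb, hb'⟩ := ih _ h1
      refine ⟨b + z, add_mem hb ⟨j + 1 + 1, ?_⟩, ?_⟩
      · rw [pow_succ', mul_smul, hz, ← mul_smul, ← pow_succ', ha]
      · rw [smul_add, hb', sub_add_cancel]
  intro m hm
  induction m using Nat.strong_induction_on with
  | _ m ih =>
    intro d hd
    by_cases h1 : m = 1
    · exact ⟨d, hd, by rw [h1, one_smul]⟩
    obtain ⟨q, hq, hqm⟩ := Nat.exists_prime_and_dvd h1
    obtain ⟨m', rfl⟩ := hqm
    have hm' : m' ≠ 0 := by rintro rfl; simp at hm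
    have hlt : m' < q * m' := by
      have := hq.two_le
      nlinarith [Nat.pos_of_ne_zero hm']
    -- divide by `q`
    have hqd : ∃ b ∈ Tp A p, q • b = d := by
      obtain ⟨j, hj⟩ := hd
      by_cases hqp : q = p
      · rw [hqp]
        exact hpdiv j d hj
      · have hcop : IsCoprime (q : ℤ) ((p ^ j : ℕ) : ℤ) := by
          rw [Nat.isCoprime_iff_coprime]
          exact Nat.Coprime.pow_right _ ((Nat.coprime_primes hq hp).mpr hqp)
        obtain ⟨u, v, huv⟩ := hcop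
        refine ⟨u • d, ⟨j, by rw [smul_comm, hj, smul_zero]⟩, ?_⟩
        have h2 : (u * (q : ℤ) + v * ((p ^ j : ℕ) : ℤ)) • d = d := by rw [huv, one_smul]
        rw [add_smul, mul_smul v, natCast_zsmul, hj, smul_zero, add_zero, mul_comm, mul_smul,
          natCast_zsmul] at h2
        exact h2
    obtain ⟨b, hb, hbd⟩ := hqd
    obtain ⟨d', hd', hd''⟩ := ih m' hlt hm' b hb
    exact ⟨d', hd', by rw [mul_smul, hd'', hbd]⟩

/-- Case of a divisible torsion part. -/
theorem caseC (H : Hyp n) {p : ℕ} (hp : p.Prime)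
    (h : ∀ y : A, p • y = 0 → ∀ k : ℕ, ∃ z, p ^ k • z = y) :
    ∃ ε : AddMonoid.End A, (∀ a, ε (ε a) = ε a) ∧ (∀ a, n (ε a) = n a) ∧
      ∀ a, p • ε a = 0 → ε a = 0 := by
  have hD := Tp_div hp h
  obtain ⟨π, hπ⟩ := retraction hD
  let e : AddMonoid.End A := (Tp A p).subtype.comp π
  have he : ∀ a, e a = π a := fun a => rfl
  have hee : ∀ a, e (e a) = e a := fun a => hπ _ (π a).2
  have hnD : ∀ x ∈ Tp A p, n x = 0 := by
    intro x hx
    obtain ⟨k, hk⟩ := id hx
    obtain ⟨x', hx', hx''⟩ := hD (p ^ k) (pow_ne_zero _ hp.ne_zero) x hx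
    by_contra hne
    obtain ⟨i, hi⟩ := hx'
    have hvi : p ^ i • n x' = 0 := by rw [← map_nsmul, hi, map_zero]
    obtain ⟨l, _, hl⟩ := (Nat.dvd_prime_pow hp).mp (addOrderOf_dvd_of_nsmul_eq_zero hvi)
    have hkl : k < l := by
      by_contra hle
      push Not at hle
      apply hne
      rw [← hx'', map_nsmul]
      exact addOrderOf_dvd_iff_nsmul_eq_zero.mp (hl ▸ pow_dvd_pow p hle)
    obtain ⟨f, hf⟩ := ext_hom hD (n x') x hx (by
      intro m hm
      rw [← addOrderOf_dvd_iff_zsmul_eq_zero, hl] at hm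
      have h1 : ((p ^ k : ℕ) : ℤ) ∣ m := dvd_trans (by exact_mod_cast pow_dvd_pow p hkl.le) hm
      obtain ⟨q, rfl⟩ := h1
      rw [mul_comm, mul_smul, natCast_zsmul, hk, smul_zero])
    let F : AddMonoid.End A := (Tp A p).subtype.comp f
    have hF : F (n x') = x := hf
    apply hne
    rw [← hF, H.central' F, H.sq', map_zero]
  refine ⟨1 - e, ?_, ?_, ?_⟩
  · intro x
    change (x - e x) - e (x - e x) = x - e x
    rw [map_sub, hee, sub_self, sub_zero]
  · intro x
    change n (x - e x) = n x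
    rw [map_sub, he, hnD _ (π x).2, sub_zero]
  · intro x hx
    have h1 : (1 - e) x ∈ Tp A p := ⟨1, by rw [pow_one]; exact hx⟩
    have h2 : e ((1 - e) x) = (1 - e) x := hπ _ h1
    rw [← h2]
    change e (x - e x) = 0
    rw [map_sub, hee, sub_self]

theorem prime_case (H : Hyp n) {p : ℕ} (hp : p.Prime) :
    ∃ ε : AddMonoid.End A, (∀ a, ε (ε a) = ε a) ∧ (∀ a, n (ε a) = n a) ∧
      ∀ a, p • ε a = 0 → ε a = 0 := by
  by_cases h : ∀ y : A, p • y = 0 → ∀ k : ℕ, ∃ z, p ^ k • z = y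
  · exact caseC H hp h
  · push Not at h
    obtain ⟨y, hy, k, hk⟩ := h
    refine caseB H hp hy ?_ ⟨k, fun ⟨z, hz⟩ => hk z hz⟩
    rintro rfl
    exact hk 0 (smul_zero _)

/-- For every `m` there is an idempotent whose image has no `m`-torsion and through which `n`
factors. -/
theorem eps (H : Hyp n) (m : ℕ) (hm : m ≠ 0) :
    ∃ ε : AddMonoid.End A, (∀ a, ε (ε a) = ε a) ∧ (∀ a, n (ε a) = n a) ∧
      ∀ a, m • ε a = 0 → ε a = 0 := by
  induction m using Nat.strong_induction_on with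
  | _ m ih =>
    by_cases h1 : m = 1
    · exact ⟨1, fun _ => rfl, fun _ => rfl, fun a ha => by rwa [h1, one_smul] at ha⟩
    obtain ⟨q, hq, hqm⟩ := Nat.exists_prime_and_dvd h1
    obtain ⟨m', rfl⟩ := hqm
    have hm' : m' ≠ 0 := by rintro rfl; simp at hm
    have hlt : m' < q * m' := by
      have := hq.two_le
      nlinarith [Nat.pos_of_ne_zero hm']
    obtain ⟨ε₁, h11, h12, h13⟩ := prime_case H hq
    obtain ⟨ε₂, h21, h22, h23⟩ := ih m' hlt hm'
    have hc : ∀ a, ε₁ (ε₂ a) = ε₂ (ε₁ a) := fun a => H.idem' h11 ε₂ a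
    refine ⟨ε₁ * ε₂, ?_, ?_, ?_⟩
    · intro a
      change ε₁ (ε₂ (ε₁ (ε₂ a))) = ε₁ (ε₂ a)
      rw [← hc, h11, h21]
    · intro a
      change n (ε₁ (ε₂ a)) = n a
      rw [h12, h22]
    · intro a ha
      change (q * m') • ε₁ (ε₂ a) = 0 at ha
      change ε₁ (ε₂ a) = 0
      have ha' : q • ε₁ (m' • ε₂ a) = 0 := by rw [map_nsmul, ← mul_smul]; exact ha
      have h2 := h13 _ ha'
      rw [map_nsmul, hc] at h2
      rw [hc]
      exact h23 _ h2

/-- The image of `n` is torsion-free. -/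
theorem tf (H : Hyp n) (m : ℕ) (hm : m ≠ 0) (x : A) (h : m • n x = 0) : n x = 0 := by
  obtain ⟨ε, _, h2, h3⟩ := eps H m hm
  have h4 : n x = ε (n x) := (h2 x).symm.trans (H.central' ε x)
  rw [h4] at h ⊢
  exact h3 _ h

theorem tfz (H : Hyp n) (m : ℤ) (hm : m ≠ 0) (x : A) (h : m • n x = 0) : n x = 0 := by
  refine tf H m.natAbs (Int.natAbs_ne_zero.mpr hm) x ?_
  rcases Int.natAbs_eq m with h1 | h1
  · rw [h1, natCast_zsmul] at h
    exact h
  · rw [h1, neg_smul, neg_eq_zero, natCast_zsmul] at h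
    exact h

/-- `n` is divisible by every `m`. -/
theorem divides (H : Hyp n) (m : ℕ) (hm : m ≠ 0) :
    ∃ t : AddMonoid.End A, ∀ a, m • t a = n a := by
  obtain ⟨r, s, t, h1, h2⟩ := H.dist m hm
  refine ⟨t, fun a => ?_⟩
  have hmr : ∀ (x : AddMonoid.End A) (a : A), ((m : AddMonoid.End A) * x) a = m • x a := by
    intro x a
    rfl
  have h3 : m • n (r a) = 0 := by
    rw [← map_nsmul, ← hmr, h1]
    exact H.sq' _
  have h4 := tf H m hm _ h3
  have h5 := DFunLike.congr_fun h2 a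
  rw [hmr] at h5
  rw [← h5]
  change n (a - r a) = n a
  rw [map_sub, h4, sub_zero]

/-- The elements from which the divisible subgroup is built. -/
def S (n : AddMonoid.End A) (s : A) : Prop :=
  ∃ m : ℕ, m ≠ 0 ∧ ∃ t ε : AddMonoid.End A, (∀ a, m • t a = n a) ∧ (∀ a, ε (ε a) = ε a) ∧
    (∀ a, n (ε a) = n a) ∧ (∀ a, m • ε a = 0 → ε a = 0) ∧ (∀ a, ε (t a) = t a) ∧ ∃ a, s = t a

theorem S_start (x : A) : S n (n x) :=
  ⟨1, one_ne_zero, n, 1, fun a => one_smul _ _, fun _ => rfl, fun _ => rfl,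
    fun a ha => by rwa [one_smul] at ha, fun _ => rfl, x, rfl⟩

theorem S_div (H : Hyp n) {s : A} (hs : S n s) (k : ℕ) (hk : k ≠ 0) : ∃ s', S n s' ∧ k • s' = s := by
  obtain ⟨m, hm, t, ε, h1, h2, h3, h4, h5, a, rfl⟩ := hs
  obtain ⟨ε', h2', h3', h4'⟩ := eps H (k * m) (mul_ne_zero hk hm)
  obtain ⟨t', ht'⟩ := divides H (k * m) (mul_ne_zero hk hm)
  -- the new operator is `ε ε' t'`
  have hc : ∀ a, ε (ε' a) = ε' (ε a) := fun a => H.idem' h2 ε' a
  have hT : ∀ a, (k * m) • (ε (ε' (t' a))) = n a := by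
    intro a
    rw [← map_nsmul, ← map_nsmul, ht', ← H.central' ε', ← H.central' ε, h3, h3']
  have hkt : ∀ a, k • ε (ε' (t' a)) = t a := by
    intro a
    have h6 : m • ε (k • (ε' (t' a)) - t a) = 0 := by
      rw [← map_nsmul, smul_sub, h1, map_sub, ← mul_smul, mul_comm, map_nsmul, hT,
        ← H.central' ε, h3, sub_self]
    have h7 := h4 _ h6
    rw [map_sub, map_nsmul, h5, sub_eq_zero] at h7
    exact h7
  refine ⟨ε (ε' (t' a)), ⟨k * m, mul_ne_zero hk hm, ε * (ε' * t'), ε', hT, h2', h3', h4', ?_, a,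
    rfl⟩, hkt a⟩
  intro a
  change ε' (ε (ε' (t' a))) = ε (ε' (t' a))
  rw [← hc, h2']

theorem S_kill (H : Hyp n) {s : A} (hs : S n s) : n s = 0 := by
  obtain ⟨m, hm, t, ε, h1, h2, h3, h4, h5, a, rfl⟩ := hs
  apply tf H m hm
  rw [← map_nsmul, h1, H.sq']

/-- The conclusion. -/
theorem eq_zero (H : Hyp n) (x : A) : n x = 0 := by
  by_contra hx
  -- the sequence
  have hstep : ∀ (k : ℕ) (s : {s : A // S n s}), ∃ s' : {s : A // S n s},
      (k + 1).factorial • (s' : A) = s := by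
    intro k s
    obtain ⟨s', hs', h⟩ := S_div H s.2 (k + 1).factorial (Nat.factorial_ne_zero _)
    exact ⟨⟨s', hs'⟩, h⟩
  choose nxt hnxt using hstep
  obtain ⟨sq, hsq0, hsq'⟩ : ∃ sq : ℕ → {s : A // S n s}, (sq 0 : A) = n x ∧
      ∀ k, sq (k + 1) = nxt k (sq k) :=
    ⟨fun k => Nat.rec ⟨n x, S_start x⟩ (fun k s => nxt k s) k, rfl, fun k => rfl⟩
  have hsq : ∀ k, (k + 1).factorial • (sq (k + 1) : A) = sq k := fun k => by
    rw [hsq']; exact hnxt k (sq k)
  have hmono : ∀ k j, ∃ c : ℤ, (sq k : A) = c • (sq (k + j) : A) := by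
    intro k j
    induction j with
    | zero => exact ⟨1, by rw [one_smul]; rfl⟩
    | succ j ih =>
      obtain ⟨c, hc⟩ := ih
      refine ⟨c * ((k + j + 1).factorial : ℤ), ?_⟩
      rw [hc, mul_smul, natCast_zsmul]
      congr 1
      exact (hsq (k + j)).symm
  let D : AddSubgroup A :=
    { carrier := {d | ∃ k : ℕ, ∃ c : ℤ, d = c • (sq k : A)}
      zero_mem' := ⟨0, 0, by rw [zero_smul]⟩
      add_mem' := by
        rintro _ _ ⟨k, c, rfl⟩ ⟨l, c', rfl⟩
        obtain ⟨a, ha⟩ := hmono k l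
        obtain ⟨b, hb⟩ := hmono l k
        refine ⟨k + l, c * a + c' * b, ?_⟩
        rw [ha, hb, add_comm l k, ← mul_smul, ← mul_smul, add_smul]
      neg_mem' := by
        rintro _ ⟨k, c, rfl⟩
        exact ⟨k, -c, by rw [neg_smul]⟩ }
  have hD : Div D := by
    rintro m hm _ ⟨k, c, rfl⟩
    obtain ⟨a, ha⟩ := hmono k m
    have hdvd : m ∣ (k + m + 1).factorial := Nat.dvd_factorial (Nat.pos_of_ne_zero hm) (by omega)
    obtain ⟨q, hq⟩ := hdvd
    refine ⟨(c * a * q) • (sq (k + m + 1) : A), ⟨_, _, rfl⟩, ?_⟩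
    rw [ha, ← hsq (k + m), hq, ← natCast_zsmul, ← natCast_zsmul, ← mul_smul, ← mul_smul,
      ← mul_smul]
    congr 1
    push_cast
    ring
  have hkill : ∀ d ∈ D, n d = 0 := by
    rintro _ ⟨k, c, rfl⟩
    rw [map_zsmul, S_kill H (sq k).2, smul_zero]
  obtain ⟨π, hπ⟩ := retraction hD
  let e : AddMonoid.End A := D.subtype.comp π
  have he : ∀ a, e a = π a := fun a => rfl
  have hee : ∀ a, e (e a) = e a := fun a => hπ _ (π a).2
  have hx0 : n x ∈ D := ⟨0, 1, by rw [one_smul, hsq0]⟩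
  have htor : ∀ a, n (a - e a) = 0 := by
    intro a
    have : ∃ m : ℤ, m ≠ 0 ∧ m • (a - e a) = 0 := by
      by_contra hcon
      push Not at hcon
      obtain ⟨f, hf⟩ := ext_hom hD (a - e a) (n x) hx0 (by
        intro k hk
        by_cases hk0 : k = 0
        · rw [hk0, zero_smul]
        · exact absurd hk (hcon k hk0))
      let F : AddMonoid.End A := D.subtype.comp f
      have h1 := H.idem' hee F (a - e a)
      have h2 : F (a - e a) = n x := hf
      have h3 : e (a - e a) = 0 := by rw [map_sub, hee, sub_self]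
      rw [h2, h3, map_zero] at h1
      apply hx
      rw [← h1]
      exact (hπ _ hx0).symm
    obtain ⟨m, hm, h1⟩ := this
    apply tfz H m hm
    rw [← map_zsmul, h1, map_zero]
  apply hx
  have h1 := htor x
  rw [map_sub, he, hkill _ (π x).2, sub_zero] at h1
  exact h1

end Main

end Q10.EndDist
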