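import Mathlib

/-!
# The matrix ring `M_3(L(1,10))` over `ℤ/9`, with its trace

The component of degree `d` is realised by the operators `L (N p) (N q) A` with
`p - q = d` on the space of sequences.
-/

open DirectSum Finset

noncomputable section

namespace Q10.LeavittNine

/-- The base ring. -/
abbrev k : Type := ZMod 9

/-- The space of sequences. -/
abbrev V : Type := ℕ → k

/-- Operators on sequences. -/
abbrev Op : Type := Module.End k V

/-- The block-diagonal operator with block matrix `A` of size `P × Q`. -/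
def L (P Q : ℕ) (A : ℕ → ℕ → k) : Op where
  toFun f := fun m => ∑ b ∈ Finset.range Q, A (m % P) b * f (Q * (m / P) + b)
  map_add' f g := by
    funext m
    simp only [Pi.add_apply, mul_add, Finset.sum_add_distrib]
  map_smul' r f := by
    funext m
    simp only [Pi.smul_apply, smul_eq_mul, RingHom.id_apply, Finset.mul_sum]
    refine Finset.sum_congr rfl fun b _ => ?_
    ring

theorem L_apply (P Q : ℕ) (A : ℕ → ℕ → k) (f : V) (m : ℕ) :
    L P Q A f m = ∑ b ∈ Finset.range Q, A (m % P) b * f (Q * (m / P) + b) := rfl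

theorem L_congr {P Q : ℕ} (hP : 0 < P) {A B : ℕ → ℕ → k} (h : ∀ i < P, ∀ j < Q, A i j = B i j) :
    L P Q A = L P Q B := by
  apply LinearMap.ext
  intro f
  funext m
  rw [L_apply, L_apply]
  refine Finset.sum_congr rfl fun b hb => ?_
  rw [h _ (Nat.mod_lt _ hP) b (Finset.mem_range.mp hb)]

theorem L_add (P Q : ℕ) (A B : ℕ → ℕ → k) :
    L P Q A + L P Q B = L P Q (fun i j => A i j + B i j) := by
  apply LinearMap.ext
  intro f
  funext m
  rw [LinearMap.add_apply, Pi.add_apply, L_apply, L_apply, L_apply, ← Finset.sum_add_distrib]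
  refine Finset.sum_congr rfl fun b _ => ?_
  ring

theorem L_sum {ι : Type*} (s : Finset ι) (P Q : ℕ) (A : ι → ℕ → ℕ → k) :
    ∑ k ∈ s, L P Q (A k) = L P Q (fun i j => ∑ k ∈ s, A k i j) := by
  apply LinearMap.ext
  intro f
  funext m
  rw [LinearMap.sum_apply, Finset.sum_apply, L_apply]
  simp only [L_apply, Finset.sum_mul]
  rw [Finset.sum_comm]

theorem L_neg (P Q : ℕ) (A : ℕ → ℕ → k) :
    -L P Q A = L P Q (fun i j => -A i j) := by
  apply LinearMap.ext
  intro f
  funext m
  rw [LinearMap.neg_apply, Pi.neg_apply, L_apply, L_apply, ← Finset.sum_neg_distrib]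
  refine Finset.sum_congr rfl fun b _ => ?_
  ring

theorem L_zero (P Q : ℕ) : L P Q (fun _ _ => 0) = 0 := by
  apply LinearMap.ext
  intro f
  funext m
  rw [L_apply]
  simp

theorem L_one : L 1 1 (fun _ _ => 1) = 1 := by
  apply LinearMap.ext
  intro f
  funext m
  rw [L_apply]
  simp

theorem L_mul {P Q S : ℕ} (hQ : 0 < Q) (A B : ℕ → ℕ → k) :
    L P Q A * L Q S B = L P S (fun i j => ∑ k ∈ Finset.range Q, A i k * B k j) := by
  apply LinearMap.ext
  intro f
  funext m
  rw [Module.End.mul_apply, L_apply, L_apply]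
  simp only [Finset.sum_mul]
  rw [Finset.sum_comm]
  refine Finset.sum_congr rfl fun b hb => ?_
  rw [Finset.mem_range] at hb
  rw [L_apply, Nat.mul_add_mod, Nat.mod_eq_of_lt hb, Nat.mul_add_div hQ, Nat.div_eq_of_lt hb,
    add_zero, Finset.mul_sum]
  refine Finset.sum_congr rfl fun c _ => ?_
  ring

/-- Raising the level. -/
theorem L_raise {P Q s : ℕ} (hQ : 0 < Q) (hs : 0 < s) (A : ℕ → ℕ → k) :
    L P Q A = L (P * s) (Q * s) (fun i j => if j / Q = i / P then A (i % P) (j % Q) else 0) := by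
  apply LinearMap.ext
  intro f
  funext m
  rw [L_apply, L_apply]
  simp only [ite_mul, zero_mul]
  rw [← Finset.sum_filter]
  have h1 : m % (P * s) / P = m / P % s := Nat.mod_mul_right_div_self m P s
  have h2 : m % (P * s) % P = m % P := Nat.mod_mul_right_mod m P s
  have h3 : m / (P * s) = m / P / s := (Nat.div_div_eq_div_mul m P s).symm
  rw [h1, h2, h3]
  symm
  refine Finset.sum_nbij' (fun b => b % Q) (fun b => Q * (m / P % s) + b) ?_ ?_ ?_ ?_ ?_
  · intro b _
    exact Finset.mem_range.mpr (Nat.mod_lt _ hQ)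
  · intro b hb
    rw [Finset.mem_range] at hb
    rw [Finset.mem_filter, Finset.mem_range, Nat.mul_add_div hQ, Nat.div_eq_of_lt hb, add_zero]
    refine ⟨?_, rfl⟩
    have : m / P % s + 1 ≤ s := Nat.mod_lt _ hs
    calc Q * (m / P % s) + b < Q * (m / P % s) + Q := by omega
      _ = Q * (m / P % s + 1) := by ring
      _ ≤ Q * s := Nat.mul_le_mul_left _ this
  · intro b hb
    rw [Finset.mem_filter] at hb
    rw [← hb.2, Nat.div_add_mod]
  · intro b hb
    rw [Finset.mem_range] at hb
    rw [Nat.mul_add_mod, Nat.mod_eq_of_lt hb]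
  · intro b hb
    rw [Finset.mem_filter] at hb
    congr 2
    have e1 : Q * s * (m / P / s) + b = Q * (s * (m / P / s)) + b := by ring
    have e2 : m / P = s * (m / P / s) + m / P % s := (Nat.div_add_mod _ _).symm
    have e3 : b = Q * (b / Q) + b % Q := (Nat.div_add_mod _ _).symm
    rw [hb.2] at e3
    calc Q * s * (m / P / s) + b = Q * (s * (m / P / s)) + b := e1
      _ = Q * (s * (m / P / s)) + (Q * (m / P % s) + b % Q) := by rw [← e3]
      _ = Q * (s * (m / P / s) + m / P % s) + b % Q := by ring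
      _ = Q * (m / P) + b % Q := by rw [← e2]

/-- The sizes. -/
def N (p : ℕ) : ℕ := 3 * 10 ^ p

theorem N_pos (p : ℕ) : 0 < N p := by unfold N; positivity

theorem N_add (p s : ℕ) : N (p + s) = N p * 10 ^ s := by unfold N; ring

theorem raise_pow {p q : ℕ} (A : ℕ → ℕ → k) (s : ℕ) :
    ∃ B, L (N p) (N q) A = L (N (p + s)) (N (q + s)) B := by
  refine ⟨fun i j => if j / N q = i / N p then A (i % N p) (j % N q) else 0, ?_⟩
  rw [N_add, N_add]
  exact L_raise (N_pos _) (by positivity) A

/-- `T` is homogeneous of degree `d`. -/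
def Hom (d : ℤ) (T : Op) : Prop :=
  ∃ p q : ℕ, (p : ℤ) = q + d ∧ ∃ A, T = L (N p) (N q) A

theorem Hom.zero (d : ℤ) : Hom d 0 := by
  refine ⟨d.toNat, (-d).toNat, by omega, fun _ _ => 0, (L_zero _ _).symm⟩

/-- Two homogeneous operators of the same degree have a common level. -/
theorem common {d : ℤ} {T T' : Op} (h : Hom d T) (h' : Hom d T') :
    ∃ p q : ℕ, (p : ℤ) = q + d ∧ ∃ A B, T = L (N p) (N q) A ∧ T' = L (N p) (N q) B := by
  obtain ⟨p, q, hpq, A, rfl⟩ := h
  obtain ⟨p', q', hpq', A', rfl⟩ := h'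
  obtain ⟨B, hB⟩ := raise_pow (p := p) (q := q) A p'
  obtain ⟨B', hB'⟩ := raise_pow (p := p') (q := q') A' p
  have e1 : p' + p = p + p' := by omega
  have e2 : q' + p = q + p' := by omega
  rw [e1, e2] at hB'
  exact ⟨p + p', q + p', by push_cast; omega, B, B', hB, hB'⟩

theorem Hom.add {d : ℤ} {T T' : Op} (h : Hom d T) (h' : Hom d T') : Hom d (T + T') := by
  obtain ⟨p, q, hpq, A, B, rfl, rfl⟩ := common h h'
  exact ⟨p, q, hpq, _, L_add _ _ _ _⟩

theorem Hom.neg {d : ℤ} {T : Op} (h : Hom d T) : Hom d (-T) := by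
  obtain ⟨p, q, hpq, A, rfl⟩ := h
  exact ⟨p, q, hpq, _, L_neg _ _ _⟩

/-- Composable levels. -/
theorem common_mul {d e : ℤ} {T T' : Op} (h : Hom d T) (h' : Hom e T') :
    ∃ p q r : ℕ, (p : ℤ) = q + d ∧ (q : ℤ) = r + e ∧
      ∃ A B, T = L (N p) (N q) A ∧ T' = L (N q) (N r) B := by
  obtain ⟨p, q, hpq, A, rfl⟩ := h
  obtain ⟨p', q', hpq', A', rfl⟩ := h'
  obtain ⟨B, hB⟩ := raise_pow (p := p) (q := q) A p'
  obtain ⟨B', hB'⟩ := raise_pow (p := p') (q := q') A' q
  have e1 : p' + q = q + p' := by omega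
  rw [e1] at hB'
  exact ⟨p + p', q + p', q' + q, by push_cast; omega, by push_cast; omega, B, B', hB, hB'⟩

theorem Hom.mul {d e : ℤ} {T T' : Op} (h : Hom d T) (h' : Hom e T') : Hom (d + e) (T * T') := by
  obtain ⟨p, q, r, hpq, hqr, A, B, rfl, rfl⟩ := common_mul h h'
  exact ⟨p, r, by omega, _, L_mul (N_pos _) _ _⟩

theorem L_id {P : ℕ} (hP : 0 < P) : L P P (fun i j => if i = j then 1 else 0) = 1 := by
  apply LinearMap.ext
  intro f
  funext m
  rw [L_apply, Finset.sum_eq_single (m % P)]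
  · rw [if_pos rfl, one_mul, Nat.div_add_mod, Module.End.one_apply]
  · intro b _ hb; rw [if_neg (fun h => hb h.symm), zero_mul]
  · intro h
    exact absurd (Finset.mem_range.mpr (Nat.mod_lt _ hP)) h

theorem Hom.one : Hom 0 1 := ⟨0, 0, by simp, _, (L_id (N_pos 0)).symm⟩

/-- The homogeneous operators of degree `d`. -/
def Ed (d : ℤ) : AddSubgroup Op where
  carrier := {T | Hom d T}
  zero_mem' := Hom.zero d
  add_mem' h h' := h.add h'
  neg_mem' h := h.neg

theorem mem_Ed {d : ℤ} {T : Op} : T ∈ Ed d ↔ Hom d T := Iff.rfl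

instance : SetLike.GradedMonoid Ed where
  one_mem := Hom.one
  mul_mem _ _ _ _ h h' := Hom.mul h h'

/-! ### The trace -/

/-- The truncated trace. -/
def trp (p : ℕ) (T : Op) : k := ∑ i ∈ Finset.range (N p), T (Pi.single i 1) i

theorem entry {P : ℕ} (hP : 0 < P) (A : ℕ → ℕ → k) (i : ℕ) :
    L P P A (Pi.single i 1) i = A (i % P) (i % P) := by
  rw [L_apply, Finset.sum_eq_single (i % P)]
  · rw [Nat.div_add_mod, Pi.single_eq_same, mul_one]
  · intro b hb hne
    rw [Finset.mem_range] at hb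
    rw [Pi.single_eq_of_ne, mul_zero]
    intro h
    apply hne
    rw [← h, Nat.mul_add_mod, Nat.mod_eq_of_lt hb]
  · intro h
    exact absurd (Finset.mem_range.mpr (Nat.mod_lt _ hP)) h

theorem sum_mod {P s : ℕ} (hP : 0 < P) (f : ℕ → k) :
    ∑ i ∈ Finset.range (P * s), f (i % P) = s * ∑ i ∈ Finset.range P, f i := by
  induction s with
  | zero => simp
  | succ s ih =>
    rw [Nat.mul_succ, Finset.sum_range_add, ih, Nat.cast_succ, add_mul, one_mul]
    congr 1
    refine Finset.sum_congr rfl fun i hi => ?_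
    rw [Nat.mul_add_mod, Nat.mod_eq_of_lt (Finset.mem_range.mp hi)]

theorem ten_pow (s : ℕ) : ((10 ^ s : ℕ) : k) = 1 := by
  push_cast
  have : (10 : k) = 1 := by decide
  rw [this, one_pow]

theorem trp_eq {p : ℕ} (A : ℕ → ℕ → k) (s : ℕ) :
    trp (p + s) (L (N p) (N p) A) = ∑ i ∈ Finset.range (N p), A i i := by
  unfold trp
  simp only [entry (N_pos p)]
  rw [N_add, sum_mod (N_pos p) (fun i => A i i), ten_pow, one_mul]

open Classical in
/-- The trace of operators of degree zero. -/
def tr (T : Op) : k :=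
  if h : ∃ c, ∃ p₀, ∀ p ≥ p₀, trp p T = c then h.choose else 0

theorem tr_spec {T : Op} {c : k} {p₀ : ℕ} (h : ∀ p ≥ p₀, trp p T = c) : tr T = c := by
  classical
  have h' : ∃ c, ∃ p₀, ∀ p ≥ p₀, trp p T = c := ⟨c, p₀, h⟩
  rw [tr, dif_pos h']
  obtain ⟨p₁, h1⟩ := h'.choose_spec
  rw [← h1 (max p₀ p₁) (le_max_right _ _), h (max p₀ p₁) (le_max_left _ _)]

theorem tr_L {p : ℕ} (A : ℕ → ℕ → k) :
    tr (L (N p) (N p) A) = ∑ i ∈ Finset.range (N p), A i i := by
  refine tr_spec (p₀ := p) fun q hq => ?_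
  obtain ⟨s, rfl⟩ := Nat.exists_eq_add_of_le hq
  exact trp_eq A s

theorem tr_add {T S : Op} (hT : Hom 0 T) (hS : Hom 0 S) : tr (T + S) = tr T + tr S := by
  obtain ⟨p, q, hpq, A, B, rfl, rfl⟩ := common hT hS
  obtain rfl : p = q := by omega
  rw [L_add, tr_L, tr_L, tr_L, Finset.sum_add_distrib]

theorem tr_mul {d : ℤ} {T S : Op} (hT : Hom d T) (hS : Hom (-d) S) : tr (T * S) = tr (S * T) := by
  obtain ⟨p, q, r, hpq, hqr, A, B, rfl, rfl⟩ := common_mul hT hS
  obtain rfl : p = r := by omega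
  rw [L_mul (N_pos _), L_mul (N_pos _), tr_L, tr_L, Finset.sum_comm]
  refine Finset.sum_congr rfl fun i _ => Finset.sum_congr rfl fun j _ => mul_comm _ _

theorem tr_one : tr 1 = 3 := by
  rw [← L_id (N_pos 0), tr_L]
  decide

theorem tr_zero : tr 0 = 0 := by
  have := tr_add (Hom.zero 0) (Hom.zero 0)
  rw [add_zero] at this
  exact left_eq_add.mp this

/-- The ring. -/
abbrev C : Type := ⨁ d : ℤ, Ed d

/-- The trace on the ring. -/
def τ : C →+ k where
  toFun x := tr (x 0)
  map_zero' := tr_zero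
  map_add' x y := tr_add (x 0).2 (y 0).2

theorem τ_mul (x y : C) : τ (x * y) = τ (y * x) := by
  induction x using DirectSum.induction_on with
  | zero => rw [zero_mul, mul_zero]
  | add x x' hx hx' => rw [add_mul, mul_add, map_add, map_add, hx, hx']
  | of d T =>
    induction y using DirectSum.induction_on with
    | zero => rw [zero_mul, mul_zero]
    | add x x' hx hx' => rw [add_mul, mul_add, map_add, map_add, hx, hx']
    | of e S =>
      rw [DirectSum.of_mul_of, DirectSum.of_mul_of]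
      by_cases h : d + e = 0
      · have h' : e = -d := by omega
        subst h'
        have h1 : ∀ (a : ℤ) (ha : a = 0) (U : Ed a), τ (DirectSum.of (fun d => Ed d) a U) = tr U := by
          intro a ha U
          subst ha
          change tr ((DirectSum.of (fun d => Ed d) 0 U) 0) = _
          rw [DirectSum.of_eq_same]
        rw [h1 _ (by omega), h1 _ (by omega)]
        exact tr_mul T.2 S.2
      · have h1 : ∀ (a : ℤ) (ha : a ≠ 0) (U : Ed a), τ (DirectSum.of (fun d => Ed d) a U) = 0 := by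
          intro a ha U
          change tr ((DirectSum.of (fun d => Ed d) a U) 0) = _
          rw [DirectSum.of_eq_of_ne _ _ _ (Ne.symm ha)]
          exact tr_zero
        rw [h1 _ h, h1 _ (by omega)]

theorem τ_one : τ 1 = 3 := by
  change tr ((1 : C) 0) = 3
  have : ((1 : C) 0 : Op) = 1 := by
    rw [DirectSum.one_def, DirectSum.of_eq_same]
    rfl
  rw [this, tr_one]

theorem nine (x : C) : (9 : C) * x = 0 := by
  have h : (9 : C) * x = (9 : ℕ) • x := by
    rw [nsmul_eq_mul]
    rfl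
  rw [h]
  apply DFinsupp.ext
  intro d
  apply Subtype.ext
  change (9 : ℕ) • (x d : Op) = 0
  apply LinearMap.ext
  intro f
  funext i
  change (9 : ℕ) • ((x d : Op) f i) = 0
  rw [nsmul_eq_mul]
  have : ((9 : ℕ) : k) = 0 := by decide
  rw [this, zero_mul]

end Q10.LeavittNine
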