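import Mathlib
import Pool.Agent.Q10.LeavittNine

/-!
# Families of matrix-unit type and the algebras they present
-/

open Finset

noncomputable section

namespace Q10.Fam

/-- A family `X a`, `Y a` with `Y a * X b = δ_{ab} w`, `w = ∑ X d Y d` (sum over the loops `d`), and
`∑ X a Y a = 1`. -/
structure Fam (D ι : Type) [Fintype D] [DecidableEq D] [Fintype ι] [DecidableEq ι] (A : Type)
    [Ring A] where
  X : D ⊕ ι → A
  Y : D ⊕ ι → A
  YX : ∀ a b, Y a * X b = if a = b then ∑ d, X (Sum.inl d) * Y (Sum.inl d) else 0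
  XY : ∑ a, X a * Y a = 1

section

variable {D ι : Type} [Fintype D] [DecidableEq D] [Fintype ι] [DecidableEq ι] {A : Type} [Ring A]

/-- The idempotent of the family. -/
def Fam.w (F : Fam D ι A) : A := ∑ d, F.X (Sum.inl d) * F.Y (Sum.inl d)

theorem Fam.YX' (F : Fam D ι A) (a b : D ⊕ ι) : F.Y a * F.X b = if a = b then F.w else 0 := F.YX a b

theorem Fam.YX_same (F : Fam D ι A) (a : D ⊕ ι) : F.Y a * F.X a = F.w := by
  rw [F.YX', if_pos rfl]

theorem Fam.YX_ne (F : Fam D ι A) {a b : D ⊕ ι} (h : a ≠ b) : F.Y a * F.X b = 0 := by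
  rw [F.YX', if_neg h]

theorem Fam.X_w (F : Fam D ι A) (a : D ⊕ ι) : F.X a * F.w = F.X a := by
  have h : (∑ b, F.X b * F.Y b) * F.X a = F.X a := by rw [F.XY, one_mul]
  rw [Finset.sum_mul, Finset.sum_eq_single a] at h
  · rw [← F.YX_same a, ← mul_assoc]; exact h
  · intro b _ hb
    rw [mul_assoc, F.YX_ne hb, mul_zero]
  · intro h'
    exact absurd (Finset.mem_univ a) h'

theorem Fam.w_Y (F : Fam D ι A) (a : D ⊕ ι) : F.w * F.Y a = F.Y a := by
  have h : F.Y a * (∑ b, F.X b * F.Y b) = F.Y a := by rw [F.XY, mul_one]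
  rw [Finset.mul_sum, Finset.sum_eq_single a] at h
  · rw [← mul_assoc, F.YX_same a] at h; exact h
  · intro b _ hb
    rw [← mul_assoc, F.YX_ne (Ne.symm hb), zero_mul]
  · intro h'
    exact absurd (Finset.mem_univ a) h'

/-- Sums over the loops contract. -/
theorem Fam.sum_loops (F : Fam D ι A) (u v : D → A) :
    (∑ d, u d * F.Y (Sum.inl d)) * (∑ d, F.X (Sum.inl d) * v d) = ∑ d, u d * F.w * v d := by
  rw [Finset.sum_mul]
  refine Finset.sum_congr rfl fun d _ => ?_
  rw [Finset.mul_sum, Finset.sum_eq_single d]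
  · rw [← F.YX_same (Sum.inl d)]
    simp only [mul_assoc]
  · intro e _ he
    rw [mul_assoc, ← mul_assoc (F.Y _), F.YX_ne (fun h => he (Sum.inl.inj h).symm), zero_mul,
      mul_zero]
  · intro h; exact absurd (Finset.mem_univ d) h

variable {κ : Type} [Fintype κ] [DecidableEq κ]

/-- Refinement: one index is replaced by the loops. -/
def Fam.refine (F : Fam D (Option κ) A) : Fam D (κ ⊕ D) A where
  X := Sum.elim (fun d => F.X (Sum.inl d)) (Sum.elim (fun k => F.X (Sum.inr (some k)))
    (fun d => F.X (Sum.inr none) * F.X (Sum.inl d)))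
  Y := Sum.elim (fun d => F.Y (Sum.inl d)) (Sum.elim (fun k => F.Y (Sum.inr (some k)))
    (fun d => F.Y (Sum.inl d) * F.Y (Sum.inr none)))
  YX := by
    have hw : (∑ d, F.X (Sum.inl d) * F.Y (Sum.inl d)) = F.w := rfl
    have key : ∀ a b : D ⊕ Option κ, ∀ u v : A, u * F.Y a * (F.X b * v) =
        if a = b then u * F.w * v else 0 := by
      intro a b u v
      rw [mul_assoc, ← mul_assoc (F.Y a), F.YX']
      split_ifs
      · rw [mul_assoc]
      · rw [zero_mul, mul_zero]
    rintro (d | k | d) (e | l | e)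
    · simp only [Sum.elim_inl, hw, F.YX', Sum.inl.injEq]
    · simp only [Sum.elim_inl, Sum.elim_inr, F.YX']
      rw [if_neg (by simp), if_neg (by simp)]
    · simp only [Sum.elim_inl, Sum.elim_inr]
      rw [← mul_assoc, F.YX_ne (by simp), zero_mul, if_neg (by simp)]
    · simp only [Sum.elim_inl, Sum.elim_inr, F.YX']
      rw [if_neg (by simp), if_neg (by simp)]
    · simp only [Sum.elim_inl, Sum.elim_inr, F.YX', hw]
      by_cases h : k = l
      · rw [if_pos (by rw [h]), if_pos (by rw [h])]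
      · rw [if_neg (by simpa using h), if_neg (by simpa using h)]
    · simp only [Sum.elim_inl, Sum.elim_inr]
      rw [← mul_assoc, F.YX_ne (by simp), zero_mul, if_neg (by simp)]
    · simp only [Sum.elim_inl, Sum.elim_inr]
      rw [mul_assoc, F.YX_ne (by simp), mul_zero, if_neg (by simp)]
    · simp only [Sum.elim_inl, Sum.elim_inr]
      rw [mul_assoc, F.YX_ne (by simp), mul_zero, if_neg (by simp)]
    · simp only [Sum.elim_inl, Sum.elim_inr, hw]
      rw [key, if_pos rfl, mul_assoc]
      have h2 : F.w * F.X (Sum.inl e) = F.X (Sum.inl e) := by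
        rw [← hw, Finset.sum_mul, Finset.sum_eq_single e]
        · rw [mul_assoc, F.YX_same, F.X_w]
        · intro b _ hb
          rw [mul_assoc, F.YX_ne (fun h => hb (Sum.inl.inj h)), mul_zero]
        · intro h; exact absurd (Finset.mem_univ e) h
      rw [h2, F.YX']
      by_cases h : d = e
      · rw [if_pos (by rw [h]), if_pos (by rw [h])]
      · rw [if_neg (by simpa using h), if_neg (by simpa using h)]
  XY := by
    have h := F.XY
    rw [Fintype.sum_sum_type, Fintype.sum_option] at h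
    rw [Fintype.sum_sum_type, Fintype.sum_sum_type]
    simp only [Sum.elim_inl, Sum.elim_inr]
    rw [← h]
    have h1 : ∑ d, F.X (Sum.inr none) * F.X (Sum.inl d) * (F.Y (Sum.inl d) * F.Y (Sum.inr none)) =
        F.X (Sum.inr none) * F.Y (Sum.inr none) := by
      have h2 : ∀ d : D, F.X (Sum.inr none) * F.X (Sum.inl d) *
          (F.Y (Sum.inl d) * F.Y (Sum.inr none)) =
          F.X (Sum.inr none) * (F.X (Sum.inl d) * F.Y (Sum.inl d)) * F.Y (Sum.inr none) := by
        intro d
        simp only [mul_assoc]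
      rw [Finset.sum_congr rfl fun d _ => h2 d, ← Finset.sum_mul, ← Finset.mul_sum]
      change F.X _ * F.w * F.Y _ = _
      rw [F.X_w]
    rw [h1]
    abel

theorem Fam.refine_w (F : Fam D (Option κ) A) : F.refine.w = F.w := rfl

/-- Coarsening: inverse to refinement. -/
def Fam.coarsen (F : Fam D (κ ⊕ D) A) : Fam D (Option κ) A where
  X := Sum.elim (fun d => F.X (Sum.inl d)) (fun o => o.elim
    (∑ d, F.X (Sum.inr (Sum.inr d)) * F.Y (Sum.inl d)) (fun k => F.X (Sum.inr (Sum.inl k))))
  Y := Sum.elim (fun d => F.Y (Sum.inl d)) (fun o => o.elim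
    (∑ d, F.X (Sum.inl d) * F.Y (Sum.inr (Sum.inr d))) (fun k => F.Y (Sum.inr (Sum.inl k))))
  YX := by
    have hw : (∑ d, F.X (Sum.inl d) * F.Y (Sum.inl d)) = F.w := rfl
    rintro (d | (_ | k)) (e | (_ | l))
    · simp only [Sum.elim_inl, hw, F.YX', Sum.inl.injEq]
    · simp only [Sum.elim_inl, Sum.elim_inr, Option.elim_none]
      rw [if_neg (by simp), Finset.mul_sum]
      apply Finset.sum_eq_zero
      intro e _
      rw [← mul_assoc, F.YX_ne (by simp), zero_mul]
    · simp only [Sum.elim_inl, Sum.elim_inr, Option.elim_some]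
      rw [F.YX_ne (by simp), if_neg (by simp)]
    · simp only [Sum.elim_inl, Sum.elim_inr, Option.elim_none]
      rw [if_neg (by simp), Finset.sum_mul]
      apply Finset.sum_eq_zero
      intro d _
      rw [mul_assoc, F.YX_ne (by simp), mul_zero]
    · simp only [Sum.elim_inl, Sum.elim_inr, Option.elim_none, if_true, hw]
      rw [Finset.sum_mul]
      have h1 : ∀ d : D, F.X (Sum.inl d) * F.Y (Sum.inr (Sum.inr d)) *
          (∑ e, F.X (Sum.inr (Sum.inr e)) * F.Y (Sum.inl e)) = F.X (Sum.inl d) * F.Y (Sum.inl d) := by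
        intro d
        rw [Finset.mul_sum, Finset.sum_eq_single d]
        · rw [mul_assoc, ← mul_assoc (F.Y _), F.YX_same, ← mul_assoc, F.X_w]
        · intro e _ he
          rw [mul_assoc, ← mul_assoc (F.Y _), F.YX_ne (by simpa using Ne.symm he), zero_mul,
            mul_zero]
        · intro h; exact absurd (Finset.mem_univ d) h
      rw [Finset.sum_congr rfl fun d _ => h1 d]
      rfl
    · simp only [Sum.elim_inr, Option.elim_none, Option.elim_some]
      rw [if_neg (by simp), Finset.sum_mul]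
      apply Finset.sum_eq_zero
      intro d _
      rw [mul_assoc, F.YX_ne (by simp), mul_zero]
    · simp only [Sum.elim_inl, Sum.elim_inr, Option.elim_some]
      rw [F.YX_ne (by simp), if_neg (by simp)]
    · simp only [Sum.elim_inr, Option.elim_none, Option.elim_some]
      rw [if_neg (by simp), Finset.mul_sum]
      apply Finset.sum_eq_zero
      intro d _
      rw [← mul_assoc, F.YX_ne (by simp), zero_mul]
    · simp only [Sum.elim_inl, Sum.elim_inr, Option.elim_some, F.YX', hw]
      by_cases h : k = l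
      · rw [if_pos (by rw [h]), if_pos (by rw [h])]
      · rw [if_neg (by simpa using h), if_neg (by simpa using h)]
  XY := by
    have h := F.XY
    rw [Fintype.sum_sum_type, Fintype.sum_sum_type] at h
    rw [Fintype.sum_sum_type, Fintype.sum_option]
    simp only [Sum.elim_inl, Sum.elim_inr, Option.elim_none, Option.elim_some]
    rw [F.sum_loops, ← h]
    have h1 : ∀ d : D, F.X (Sum.inr (Sum.inr d)) * F.w * F.Y (Sum.inr (Sum.inr d)) =
        F.X (Sum.inr (Sum.inr d)) * F.Y (Sum.inr (Sum.inr d)) := fun d => by rw [F.X_w]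
    rw [Finset.sum_congr rfl fun d _ => h1 d]
    abel

variable {D' ι' : Type} [Fintype D'] [DecidableEq D'] [Fintype ι'] [DecidableEq ι']

/-- Reindexing. -/
def Fam.reindex (F : Fam D ι A) (e : D' ≃ D) (f : ι' ≃ ι) : Fam D' ι' A where
  X := fun a => F.X (Sum.map e f a)
  Y := fun a => F.Y (Sum.map e f a)
  YX a b := by
    have h1 : (∑ d, F.X (Sum.map e f (Sum.inl d)) * F.Y (Sum.map e f (Sum.inl d))) = F.w :=
      Equiv.sum_comp e (fun d => F.X (Sum.inl d) * F.Y (Sum.inl d))
    rw [F.YX', h1]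
    have h2 : Function.Injective (Sum.map e f) := Function.Injective.sumMap e.injective f.injective
    by_cases h : a = b
    · rw [if_pos (by rw [h]), if_pos h]
    · rw [if_neg (fun h' => h (h2 h')), if_neg h]
  XY := by
    rw [← F.XY]
    exact Equiv.sum_comp (Equiv.sumCongr e f) (fun a => F.X a * F.Y a)

theorem Fam.reindex_w (F : Fam D ι A) (e : D' ≃ D) (f : ι' ≃ ι) : (F.reindex e f).w = F.w :=
  Equiv.sum_comp e (fun d => F.X (Sum.inl d) * F.Y (Sum.inl d))

end

/-! ### Universal families -/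

section Rep

variable (K : Type) [Field K]

/-- The `K`-algebra `A` is presented by a family. -/
def Rep (D ι : Type) [Fintype D] [DecidableEq D] [Fintype ι] [DecidableEq ι] (A : Type)
    [Ring A] [Algebra K A] : Prop :=
  ∃ F : Fam D ι A,
    (∀ (B : Type) [Ring B] [Algebra K B] (G : Fam D ι B), ∃ φ : A →ₐ[K] B,
      (∀ a, φ (F.X a) = G.X a) ∧ ∀ a, φ (F.Y a) = G.Y a) ∧
    ∀ (B : Type) [Ring B] [Algebra K B] (φ ψ : A →ₐ[K] B), (∀ a, φ (F.X a) = ψ (F.X a)) →
      (∀ a, φ (F.Y a) = ψ (F.Y a)) → φ = ψ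

variable {K} {D ι : Type} [Fintype D] [DecidableEq D] [Fintype ι] [DecidableEq ι] {A : Type}
  [Ring A] [Algebra K A] {κ : Type} [Fintype κ] [DecidableEq κ]
  {D' ι' : Type} [Fintype D'] [DecidableEq D'] [Fintype ι'] [DecidableEq ι']

theorem Rep.equiv {B : Type} [Ring B] [Algebra K B] (hA : Rep K D ι A) (hB : Rep K D ι B) :
    Nonempty (A ≃ₐ[K] B) := by
  obtain ⟨F, hF1, hF2⟩ := hA
  obtain ⟨G, hG1, hG2⟩ := hB
  obtain ⟨φ, hφ1, hφ2⟩ := hF1 B G
  obtain ⟨ψ, hψ1, hψ2⟩ := hG1 A F
  refine ⟨AlgEquiv.ofAlgHom φ ψ ?_ ?_⟩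
  · apply hG2
    · intro a
      rw [AlgHom.comp_apply, hψ1, hφ1]; rfl
    · intro a
      rw [AlgHom.comp_apply, hψ2, hφ2]; rfl
  · apply hF2
    · intro a
      rw [AlgHom.comp_apply, hφ1, hψ1]; rfl
    · intro a
      rw [AlgHom.comp_apply, hφ2, hψ2]; rfl

theorem Rep.reindex (h : Rep K D ι A) (e : D' ≃ D) (f : ι' ≃ ι) : Rep K D' ι' A := by
  obtain ⟨F, hF1, hF2⟩ := h
  refine ⟨F.reindex e f, ?_, ?_⟩
  · intro B _ _ G
    obtain ⟨φ, h1, h2⟩ := hF1 B (G.reindex e.symm f.symm)
    refine ⟨φ, fun a => ?_, fun a => ?_⟩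
    · change φ (F.X (Sum.map e f a)) = _
      rw [h1]
      change G.X (Sum.map e.symm f.symm (Sum.map e f a)) = _
      congr 1
      rcases a with a | a <;> simp
    · change φ (F.Y (Sum.map e f a)) = _
      rw [h2]
      change G.Y (Sum.map e.symm f.symm (Sum.map e f a)) = _
      congr 1
      rcases a with a | a <;> simp
  · intro B _ _ φ ψ h1 h2
    have hsurj : Function.Surjective (Sum.map e f) :=
      Function.Surjective.sumMap e.surjective f.surjective
    apply hF2
    · intro a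
      obtain ⟨b, rfl⟩ := hsurj a
      exact h1 b
    · intro a
      obtain ⟨b, rfl⟩ := hsurj a
      exact h2 b

theorem Rep.refine (h : Rep K D (Option κ) A) : Rep K D (κ ⊕ D) A := by
  obtain ⟨F, hF1, hF2⟩ := h
  refine ⟨F.refine, ?_, ?_⟩
  · intro B _ _ G
    obtain ⟨φ, h1, h2⟩ := hF1 B G.coarsen
    have hd : ∀ d, φ (F.X (Sum.inl d)) = G.X (Sum.inl d) := fun d => h1 (Sum.inl d)
    have hd' : ∀ d, φ (F.Y (Sum.inl d)) = G.Y (Sum.inl d) := fun d => h2 (Sum.inl d)
    refine ⟨φ, ?_, ?_⟩
    · rintro (d | k | d)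
      · exact h1 (Sum.inl d)
      · exact h1 (Sum.inr (some k))
      · change φ (F.X (Sum.inr none) * F.X (Sum.inl d)) = _
        rw [map_mul, h1, hd]
        change (∑ e, G.X (Sum.inr (Sum.inr e)) * G.Y (Sum.inl e)) * G.X (Sum.inl d) = _
        rw [Finset.sum_mul, Finset.sum_eq_single d]
        · rw [mul_assoc, G.YX_same, G.X_w]
        · intro e _ he
          rw [mul_assoc, G.YX_ne (fun h => he (Sum.inl.inj h)), mul_zero]
        · intro h; exact absurd (Finset.mem_univ d) h
    · rintro (d | k | d)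
      · exact h2 (Sum.inl d)
      · exact h2 (Sum.inr (some k))
      · change φ (F.Y (Sum.inl d) * F.Y (Sum.inr none)) = _
        rw [map_mul, h2 (Sum.inr none), hd']
        change G.Y (Sum.inl d) * (∑ e, G.X (Sum.inl e) * G.Y (Sum.inr (Sum.inr e))) = _
        rw [Finset.mul_sum, Finset.sum_eq_single d]
        · rw [← mul_assoc, G.YX_same, G.w_Y]
        · intro e _ he
          rw [← mul_assoc, G.YX_ne (fun h => he (Sum.inl.inj h).symm), zero_mul]
        · intro h; exact absurd (Finset.mem_univ d) h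
  · intro B _ _ φ ψ h1 h2
    have e1 : ∀ d, φ (F.X (Sum.inl d)) = ψ (F.X (Sum.inl d)) := fun d => h1 (Sum.inl d)
    have e2 : ∀ d, φ (F.Y (Sum.inl d)) = ψ (F.Y (Sum.inl d)) := fun d => h2 (Sum.inl d)
    apply hF2
    · rintro (d | (_ | k))
      · exact h1 (Sum.inl d)
      · have h3 : F.X (Sum.inr none) =
            ∑ d, F.X (Sum.inr none) * F.X (Sum.inl d) * F.Y (Sum.inl d) := by
          simp only [mul_assoc]
          rw [← Finset.mul_sum]
          exact (F.X_w _).symm
        rw [h3, map_sum, map_sum]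
        refine Finset.sum_congr rfl fun d _ => ?_
        rw [map_mul, map_mul ψ, e2]
        congr 1
        exact h1 (Sum.inr (Sum.inr d))
      · exact h1 (Sum.inr (Sum.inl k))
    · rintro (d | (_ | k))
      · exact h2 (Sum.inl d)
      · have h3 : F.Y (Sum.inr none) =
            ∑ d, F.X (Sum.inl d) * (F.Y (Sum.inl d) * F.Y (Sum.inr none)) := by
          simp only [← mul_assoc]
          rw [← Finset.sum_mul]
          exact (F.w_Y _).symm
        rw [h3, map_sum, map_sum]
        refine Finset.sum_congr rfl fun d _ => ?_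
        rw [map_mul, map_mul ψ, e1]
        congr 1
        exact h2 (Sum.inr (Sum.inr d))
      · exact h2 (Sum.inr (Sum.inl k))

theorem Rep.step {N m : ℕ} (h : Rep K (Fin N) (Fin (m + 1)) A) :
    Rep K (Fin N) (Fin (m + N)) A := by
  have h1 : Rep K (Fin N) (Option (Fin m)) A := h.reindex (Equiv.refl _) (finSuccEquiv m).symm
  exact h1.refine.reindex (Equiv.refl _) finSumFinEquiv.symm

theorem Rep.steps {N m : ℕ} (h : Rep K (Fin (N + 1)) (Fin (m + 1)) A) (j : ℕ) :
    Rep K (Fin (N + 1)) (Fin (m + 1 + j * N)) A := by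
  induction j with
  | zero => rw [zero_mul, add_zero]; exact h
  | succ j ih =>
    have e1 : m + 1 + j * N = (m + j * N) + 1 := by ring
    rw [e1] at ih
    have h2 := ih.step
    have e2 : m + j * N + (N + 1) = m + 1 + (j + 1) * N := by ring
    rw [e2] at h2
    exact h2

end Rep

/-! ### Doubling -/

section Double

/-- `A ≅ A²`, in terms of matrices. -/
def Doubles (A : Type) [Ring A] : Prop :=
  ∃ a b : Fin 2 → A, (∀ i j, b i * a j = if i = j then 1 else 0) ∧ ∑ i, a i * b i = 1

theorem Fam.step {N m : ℕ} {A : Type} [Ring A] (F : Fam (Fin N) (Fin (m + 1)) A) :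
    ∃ G : Fam (Fin N) (Fin (m + N)) A, G.w = F.w := by
  refine ⟨((F.reindex (Equiv.refl _) (finSuccEquiv m).symm).refine).reindex (Equiv.refl _)
    finSumFinEquiv.symm, ?_⟩
  rw [Fam.reindex_w, Fam.refine_w, Fam.reindex_w]

theorem Fam.steps {N m : ℕ} {A : Type} [Ring A] (F : Fam (Fin (N + 1)) (Fin (m + 1)) A) (j : ℕ) :
    ∃ G : Fam (Fin (N + 1)) (Fin (m + 1 + j * N)) A, G.w = F.w := by
  induction j with
  | zero => rw [zero_mul, add_zero]; exact ⟨F, rfl⟩
  | succ j ih =>
    have e1 : m + 1 + j * N = (m + j * N) + 1 := by ring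
    rw [e1] at ih
    obtain ⟨G, hG⟩ := ih
    obtain ⟨G', hG'⟩ := G.step
    have e2 : m + j * N + (N + 1) = m + 1 + (j + 1) * N := by ring
    rw [← e2]
    exact ⟨G', hG'.trans hG⟩

theorem doubles_of {D ι D' ι' : Type} [Fintype D] [DecidableEq D] [Fintype ι] [DecidableEq ι]
    [Fintype D'] [DecidableEq D'] [Fintype ι'] [DecidableEq ι'] {A : Type} [Ring A]
    (F : Fam D ι A) (G : Fam D' ι' A) (hw : G.w = F.w) (e : Fin 2 × (D ⊕ ι) ≃ D' ⊕ ι') :
    Doubles A := by
  refine ⟨fun i => ∑ a, G.X (e (i, a)) * F.Y a, fun i => ∑ a, F.X a * G.Y (e (i, a)), ?_, ?_⟩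
  · intro i j
    have h1 : ∀ a, F.X a * G.Y (e (i, a)) * ∑ b, G.X (e (j, b)) * F.Y b =
        if i = j then F.X a * F.Y a else 0 := by
      intro a
      rw [Finset.mul_sum]
      by_cases hij : i = j
      · subst hij
        rw [if_pos rfl, Finset.sum_eq_single a]
        · rw [mul_assoc, ← mul_assoc (G.Y _), G.YX_same, hw, F.w_Y]
        · intro b _ hb
          rw [mul_assoc, ← mul_assoc (G.Y _), G.YX_ne, zero_mul, mul_zero]
          intro h
          exact hb (Prod.mk.inj (e.injective h)).2.symm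
        · intro h; exact absurd (Finset.mem_univ a) h
      · rw [if_neg hij]
        apply Finset.sum_eq_zero
        intro b _
        rw [mul_assoc, ← mul_assoc (G.Y _), G.YX_ne, zero_mul, mul_zero]
        intro h
        exact hij (Prod.mk.inj (e.injective h)).1
    rw [Finset.sum_mul, Finset.sum_congr rfl fun a _ => h1 a]
    by_cases hij : i = j
    · simp only [if_pos hij]
      exact F.XY
    · simp only [if_neg hij, Finset.sum_const_zero]
  · have h1 : ∀ i : Fin 2, (∑ a, G.X (e (i, a)) * F.Y a) * (∑ a, F.X a * G.Y (e (i, a))) =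
        ∑ a, G.X (e (i, a)) * G.Y (e (i, a)) := by
      intro i
      rw [Finset.sum_mul]
      refine Finset.sum_congr rfl fun a _ => ?_
      rw [Finset.mul_sum, Finset.sum_eq_single a]
      · rw [mul_assoc, ← mul_assoc (F.Y _), F.YX_same, ← hw, G.w_Y]
      · intro b _ hb
        rw [mul_assoc, ← mul_assoc (F.Y _), F.YX_ne (Ne.symm hb), zero_mul, mul_zero]
      · intro h; exact absurd (Finset.mem_univ a) h
    rw [Finset.sum_congr rfl fun i _ => h1 i]
    rw [← Fintype.sum_prod_type' (fun i a => G.X (e (i, a)) * G.Y (e (i, a)))]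
    exact (Equiv.sum_comp e (fun a => G.X a * G.Y a)).trans G.XY

end Double

end Q10.Fam
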