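import Mathlib

/-!
# The Leavitt algebra `L(1,2)` with its `ℤ`-grading

The component of degree `d` is realised by the operators `L (2^p) (2^q) A` with `p - q = d` on the
space of sequences.
-/

open DirectSum Finset

noncomputable section

namespace Q10.Leavitt

/-- The space of sequences. -/
abbrev V : Type := ℕ → ℚ

/-- Operators on sequences. -/
abbrev Op : Type := Module.End ℚ V

/-- The block-diagonal operator with block matrix `A` of size `P × Q`. -/
def L (P Q : ℕ) (A : ℕ → ℕ → ℚ) : Op where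
  toFun f := fun m => ∑ b ∈ Finset.range Q, A (m % P) b * f (Q * (m / P) + b)
  map_add' f g := by
    funext m
    simp only [Pi.add_apply, mul_add, Finset.sum_add_distrib]
  map_smul' r f := by
    funext m
    simp only [Pi.smul_apply, smul_eq_mul, RingHom.id_apply, Finset.mul_sum]
    refine Finset.sum_congr rfl fun b _ => ?_
    ring

theorem L_apply (P Q : ℕ) (A : ℕ → ℕ → ℚ) (f : V) (m : ℕ) :
    L P Q A f m = ∑ b ∈ Finset.range Q, A (m % P) b * f (Q * (m / P) + b) := rfl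

theorem L_congr {P Q : ℕ} (hP : 0 < P) {A B : ℕ → ℕ → ℚ} (h : ∀ i < P, ∀ j < Q, A i j = B i j) :
    L P Q A = L P Q B := by
  apply LinearMap.ext
  intro f
  funext m
  rw [L_apply, L_apply]
  refine Finset.sum_congr rfl fun b hb => ?_
  rw [h _ (Nat.mod_lt _ hP) b (Finset.mem_range.mp hb)]

theorem L_add (P Q : ℕ) (A B : ℕ → ℕ → ℚ) :
    L P Q A + L P Q B = L P Q (fun i j => A i j + B i j) := by
  apply LinearMap.ext
  intro f
  funext m
  rw [LinearMap.add_apply, Pi.add_apply, L_apply, L_apply, L_apply, ← Finset.sum_add_distrib]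
  refine Finset.sum_congr rfl fun b _ => ?_
  ring

theorem L_sum {ι : Type*} (s : Finset ι) (P Q : ℕ) (A : ι → ℕ → ℕ → ℚ) :
    ∑ k ∈ s, L P Q (A k) = L P Q (fun i j => ∑ k ∈ s, A k i j) := by
  apply LinearMap.ext
  intro f
  funext m
  rw [LinearMap.sum_apply, Finset.sum_apply, L_apply]
  simp only [L_apply, Finset.sum_mul]
  rw [Finset.sum_comm]

theorem L_neg (P Q : ℕ) (A : ℕ → ℕ → ℚ) :
    -L P Q A = L P Q (fun i j => -A i j) := by
  apply LinearMap.ext
  intro f
  funext m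
  rw [LinearMap.neg_apply, Pi.neg_apply, L_apply, L_apply, ← Finset.sum_neg_distrib]
  refine Finset.sum_congr rfl fun b _ => ?_
  ring

theorem L_zero (P Q : ℕ) : L P Q (fun _ _ => 0) = 0 := by
  apply LinearMap.ext
  intro f
  funext m
  rw [L_apply]
  simp

theorem L_one : L 1 1 (fun _ _ => 1) = 1 := by
  apply LinearMap.ext
  intro f
  funext m
  rw [L_apply]
  simp

theorem L_mul {P Q S : ℕ} (hQ : 0 < Q) (A B : ℕ → ℕ → ℚ) :
    L P Q A * L Q S B = L P S (fun i j => ∑ k ∈ Finset.range Q, A i k * B k j) := by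
  apply LinearMap.ext
  intro f
  funext m
  rw [Module.End.mul_apply, L_apply, L_apply]
  simp only [Finset.sum_mul]
  rw [Finset.sum_comm]
  refine Finset.sum_congr rfl fun b hb => ?_
  rw [Finset.mem_range] at hb
  rw [L_apply, Nat.mul_add_mod, Nat.mod_eq_of_lt hb, Nat.mul_add_div hQ, Nat.div_eq_of_lt hb,
    add_zero, Finset.mul_sum]
  refine Finset.sum_congr rfl fun c _ => ?_
  ring

/-- Raising the level. -/
theorem L_raise {P Q s : ℕ} (hQ : 0 < Q) (hs : 0 < s) (A : ℕ → ℕ → ℚ) :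
    L P Q A = L (P * s) (Q * s) (fun i j => if j / Q = i / P then A (i % P) (j % Q) else 0) := by
  apply LinearMap.ext
  intro f
  funext m
  rw [L_apply, L_apply]
  simp only [ite_mul, zero_mul]
  rw [← Finset.sum_filter]
  have h1 : m % (P * s) / P = m / P % s := Nat.mod_mul_right_div_self m P s
  have h2 : m % (P * s) % P = m % P := Nat.mod_mul_right_mod m P s
  have h3 : m / (P * s) = m / P / s := (Nat.div_div_eq_div_mul m P s).symm
  rw [h1, h2, h3]
  symm
  refine Finset.sum_nbij' (fun b => b % Q) (fun b => Q * (m / P % s) + b) ?_ ?_ ?_ ?_ ?_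
  · intro b _
    exact Finset.mem_range.mpr (Nat.mod_lt _ hQ)
  · intro b hb
    rw [Finset.mem_range] at hb
    rw [Finset.mem_filter, Finset.mem_range, Nat.mul_add_div hQ, Nat.div_eq_of_lt hb, add_zero]
    refine ⟨?_, rfl⟩
    have : m / P % s + 1 ≤ s := Nat.mod_lt _ hs
    calc Q * (m / P % s) + b < Q * (m / P % s) + Q := by omega
      _ = Q * (m / P % s + 1) := by ring
      _ ≤ Q * s := Nat.mul_le_mul_left _ this
  · intro b hb
    rw [Finset.mem_filter] at hb
    rw [← hb.2, Nat.div_add_mod]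
  · intro b hb
    rw [Finset.mem_range] at hb
    rw [Nat.mul_add_mod, Nat.mod_eq_of_lt hb]
  · intro b hb
    rw [Finset.mem_filter] at hb
    congr 2
    have e1 : Q * s * (m / P / s) + b = Q * (s * (m / P / s)) + b := by ring
    have e2 : m / P = s * (m / P / s) + m / P % s := (Nat.div_add_mod _ _).symm
    have e3 : b = Q * (b / Q) + b % Q := (Nat.div_add_mod _ _).symm
    rw [hb.2] at e3
    calc Q * s * (m / P / s) + b = Q * (s * (m / P / s)) + b := e1
      _ = Q * (s * (m / P / s)) + (Q * (m / P % s) + b % Q) := by rw [← e3]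
      _ = Q * (s * (m / P / s) + m / P % s) + b % Q := by ring
      _ = Q * (m / P) + b % Q := by rw [← e2]

theorem raise_pow {p q : ℕ} (A : ℕ → ℕ → ℚ) (s : ℕ) :
    ∃ B, L (2 ^ p) (2 ^ q) A = L (2 ^ (p + s)) (2 ^ (q + s)) B := by
  refine ⟨fun i j => if j / 2 ^ q = i / 2 ^ p then A (i % 2 ^ p) (j % 2 ^ q) else 0, ?_⟩
  rw [pow_add, pow_add]
  exact L_raise (by positivity) (by positivity) A

/-- `T` is homogeneous of degree `d`. -/
def Hom (d : ℤ) (T : Op) : Prop :=
  ∃ p q : ℕ, (p : ℤ) = q + d ∧ ∃ A, T = L (2 ^ p) (2 ^ q) A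

theorem Hom.zero (d : ℤ) : Hom d 0 := by
  refine ⟨d.toNat, (-d).toNat, by omega, fun _ _ => 0, (L_zero _ _).symm⟩

/-- Two homogeneous operators of the same degree have a common level. -/
theorem common {d : ℤ} {T T' : Op} (h : Hom d T) (h' : Hom d T') :
    ∃ p q : ℕ, (p : ℤ) = q + d ∧ ∃ A B, T = L (2 ^ p) (2 ^ q) A ∧ T' = L (2 ^ p) (2 ^ q) B := by
  obtain ⟨p, q, hpq, A, rfl⟩ := h
  obtain ⟨p', q', hpq', A', rfl⟩ := h'
  obtain ⟨B, hB⟩ := raise_pow (p := p) (q := q) A p'
  obtain ⟨B', hB'⟩ := raise_pow (p := p') (q := q') A' p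
  have e1 : p' + p = p + p' := by omega
  have e2 : q' + p = q + p' := by omega
  rw [e1, e2] at hB'
  exact ⟨p + p', q + p', by push_cast; omega, B, B', hB, hB'⟩

theorem Hom.add {d : ℤ} {T T' : Op} (h : Hom d T) (h' : Hom d T') : Hom d (T + T') := by
  obtain ⟨p, q, hpq, A, B, rfl, rfl⟩ := common h h'
  exact ⟨p, q, hpq, _, L_add _ _ _ _⟩

theorem Hom.neg {d : ℤ} {T : Op} (h : Hom d T) : Hom d (-T) := by
  obtain ⟨p, q, hpq, A, rfl⟩ := h
  exact ⟨p, q, hpq, _, L_neg _ _ _⟩

/-- Composable levels. -/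
theorem common_mul {d e : ℤ} {T T' : Op} (h : Hom d T) (h' : Hom e T') :
    ∃ p q r : ℕ, (p : ℤ) = q + d ∧ (q : ℤ) = r + e ∧
      ∃ A B, T = L (2 ^ p) (2 ^ q) A ∧ T' = L (2 ^ q) (2 ^ r) B := by
  obtain ⟨p, q, hpq, A, rfl⟩ := h
  obtain ⟨p', q', hpq', A', rfl⟩ := h'
  obtain ⟨B, hB⟩ := raise_pow (p := p) (q := q) A p'
  obtain ⟨B', hB'⟩ := raise_pow (p := p') (q := q') A' q
  have e1 : p' + q = q + p' := by omega
  rw [e1] at hB'
  exact ⟨p + p', q + p', q' + q, by push_cast; omega, by push_cast; omega, B, B', hB, hB'⟩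

theorem Hom.mul {d e : ℤ} {T T' : Op} (h : Hom d T) (h' : Hom e T') : Hom (d + e) (T * T') := by
  obtain ⟨p, q, r, hpq, hqr, A, B, rfl, rfl⟩ := common_mul h h'
  exact ⟨p, r, by omega, _, L_mul (by positivity) _ _⟩

theorem Hom.one : Hom 0 1 := ⟨0, 0, by simp, _, L_one.symm⟩

/-- The homogeneous operators of degree `d`. -/
def Ed (d : ℤ) : AddSubgroup Op where
  carrier := {T | Hom d T}
  zero_mem' := Hom.zero d
  add_mem' h h' := h.add h'
  neg_mem' h := h.neg

theorem mem_Ed {d : ℤ} {T : Op} : T ∈ Ed d ↔ Hom d T := Iff.rfl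

instance : SetLike.GradedMonoid Ed where
  one_mem := Hom.one
  mul_mem _ _ _ _ h h' := Hom.mul h h'

/-- Entries: if `L P Q A ≠ 0` then some relevant entry of `A` is nonzero. -/
theorem exists_entry {P Q : ℕ} (hP : 0 < P) {A : ℕ → ℕ → ℚ} (h : L P Q A ≠ 0) :
    ∃ a < P, ∃ b < Q, A a b ≠ 0 := by
  by_contra hcon
  push Not at hcon
  apply h
  rw [← L_zero P Q]
  exact L_congr hP hcon

/-- Sandwiching with matrix units. -/
theorem sandwich {P Q : ℕ} {A : ℕ → ℕ → ℚ} {a b a' b' : ℕ} (ha : a < P) (hb : b < Q) (hP : 0 < P)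
    (c : ℚ) :
    L P P (fun i j => if i = a' ∧ j = a then c else 0) * L P Q A *
      L Q Q (fun i j => if i = b ∧ j = b' then 1 else 0) =
    L P Q (fun i j => if i = a' ∧ j = b' then c * A a b else 0) := by
  rw [L_mul hP, L_mul (by omega)]
  congr 1
  funext i j
  have e1 : ∀ k : ℕ, (∑ l ∈ Finset.range P, (if i = a' ∧ l = a then c else 0) * A l k) =
      if i = a' then c * A a k else 0 := by
    intro k
    by_cases hi : i = a'
    · simp only [hi, true_and, if_true]
      rw [Finset.sum_eq_single a]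
      · simp
      · intro l _ hl; simp [hl]
      · intro h; exact absurd (Finset.mem_range.mpr ha) h
    · simp [hi]
  simp only [e1]
  by_cases hi : i = a'
  · by_cases hj : j = b'
    · simp only [hi, hj, if_true, and_true]
      rw [Finset.sum_eq_single b]
      · simp
      · intro l _ hl; simp [hl]
      · intro h; exact absurd (Finset.mem_range.mpr hb) h
    · simp [hj]
  · simp [hi]

/-- Simplicity of the components as bimodules. -/
theorem simple {d : ℤ} {T S : Op} (hT : Hom d T) (hT0 : T ≠ 0) (hS : Hom d S) :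
    S ∈ AddSubgroup.closure {X : Op | ∃ u v : Op, Hom 0 u ∧ Hom 0 v ∧ X = u * T * v} := by
  obtain ⟨p, q, hpq, A, B, rfl, rfl⟩ := common hT hS
  obtain ⟨a, ha, b, hb, hab⟩ := exists_entry (by positivity) hT0
  have key : L (2 ^ p) (2 ^ q) B = ∑ a' ∈ Finset.range (2 ^ p), ∑ b' ∈ Finset.range (2 ^ q),
      L (2 ^ p) (2 ^ q) (fun i j => if i = a' ∧ j = b' then (B a' b' / A a b) * A a b else 0) := by
    simp only [L_sum]
    apply L_congr (by positivity)
    intro i hi j hj
    rw [Finset.sum_eq_single i, Finset.sum_eq_single j]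
    · simp [div_mul_cancel₀ _ hab]
    · intro k _ hk; simp [hk.symm]
    · intro h; exact absurd (Finset.mem_range.mpr hj) h
    · intro k _ hk
      apply Finset.sum_eq_zero
      intro l _
      simp [hk.symm]
    · intro h; exact absurd (Finset.mem_range.mpr hi) h
  rw [key]
  refine AddSubgroup.sum_mem _ fun a' _ => AddSubgroup.sum_mem _ fun b' _ => ?_
  apply AddSubgroup.subset_closure
  refine ⟨L (2 ^ p) (2 ^ p) (fun i j => if i = a' ∧ j = a then B a' b' / A a b else 0),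
    L (2 ^ q) (2 ^ q) (fun i j => if i = b ∧ j = b' then 1 else 0), ⟨p, p, by simp, _, rfl⟩,
    ⟨q, q, by simp, _, rfl⟩, ?_⟩
  exact (sandwich ha hb (by positivity) _).symm

/-- The idempotent projecting to the residue class of `c` modulo `2 ^ m`. -/
def D (m c : ℕ) : Op := L (2 ^ m) (2 ^ m) (fun i j => if i = j ∧ i = c then 1 else 0)

theorem D_hom (m c : ℕ) : Hom 0 (D m c) := ⟨m, m, by simp, _, rfl⟩

theorem D_apply (m c : ℕ) (f : V) (i : ℕ) : D m c f i = if i % 2 ^ m = c then f i else 0 := by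
  rw [D, L_apply]
  by_cases hc : i % 2 ^ m = c
  · rw [if_pos hc, Finset.sum_eq_single (i % 2 ^ m)]
    · rw [if_pos ⟨rfl, hc⟩, one_mul, Nat.div_add_mod]
    · intro b _ hb
      rw [if_neg (fun h => hb h.1.symm), zero_mul]
    · intro h
      exact absurd (Finset.mem_range.mpr (Nat.mod_lt _ (by positivity))) h
  · rw [if_neg hc]
    apply Finset.sum_eq_zero
    intro b _
    rw [if_neg (fun h => hc h.2), zero_mul]

/-- Arithmetic behind the separation of degrees. -/
theorem arith {p q p' q' a b : ℕ} (ha : a < 2 ^ p) (hb : b < 2 ^ q) (hne : p + q' ≠ q + p')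
    {i j M : ℕ} (hM : 2 ^ p * 2 ^ (p' + q') + a < 2 ^ M) (hM' : 2 ^ q * 2 ^ (p' + q') + b < 2 ^ M)
    (hi : i % 2 ^ (M + p' + q') = 2 ^ p * 2 ^ (p' + q') + a)
    (hj : j % 2 ^ (M + p' + q') = 2 ^ q * 2 ^ (p' + q') + b) : i / 2 ^ p' ≠ j / 2 ^ q' := by
  intro hij
  have hi' : (2 ^ p * 2 ^ (p' + q') + a) / 2 ^ p' = (i / 2 ^ p') % 2 ^ (M + q') := by
    rw [← hi, show M + p' + q' = p' + (M + q') by ring, pow_add, Nat.mod_mul_right_div_self]
  have hj' : (2 ^ q * 2 ^ (p' + q') + b) / 2 ^ q' = (j / 2 ^ q') % 2 ^ (M + p') := by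
    rw [← hj, show M + p' + q' = q' + (M + p') by ring, pow_add, Nat.mod_mul_right_div_self]
  have e1 : (2 ^ p * 2 ^ (p' + q') + a) / 2 ^ p' = (2 ^ q * 2 ^ (p' + q') + b) / 2 ^ q' := by
    have h1 : (2 ^ p * 2 ^ (p' + q') + a) / 2 ^ p' % 2 ^ M =
        (2 ^ q * 2 ^ (p' + q') + b) / 2 ^ q' % 2 ^ M := by
      rw [hi', hj', hij, pow_add, pow_add, Nat.mod_mul_right_mod, Nat.mod_mul_right_mod]
    rwa [Nat.mod_eq_of_lt (lt_of_le_of_lt (Nat.div_le_self _ _) hM),
      Nat.mod_eq_of_lt (lt_of_le_of_lt (Nat.div_le_self _ _) hM')] at h1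
  have a1 : 2 ^ (p + q') ≤ (2 ^ p * 2 ^ (p' + q') + a) / 2 ^ p' := by
    rw [Nat.le_div_iff_mul_le (by positivity)]
    calc 2 ^ (p + q') * 2 ^ p' = 2 ^ p * 2 ^ (p' + q') := by ring
      _ ≤ _ := Nat.le_add_right _ _
  have a2 : (2 ^ p * 2 ^ (p' + q') + a) / 2 ^ p' < 2 ^ (p + q' + 1) := by
    rw [Nat.div_lt_iff_lt_mul (by positivity)]
    calc 2 ^ p * 2 ^ (p' + q') + a < 2 ^ p * 2 ^ (p' + q') + 2 ^ p := by omega
      _ ≤ 2 ^ p * 2 ^ (p' + q') + 2 ^ p * 2 ^ (p' + q') := by
          apply Nat.add_le_add_left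
          exact Nat.le_mul_of_pos_right _ (by positivity)
      _ = 2 ^ (p + q' + 1) * 2 ^ p' := by ring
  have b1 : 2 ^ (q + p') ≤ (2 ^ q * 2 ^ (p' + q') + b) / 2 ^ q' := by
    rw [Nat.le_div_iff_mul_le (by positivity)]
    calc 2 ^ (q + p') * 2 ^ q' = 2 ^ q * 2 ^ (p' + q') := by ring
      _ ≤ _ := Nat.le_add_right _ _
  have b2 : (2 ^ q * 2 ^ (p' + q') + b) / 2 ^ q' < 2 ^ (q + p' + 1) := by
    rw [Nat.div_lt_iff_lt_mul (by positivity)]
    calc 2 ^ q * 2 ^ (p' + q') + b < 2 ^ q * 2 ^ (p' + q') + 2 ^ q := by omega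
      _ ≤ 2 ^ q * 2 ^ (p' + q') + 2 ^ q * 2 ^ (p' + q') := by
          apply Nat.add_le_add_left
          exact Nat.le_mul_of_pos_right _ (by positivity)
      _ = 2 ^ (q + p' + 1) * 2 ^ q' := by ring
  rw [e1] at a1 a2
  have c1 : p + q' < q + p' + 1 :=
    (Nat.pow_lt_pow_iff_right (by norm_num : 1 < 2)).mp (lt_of_le_of_lt a1 b2)
  have c2 : q + p' < p + q' + 1 :=
    (Nat.pow_lt_pow_iff_right (by norm_num : 1 < 2)).mp (lt_of_le_of_lt b1 a2)
  omega

/-- Separation of two degrees. -/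
theorem sep {d e : ℤ} (hde : d ≠ e) {T S : Op} (hT : Hom d T) (hT0 : T ≠ 0) (hS : Hom e S) :
    ∃ u v : Op, Hom 0 u ∧ Hom 0 v ∧ u * T * v ≠ 0 ∧ u * S * v = 0 := by
  obtain ⟨p, q, hpq, A, rfl⟩ := hT
  obtain ⟨p', q', hpq', B, rfl⟩ := hS
  obtain ⟨a, ha, b, hb, hab⟩ := exists_entry (by positivity) hT0
  obtain ⟨i0, hi0⟩ : ∃ i0, i0 = 2 ^ p * 2 ^ (p' + q') + a := ⟨_, rfl⟩
  obtain ⟨j0, hj0⟩ : ∃ j0, j0 = 2 ^ q * 2 ^ (p' + q') + b := ⟨_, rfl⟩
  obtain ⟨M, hM⟩ : ∃ M, M = i0 + j0 := ⟨_, rfl⟩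
  have hM1 : i0 < 2 ^ M := lt_of_le_of_lt (by omega : i0 ≤ M) Nat.lt_two_pow_self
  have hM2 : j0 < 2 ^ M := lt_of_le_of_lt (by omega : j0 ≤ M) Nat.lt_two_pow_self
  obtain ⟨m, hm⟩ : ∃ m, m = M + p' + q' := ⟨_, rfl⟩
  have hMm : 2 ^ M ≤ 2 ^ m := Nat.pow_le_pow_right (by norm_num) (by omega)
  refine ⟨D m i0, D m j0, D_hom _ _, D_hom _ _, ?_, ?_⟩
  · intro h
    have h1 := congrFun (LinearMap.congr_fun h (Pi.single j0 1)) i0
    rw [Module.End.mul_apply, Module.End.mul_apply, D_apply,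
      if_pos (Nat.mod_eq_of_lt (lt_of_lt_of_le hM1 hMm)), L_apply, LinearMap.zero_apply,
      Pi.zero_apply] at h1
    have hdiv : i0 / 2 ^ p = 2 ^ (p' + q') := by
      rw [hi0, Nat.mul_add_div (by positivity), Nat.div_eq_of_lt ha, add_zero]
    have hmod : i0 % 2 ^ p = a := by
      rw [hi0, Nat.mul_add_mod, Nat.mod_eq_of_lt ha]
    rw [Finset.sum_eq_single b] at h1
    · rw [hdiv, hmod, ← hj0, D_apply, if_pos (Nat.mod_eq_of_lt (lt_of_lt_of_le hM2 hMm)),
        Pi.single_eq_same, mul_one] at h1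
      exact hab h1
    · intro c _ hc
      rw [hdiv, D_apply]
      have : 2 ^ q * 2 ^ (p' + q') + c ≠ j0 := by omega
      rw [Pi.single_eq_of_ne this]
      simp
    · intro h
      exact absurd (Finset.mem_range.mpr hb) h
  · apply LinearMap.ext
    intro f
    funext i
    rw [Module.End.mul_apply, Module.End.mul_apply, D_apply]
    split_ifs with hi
    · rw [L_apply]
      apply Finset.sum_eq_zero
      intro c hc
      rw [Finset.mem_range] at hc
      rw [D_apply]
      split_ifs with hj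
      · exfalso
        refine arith (p := p) (q := q) (p' := p') (q' := q') ha hb (by omega) (M := M) ?_ ?_
          (i := i) (j := 2 ^ q' * (i / 2 ^ p') + c) ?_ ?_ ?_
        · rw [← hi0]; exact hM1
        · rw [← hj0]; exact hM2
        · rw [← hi0, ← hm]; exact hi
        · rw [← hj0, ← hm]; exact hj
        · rw [Nat.mul_add_div (by positivity), Nat.div_eq_of_lt hc, add_zero]
      · rw [mul_zero]
    · rfl

/-- Separation of one degree from finitely many others. -/
theorem sep_finset {d : ℤ} (K : Finset ℤ) (hK : d ∉ K) {T : Op} (hT : Hom d T) (hT0 : T ≠ 0)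
    (S : ℤ → Op) (hS : ∀ k, Hom k (S k)) :
    ∃ u v : Op, Hom 0 u ∧ Hom 0 v ∧ u * T * v ≠ 0 ∧ ∀ k ∈ K, u * S k * v = 0 := by
  induction K using Finset.induction_on with
  | empty => exact ⟨1, 1, Hom.one, Hom.one, by simpa using hT0, by simp⟩
  | insert k K hk ih =>
    rw [Finset.mem_insert, not_or] at hK
    obtain ⟨u, v, hu, hv, h1, h2⟩ := ih hK.2
    have hT' : Hom d (u * T * v) := by
      have := (hu.mul hT).mul hv
      rwa [zero_add, add_zero] at this
    have hS' : Hom k (u * S k * v) := by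
      have := (hu.mul (hS k)).mul hv
      rwa [zero_add, add_zero] at this
    obtain ⟨u', v', hu', hv', h1', h2'⟩ := sep hK.1 hT' h1 hS'
    refine ⟨u' * u, v * v', by simpa using hu'.mul hu, by simpa using hv.mul hv', ?_, ?_⟩
    · intro h
      apply h1'
      rw [← h]
      noncomm_ring
    · intro l hl
      rw [Finset.mem_insert] at hl
      rcases hl with rfl | hl
      · calc u' * u * S l * (v * v') = u' * (u * S l * v) * v' := by noncomm_ring
          _ = 0 := h2'
      · calc u' * u * S l * (v * v') = u' * (u * S l * v) * v' := by noncomm_ring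
          _ = 0 := by rw [h2 l hl]; simp

/-- Mutually inverse homogeneous operators have degree zero. -/
theorem unit_degree {d : ℤ} {T S : Op} (hT : Hom d T) (hS : Hom (-d) S) (h1 : T * S = 1)
    (h2 : S * T = 1) : d = 0 := by
  obtain ⟨p, q, r, hpq, hqr, A, B, rfl, rfl⟩ := common_mul hT hS
  have hpr : p = r := by omega
  subst hpr
  have ent : ∀ {P Q : ℕ} (A B : ℕ → ℕ → ℚ), 0 < P → 0 < Q → L P Q A * L Q P B = 1 →
      ∀ i < P, ∀ j < P, (∑ k ∈ Finset.range Q, A i k * B k j) = if i = j then 1 else 0 := by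
    intro P Q A B hP hQ h i hi j hj
    rw [L_mul hQ] at h
    have h3 := congrFun (LinearMap.congr_fun h (Pi.single j 1)) i
    rw [L_apply, Module.End.one_apply, Nat.mod_eq_of_lt hi, Nat.div_eq_of_lt hi, mul_zero,
      Finset.sum_eq_single j] at h3
    · rw [zero_add, Pi.single_eq_same, mul_one] at h3
      rw [h3, Pi.single_apply]
    · intro b _ hb
      rw [zero_add, Pi.single_eq_of_ne hb, mul_zero]
    · intro h; exact absurd (Finset.mem_range.mpr hj) h
  have e1 := ent A B (by positivity) (by positivity) h1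
  have e2 := ent B A (by positivity) (by positivity) h2
  let A' : Matrix (Fin (2 ^ p)) (Fin (2 ^ q)) ℚ := fun i j => A i j
  let B' : Matrix (Fin (2 ^ q)) (Fin (2 ^ p)) ℚ := fun i j => B i j
  have m1 : A' * B' = 1 := by
    ext i j
    rw [Matrix.mul_apply, Matrix.one_apply]
    have := e1 i i.2 j j.2
    rw [Finset.sum_range (fun k => A i k * B k j)] at this
    rw [show (∑ k, A' i k * B' k j) = ∑ k : Fin (2 ^ q), A i k * B k j from rfl, this]
    simp [Fin.ext_iff]
  have m2 : B' * A' = 1 := by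
    ext i j
    rw [Matrix.mul_apply, Matrix.one_apply]
    have := e2 i i.2 j j.2
    rw [Finset.sum_range (fun k => B i k * A k j)] at this
    rw [show (∑ k, B' i k * A' k j) = ∑ k : Fin (2 ^ p), B i k * A k j from rfl, this]
    simp [Fin.ext_iff]
  have := Matrix.square_of_invertible A' B' m1 m2
  rw [Fintype.card_fin, Fintype.card_fin] at this
  have := Nat.pow_right_injective (le_refl 2) this
  omega

/-- The element one as a sum of products, degrees `d` and `-d`. -/
theorem one_mem (d : ℤ) :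
    (1 : Op) ∈ AddSubgroup.closure {X : Op | ∃ u v : Op, Hom d u ∧ Hom (-d) v ∧ X = u * v} := by
  obtain ⟨p, hp⟩ : ∃ p, p = d.toNat := ⟨_, rfl⟩
  obtain ⟨q, hq⟩ : ∃ q, q = (-d).toNat := ⟨_, rfl⟩
  have h1 : (1 : Op) = L (2 ^ p) (2 ^ p) (fun i j => if i = j then 1 else 0) := by
    apply LinearMap.ext
    intro f
    funext m
    rw [L_apply, Finset.sum_eq_single (m % 2 ^ p)]
    · rw [if_pos rfl, one_mul, Nat.div_add_mod, Module.End.one_apply]
    · intro b _ hb; rw [if_neg (fun h => hb h.symm), zero_mul]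
    · intro h
      exact absurd (Finset.mem_range.mpr (Nat.mod_lt _ (by positivity))) h
  have key : (1 : Op) = ∑ a ∈ Finset.range (2 ^ p),
      L (2 ^ p) (2 ^ q) (fun i j => if i = a ∧ j = 0 then 1 else 0) *
        L (2 ^ q) (2 ^ p) (fun i j => if i = 0 ∧ j = a then 1 else 0) := by
    rw [h1]
    simp only [L_mul (show 0 < 2 ^ q by positivity)]
    rw [L_sum]
    apply L_congr (by positivity)
    intro i hi j hj
    rw [Finset.sum_eq_single i]
    · rw [Finset.sum_eq_single 0]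
      · simp [eq_comm]
      · intro b _ hb; simp [hb]
      · intro h; exact absurd (Finset.mem_range.mpr (by positivity)) h
    · intro b _ hb
      apply Finset.sum_eq_zero
      intro c _
      simp [hb.symm]
    · intro h; exact absurd (Finset.mem_range.mpr hi) h
  rw [key]
  refine AddSubgroup.sum_mem _ fun a _ => ?_
  apply AddSubgroup.subset_closure
  exact ⟨_, _, ⟨p, q, by omega, _, rfl⟩, ⟨q, p, by omega, _, rfl⟩, rfl⟩

/-- The Leavitt algebra. -/
abbrev R : Type := ⨁ d : ℤ, Ed d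

end Q10.Leavitt
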