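import Mathlib

/-!
# A ring that is weakly Lee 2-coherent but not Lee 2-coherent

The path-algebra-like ring `T` with basis `e₁, e₂, e₃, e₄, z, n, a, b, y, w` and `p i` (`i : ℕ`).
-/

noncomputable section

namespace Q10.LeeRing

/-- The carrier: coordinates with respect to the basis. -/
@[ext]
structure T where
  r1 : ℚ
  r2 : ℚ
  r3 : ℚ
  r4 : ℚ
  z : ℚ
  n : ℚ
  a : ℚ
  b : ℚ
  y : ℚ
  w : ℚ
  p : ℕ →₀ ℚ

namespace T

instance : Zero T := ⟨⟨0, 0, 0, 0, 0, 0, 0, 0, 0, 0, 0⟩⟩
instance : One T := ⟨⟨1, 1, 1, 1, 0, 0, 0, 0, 0, 0, 0⟩⟩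
instance : Add T := ⟨fun s t => ⟨s.r1 + t.r1, s.r2 + t.r2, s.r3 + t.r3, s.r4 + t.r4, s.z + t.z,
  s.n + t.n, s.a + t.a, s.b + t.b, s.y + t.y, s.w + t.w, s.p + t.p⟩⟩
instance : Neg T := ⟨fun s => ⟨-s.r1, -s.r2, -s.r3, -s.r4, -s.z, -s.n, -s.a, -s.b, -s.y, -s.w,
  -s.p⟩⟩
instance : Mul T := ⟨fun s t => ⟨s.r1 * t.r1, s.r2 * t.r2, s.r3 * t.r3, s.r4 * t.r4,
  s.r4 * t.z + s.z * t.r4, s.r4 * t.n + s.n * t.r3 + s.y * t.a + s.w * t.b,
  s.r1 * t.a + s.a * t.r3, s.r1 * t.b + s.b * t.r3, s.r4 * t.y + s.y * t.r1,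
  s.r4 * t.w + s.w * t.r1, s.r2 • t.p + t.r1 • s.p⟩⟩
instance : SMul ℚ T := ⟨fun c s => ⟨c * s.r1, c * s.r2, c * s.r3, c * s.r4, c * s.z, c * s.n,
  c * s.a, c * s.b, c * s.y, c * s.w, c • s.p⟩⟩

@[simp] theorem zero_r1 : (0 : T).r1 = 0 := rfl
@[simp] theorem zero_r2 : (0 : T).r2 = 0 := rfl
@[simp] theorem zero_r3 : (0 : T).r3 = 0 := rfl
@[simp] theorem zero_r4 : (0 : T).r4 = 0 := rfl
@[simp] theorem zero_z : (0 : T).z = 0 := rfl
@[simp] theorem zero_n : (0 : T).n = 0 := rfl
@[simp] theorem zero_a : (0 : T).a = 0 := rfl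
@[simp] theorem zero_b : (0 : T).b = 0 := rfl
@[simp] theorem zero_y : (0 : T).y = 0 := rfl
@[simp] theorem zero_w : (0 : T).w = 0 := rfl
@[simp] theorem zero_p : (0 : T).p = 0 := rfl
@[simp] theorem one_r1 : (1 : T).r1 = 1 := rfl
@[simp] theorem one_r2 : (1 : T).r2 = 1 := rfl
@[simp] theorem one_r3 : (1 : T).r3 = 1 := rfl
@[simp] theorem one_r4 : (1 : T).r4 = 1 := rfl
@[simp] theorem one_z : (1 : T).z = 0 := rfl
@[simp] theorem one_n : (1 : T).n = 0 := rfl
@[simp] theorem one_a : (1 : T).a = 0 := rfl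
@[simp] theorem one_b : (1 : T).b = 0 := rfl
@[simp] theorem one_y : (1 : T).y = 0 := rfl
@[simp] theorem one_w : (1 : T).w = 0 := rfl
@[simp] theorem one_p : (1 : T).p = 0 := rfl
@[simp] theorem add_r1 (s t : T) : (s + t).r1 = s.r1 + t.r1 := rfl
@[simp] theorem add_r2 (s t : T) : (s + t).r2 = s.r2 + t.r2 := rfl
@[simp] theorem add_r3 (s t : T) : (s + t).r3 = s.r3 + t.r3 := rfl
@[simp] theorem add_r4 (s t : T) : (s + t).r4 = s.r4 + t.r4 := rfl
@[simp] theorem add_z (s t : T) : (s + t).z = s.z + t.z := rfl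
@[simp] theorem add_n (s t : T) : (s + t).n = s.n + t.n := rfl
@[simp] theorem add_a (s t : T) : (s + t).a = s.a + t.a := rfl
@[simp] theorem add_b (s t : T) : (s + t).b = s.b + t.b := rfl
@[simp] theorem add_y (s t : T) : (s + t).y = s.y + t.y := rfl
@[simp] theorem add_w (s t : T) : (s + t).w = s.w + t.w := rfl
@[simp] theorem add_p (s t : T) : (s + t).p = s.p + t.p := rfl
@[simp] theorem neg_r1 (s : T) : (-s).r1 = -s.r1 := rfl
@[simp] theorem neg_r2 (s : T) : (-s).r2 = -s.r2 := rfl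
@[simp] theorem neg_r3 (s : T) : (-s).r3 = -s.r3 := rfl
@[simp] theorem neg_r4 (s : T) : (-s).r4 = -s.r4 := rfl
@[simp] theorem neg_z (s : T) : (-s).z = -s.z := rfl
@[simp] theorem neg_n (s : T) : (-s).n = -s.n := rfl
@[simp] theorem neg_a (s : T) : (-s).a = -s.a := rfl
@[simp] theorem neg_b (s : T) : (-s).b = -s.b := rfl
@[simp] theorem neg_y (s : T) : (-s).y = -s.y := rfl
@[simp] theorem neg_w (s : T) : (-s).w = -s.w := rfl
@[simp] theorem neg_p (s : T) : (-s).p = -s.p := rfl
@[simp] theorem mul_r1 (s t : T) : (s * t).r1 = s.r1 * t.r1 := rfl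
@[simp] theorem mul_r2 (s t : T) : (s * t).r2 = s.r2 * t.r2 := rfl
@[simp] theorem mul_r3 (s t : T) : (s * t).r3 = s.r3 * t.r3 := rfl
@[simp] theorem mul_r4 (s t : T) : (s * t).r4 = s.r4 * t.r4 := rfl
@[simp] theorem mul_z (s t : T) : (s * t).z = s.r4 * t.z + s.z * t.r4 := rfl
@[simp] theorem mul_n (s t : T) :
    (s * t).n = s.r4 * t.n + s.n * t.r3 + s.y * t.a + s.w * t.b := rfl
@[simp] theorem mul_a (s t : T) : (s * t).a = s.r1 * t.a + s.a * t.r3 := rfl
@[simp] theorem mul_b (s t : T) : (s * t).b = s.r1 * t.b + s.b * t.r3 := rfl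
@[simp] theorem mul_y (s t : T) : (s * t).y = s.r4 * t.y + s.y * t.r1 := rfl
@[simp] theorem mul_w (s t : T) : (s * t).w = s.r4 * t.w + s.w * t.r1 := rfl
@[simp] theorem mul_p (s t : T) : (s * t).p = s.r2 • t.p + t.r1 • s.p := rfl
@[simp] theorem smul_r1 (c : ℚ) (s : T) : (c • s).r1 = c * s.r1 := rfl
@[simp] theorem smul_r2 (c : ℚ) (s : T) : (c • s).r2 = c * s.r2 := rfl
@[simp] theorem smul_r3 (c : ℚ) (s : T) : (c • s).r3 = c * s.r3 := rfl
@[simp] theorem smul_r4 (c : ℚ) (s : T) : (c • s).r4 = c * s.r4 := rfl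
@[simp] theorem smul_z (c : ℚ) (s : T) : (c • s).z = c * s.z := rfl
@[simp] theorem smul_n (c : ℚ) (s : T) : (c • s).n = c * s.n := rfl
@[simp] theorem smul_a (c : ℚ) (s : T) : (c • s).a = c * s.a := rfl
@[simp] theorem smul_b (c : ℚ) (s : T) : (c • s).b = c * s.b := rfl
@[simp] theorem smul_y (c : ℚ) (s : T) : (c • s).y = c * s.y := rfl
@[simp] theorem smul_w (c : ℚ) (s : T) : (c • s).w = c * s.w := rfl
@[simp] theorem smul_p (c : ℚ) (s : T) : (c • s).p = c • s.p := rfl

instance : AddCommGroup T where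
  add_assoc s t u := by ext <;> simp <;> ring
  zero_add s := by ext <;> simp
  add_zero s := by ext <;> simp
  neg_add_cancel s := by ext <;> simp
  add_comm s t := by ext <;> simp <;> ring
  nsmul := nsmulRec
  zsmul := zsmulRec

instance : Module ℚ T where
  one_smul s := by ext <;> simp
  mul_smul c d s := by ext <;> simp <;> ring
  smul_zero c := by ext <;> simp
  smul_add c s t := by ext <;> simp <;> ring
  add_smul c d s := by ext <;> simp <;> ring
  zero_smul s := by ext <;> simp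

instance : Ring T where
  __ := (inferInstance : AddCommGroup T)
  left_distrib s t u := by ext <;> simp <;> ring
  right_distrib s t u := by ext <;> simp <;> ring
  zero_mul s := by ext <;> simp
  mul_zero s := by ext <;> simp
  mul_assoc s t u := by ext <;> simp <;> ring
  one_mul s := by ext <;> simp
  mul_one s := by ext <;> simp

instance : Algebra ℚ T := Algebra.ofModule
  (fun c s t => by ext <;> simp <;> ring)
  (fun c s t => by ext <;> simp <;> ring)

@[simp] theorem sub_r1 (s t : T) : (s - t).r1 = s.r1 - t.r1 := by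
  rw [sub_eq_add_neg, add_r1, neg_r1, ← sub_eq_add_neg]
@[simp] theorem sub_r2 (s t : T) : (s - t).r2 = s.r2 - t.r2 := by
  rw [sub_eq_add_neg, add_r2, neg_r2, ← sub_eq_add_neg]
@[simp] theorem sub_r3 (s t : T) : (s - t).r3 = s.r3 - t.r3 := by
  rw [sub_eq_add_neg, add_r3, neg_r3, ← sub_eq_add_neg]
@[simp] theorem sub_r4 (s t : T) : (s - t).r4 = s.r4 - t.r4 := by
  rw [sub_eq_add_neg, add_r4, neg_r4, ← sub_eq_add_neg]
@[simp] theorem sub_z (s t : T) : (s - t).z = s.z - t.z := by
  rw [sub_eq_add_neg, add_z, neg_z, ← sub_eq_add_neg]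
@[simp] theorem sub_n (s t : T) : (s - t).n = s.n - t.n := by
  rw [sub_eq_add_neg, add_n, neg_n, ← sub_eq_add_neg]
@[simp] theorem sub_a (s t : T) : (s - t).a = s.a - t.a := by
  rw [sub_eq_add_neg, add_a, neg_a, ← sub_eq_add_neg]
@[simp] theorem sub_b (s t : T) : (s - t).b = s.b - t.b := by
  rw [sub_eq_add_neg, add_b, neg_b, ← sub_eq_add_neg]
@[simp] theorem sub_y (s t : T) : (s - t).y = s.y - t.y := by
  rw [sub_eq_add_neg, add_y, neg_y, ← sub_eq_add_neg]
@[simp] theorem sub_w (s t : T) : (s - t).w = s.w - t.w := by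
  rw [sub_eq_add_neg, add_w, neg_w, ← sub_eq_add_neg]
@[simp] theorem sub_p (s t : T) : (s - t).p = s.p - t.p := by
  rw [sub_eq_add_neg, add_p, neg_p, ← sub_eq_add_neg]

/-- The coordinate `r1` as an additive map. -/
def r1Hom : T →+ ℚ where
  toFun := r1
  map_zero' := rfl
  map_add' _ _ := rfl

/-- The coordinate `y` as an additive map. -/
def yHom : T →+ ℚ where
  toFun := y
  map_zero' := rfl
  map_add' _ _ := rfl

/-- The coordinate `w` as an additive map. -/
def wHom : T →+ ℚ where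
  toFun := w
  map_zero' := rfl
  map_add' _ _ := rfl

/-- The coordinate `p` as an additive map. -/
def pHom : T →+ (ℕ →₀ ℚ) where
  toFun := p
  map_zero' := rfl
  map_add' _ _ := rfl

/-- The idempotent `c e₁`. -/
def e1 (c : ℚ) : T := ⟨c, 0, 0, 0, 0, 0, 0, 0, 0, 0, 0⟩

end T

open T

section General

variable {R : Type} [Ring R]

/-- Schanuel's lemma, in the form needed. -/
theorem schanuel {M P P' : Type} [AddCommGroup M] [Module R M] [AddCommGroup P] [Module R P]
    [AddCommGroup P'] [Module R P'] (f : P →ₗ[R] M) (hf : Function.Surjective f)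
    (hP : Module.Projective R P) (hK : Module.Projective R (LinearMap.ker f))
    (f' : P' →ₗ[R] M) (hf' : Function.Surjective f') (hP' : Module.Projective R P') :
    Module.Projective R (LinearMap.ker f') := by
  obtain ⟨g, hg⟩ := Module.projective_lifting_property f f' hf
  obtain ⟨h, hh⟩ := Module.projective_lifting_property f' f hf'
  have hg' : ∀ x, f (g x) = f' x := fun x => LinearMap.congr_fun hg x
  have hh' : ∀ x, f' (h x) = f x := fun x => LinearMap.congr_fun hh x
  let i : LinearMap.ker f' →ₗ[R] LinearMap.ker f × P' :=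
    LinearMap.prod (LinearMap.codRestrict (LinearMap.ker f)
      (-(g.comp (LinearMap.ker f').subtype)) (fun x => by
        rw [LinearMap.mem_ker, LinearMap.neg_apply, map_neg, LinearMap.comp_apply, hg',
          Submodule.subtype_apply, LinearMap.mem_ker.mp x.2, neg_zero]))
      (LinearMap.ker f').subtype
  let r : LinearMap.ker f × P' →ₗ[R] LinearMap.ker f' :=
    LinearMap.codRestrict (LinearMap.ker f')
      (LinearMap.snd R (LinearMap.ker f) P' -
        h.comp ((LinearMap.ker f).subtype.comp (LinearMap.fst R (LinearMap.ker f) P') +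
          g.comp (LinearMap.snd R (LinearMap.ker f) P'))) (fun x => by
        rw [LinearMap.mem_ker, LinearMap.sub_apply, map_sub, LinearMap.comp_apply, hh',
          LinearMap.add_apply, map_add, LinearMap.comp_apply, LinearMap.comp_apply, hg',
          Submodule.subtype_apply, LinearMap.mem_ker.mp (LinearMap.fst R _ _ x).2, zero_add,
          sub_self])
  refine Module.Projective.of_split i r ?_
  apply LinearMap.ext
  intro x
  apply Subtype.ext
  change (x : P') - h (-(g x) + g x) = x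
  rw [neg_add_cancel, map_zero, sub_zero]

end General

/-- The key computation: if the second syzygy were projective, then a coordinate would vanish. -/
theorem key (I : Submodule T T) (h3 : ∀ x ∈ I, x.r3 = 0) (v : I)
    (K : Submodule T (I →₀ T))
    (hKI : ∀ x : I →₀ T, x ∈ K ↔ x.sum (fun k c => c * (k : T)) = 0)
    (hK : Module.Projective T K) (hv : e1 1 * (v : T) = v)
    (c d : ℚ) (hcd : (⟨0, 0, 0, 0, 0, 0, 0, 0, c, d, 0⟩ : T) * v = 0) :
    (c ≠ 0 → (v : T) = 0) ∧ (d ≠ 0 → (v : T) = 0) := by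
  classical
  obtain ⟨s, hs⟩ := hK.out
  obtain ⟨yc, hyc⟩ : ∃ yc : T, yc = ⟨0, 0, 0, 0, 0, 0, 0, 0, c, d, 0⟩ := ⟨_, rfl⟩
  have hx : Finsupp.single v yc ∈ K := by
    rw [hKI, Finsupp.sum_single_index (by rw [zero_mul]), hyc, hcd]
  obtain ⟨x, hxdef⟩ : ∃ x : K, x = ⟨_, hx⟩ := ⟨_, rfl⟩
  obtain ⟨zz, hzz⟩ : ∃ zz : T, zz = ⟨0, 0, 0, 0, 1, 0, 0, 0, 0, 0, 0⟩ := ⟨_, rfl⟩
  have hzx : zz • x = 0 := by
    apply Subtype.ext
    rw [hxdef]
    change zz • Finsupp.single v yc = 0
    rw [Finsupp.smul_single, smul_eq_mul, hzz, hyc]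
    have : (⟨0, 0, 0, 0, 1, 0, 0, 0, 0, 0, 0⟩ : T) * ⟨0, 0, 0, 0, 0, 0, 0, 0, c, d, 0⟩ = 0 := by
      ext <;> simp
    rw [this, Finsupp.single_zero]
  have hzs : ∀ k, (s x k).r4 = 0 := by
    intro k
    have h1 : zz • s x = 0 := by rw [← map_smul, hzx, map_zero]
    have h2 := DFunLike.congr_fun h1 k
    rw [Finsupp.smul_apply, smul_eq_mul, hzz] at h2
    have h3 := congrArg T.z h2
    simpa using h3
  have hsum : (∑ k ∈ (s x).support, (s x k) • k) = x := by
    have := hs x
    rw [Finsupp.linearCombination_apply, Finsupp.sum] at this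
    exact this
  have hcoord : ∀ j : I, (∑ k ∈ (s x).support, (s x k) * (k : I →₀ T) j) = Finsupp.single v yc j := by
    intro j
    have h1 := congrArg (fun t : K => (t : I →₀ T) j) hsum
    simp only [hxdef] at h1
    rw [← h1]
    simp only [Submodule.coe_sum, Finsupp.finsetSum_apply, Submodule.coe_smul, Finsupp.smul_apply,
      smul_eq_mul]
    rw [hxdef]
  -- a general coefficient argument
  have main : ∀ u : T →+ ℚ, (∀ t t' : T, t.r4 = 0 → u (t * t') = u t * t'.r1) →
      u yc ≠ 0 → (v : T) = 0 := by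
    intro u hu huc
    obtain ⟨κ, hκ⟩ : ∃ κ : K, κ = ∑ k ∈ (s x).support, (e1 (u (s x k))) • k := ⟨_, rfl⟩
    have hκj : ∀ j : I, (κ : I →₀ T) j = ∑ k ∈ (s x).support, e1 (u (s x k)) * (k : I →₀ T) j := by
      intro j
      rw [hκ]
      simp only [Submodule.coe_sum, Finsupp.finsetSum_apply, Submodule.coe_smul, Finsupp.smul_apply,
        smul_eq_mul]
    have hκ1 : ∀ j : I, ((κ : I →₀ T) j).r1 = if j = v then u yc else 0 := by
      intro j
      have h1 : ((κ : I →₀ T) j).r1 = ∑ k ∈ (s x).support, u (s x k) * ((k : I →₀ T) j).r1 := by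
        rw [hκj]
        change r1Hom _ = _
        rw [map_sum]
        refine Finset.sum_congr rfl fun k _ => ?_
        change (e1 (u (s x k)) * (k : I →₀ T) j).r1 = _
        simp [e1]
      have h2 := congrArg u (hcoord j)
      rw [map_sum, Finset.sum_congr rfl (fun k _ => hu _ _ (hzs k)), ← h1] at h2
      rw [h2, Finsupp.single_apply]
      by_cases hj : v = j
      · rw [if_pos hj, if_pos hj.symm]
      · rw [if_neg hj, if_neg (fun h => hj h.symm), map_zero]
    have hκe : ∀ j : I, e1 1 * (κ : I →₀ T) j = (κ : I →₀ T) j := by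
      intro j
      rw [hκj, Finset.mul_sum]
      refine Finset.sum_congr rfl fun k _ => ?_
      rw [← mul_assoc]
      congr 1
      ext <;> simp [e1]
    have hterm : ∀ j : I, (κ : I →₀ T) j * (j : T) = if j = v then (u yc) • (v : T) else 0 := by
      intro j
      have h1 : (κ : I →₀ T) j * (j : T) = e1 (((κ : I →₀ T) j).r1) * (j : T) := by
        have h4 := h3 j j.2
        rw [← hκe j]
        ext <;> simp [e1, h4]
      rw [h1, hκ1]
      by_cases hj : j = v
      · rw [if_pos hj, if_pos hj, hj]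
        conv_rhs => rw [← hv]
        ext <;> simp [e1]
      · rw [if_neg hj, if_neg hj]
        ext <;> simp [e1]
    have h5 := (hKI _).mp κ.2
    rw [Finsupp.sum, Finset.sum_congr rfl (fun j _ => hterm j)] at h5
    by_cases hvs : v ∈ (κ : I →₀ T).support
    · rw [Finset.sum_ite_eq_of_mem' _ _ _ hvs] at h5
      exact (smul_eq_zero.mp h5).resolve_left huc
    · exfalso
      rw [Finsupp.notMem_support_iff] at hvs
      have := hκ1 v
      rw [hvs, if_pos rfl] at this
      exact huc this.symm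
  constructor
  · intro hc
    refine main yHom (fun t t' ht => ?_) ?_
    · change (t * t').y = t.y * t'.r1
      simp [ht]
    · rw [hyc]
      exact hc
  · intro hd
    refine main wHom (fun t t' ht => ?_) ?_
    · change (t * t').w = t.w * t'.r1
      simp [ht]
    · rw [hyc]
      exact hd

/-- Left ideals with `e₃ I = 0` that meet `span {a, b}` nontrivially have projective dimension
greater than one. -/
theorem caseC (I : Submodule T T) (h3 : ∀ x ∈ I, x.r3 = 0) (α β : ℚ)
    (hv : (⟨0, 0, 0, 0, 0, 0, α, β, 0, 0, 0⟩ : T) ∈ I) {P : Type} [AddCommGroup P] [Module T P]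
    (f : P →ₗ[T] I) (hf : Function.Surjective f) (hP : Module.Projective T P)
    (hK : Module.Projective T (LinearMap.ker f)) : α = 0 ∧ β = 0 := by
  classical
  let f' : (I →₀ T) →ₗ[T] I := Finsupp.linearCombination T (id : I → I)
  have hf' : Function.Surjective f' := by
    intro x
    exact ⟨Finsupp.single x 1, by
      rw [Finsupp.linearCombination_single, one_smul]; rfl⟩
  have hK' := schanuel f hf hP hK f' hf' inferInstance
  have hKI : ∀ x : I →₀ T, x ∈ LinearMap.ker f' ↔ x.sum (fun k c => c * (k : T)) = 0 := by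
    intro x
    rw [LinearMap.mem_ker, Finsupp.linearCombination_apply, ← Submodule.coe_eq_zero]
    rw [Finsupp.sum, Finsupp.sum, Submodule.coe_sum]
    rfl
  have hcd : (⟨0, 0, 0, 0, 0, 0, 0, 0, β, -α, 0⟩ : T) *
      ((⟨⟨0, 0, 0, 0, 0, 0, α, β, 0, 0, 0⟩, hv⟩ : I) : T) = 0 := by
    ext <;> simp
    ring
  have := key I h3 ⟨_, hv⟩ (LinearMap.ker f') hKI hK' (by ext <;> simp [e1]) β (-α) hcd
  constructor
  · by_contra h
    have h1 := this.2 (neg_ne_zero.mpr h)
    exact h (congrArg T.a h1)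
  · by_contra h
    have h1 := this.1 h
    exact h (congrArg T.b h1)

/-- The submodule `T (1 - e₁)`. -/
def B : Submodule T T where
  carrier := {t | t.r1 = 0 ∧ t.y = 0 ∧ t.w = 0 ∧ t.p = 0}
  zero_mem' := ⟨rfl, rfl, rfl, rfl⟩
  add_mem' {s t} hs ht := ⟨by simp [hs.1, ht.1], by simp [hs.2.1, ht.2.1],
    by simp [hs.2.2.1, ht.2.2.1], by simp [hs.2.2.2, ht.2.2.2]⟩
  smul_mem' c t ht := ⟨by simp [ht.1], by simp [ht.1, ht.2.1], by simp [ht.1, ht.2.2.1],
    by simp [ht.1, ht.2.2.2]⟩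

/-- The map `T → B`, `t ↦ t (1 - e₁)`. -/
def toB : T →ₗ[T] B := LinearMap.toSpanSingleton T B ⟨1 - e1 1, by
  refine ⟨?_, ?_, ?_, ?_⟩ <;> simp [e1]⟩

theorem toB_coe (t : T) : (toB t : T) = t * (1 - e1 1) := rfl

theorem toB_of_mem (t : B) : toB (t : T) = t := by
  apply Subtype.ext
  rw [toB_coe]
  obtain ⟨h1, h2, h3, h4⟩ := t.2
  ext <;> simp [e1, h1, h2, h3, h4]

instance : Module.Projective T B :=
  Module.Projective.of_split B.subtype toB (LinearMap.ext fun t => toB_of_mem t)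

instance : Module.Finite T B :=
  Module.Finite.of_surjective toB fun t => ⟨t, toB_of_mem t⟩

/-- Coordinates on `B`. -/
def coords : B →ₗ[ℚ] (Fin 7 → ℚ) where
  toFun t := ![(t : T).r2, (t : T).r3, (t : T).r4, (t : T).z, (t : T).n, (t : T).a, (t : T).b]
  map_add' s t := by
    ext i
    fin_cases i <;> rfl
  map_smul' c t := by
    ext i
    fin_cases i <;> rfl

theorem coords_injective : Function.Injective coords := by
  intro s t h
  have h0 : (s : T).r2 = (t : T).r2 := congrFun h 0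
  have h1 : (s : T).r3 = (t : T).r3 := congrFun h 1
  have h2 : (s : T).r4 = (t : T).r4 := congrFun h 2
  have h3 : (s : T).z = (t : T).z := congrFun h 3
  have h4 : (s : T).n = (t : T).n := congrFun h 4
  have h5 : (s : T).a = (t : T).a := congrFun h 5
  have h6 : (s : T).b = (t : T).b := congrFun h 6
  obtain ⟨s1, s2, s3, s4⟩ := s.2
  obtain ⟨t1, t2, t3, t4⟩ := t.2
  apply Subtype.ext
  apply T.ext
  · rw [s1, t1]
  · exact h0
  · exact h1
  · exact h2
  · exact h3
  · exact h4
  · exact h5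
  · exact h6
  · rw [s2, t2]
  · rw [s3, t3]
  · rw [s4, t4]

instance : Module.Finite ℚ B := Module.Finite.of_injective coords coords_injective

instance : IsNoetherian T B := isNoetherian_of_tower ℚ inferInstance

theorem fp_of_e1 (M : Type) [AddCommGroup M] [Module T M] [Module.Finite T M]
    (h : ∀ m : M, e1 1 • m = 0) : Module.FinitePresentation T M := by
  classical
  obtain ⟨k, f, hf⟩ := Module.Finite.exists_fin' T M
  have hfp : Module.FinitePresentation T B := Module.finitePresentation_of_projective T B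
  have hfp' : Module.FinitePresentation T (Fin k → B) := inferInstance
  let inc : (Fin k → B) →ₗ[T] (Fin k → T) := LinearMap.pi fun i => B.subtype.comp (LinearMap.proj i)
  have hinc : ∀ t i, inc t i = (t i : T) := fun t i => rfl
  refine Module.finitePresentation_of_surjective (f.comp inc) ?_ (IsNoetherian.noetherian _)
  intro m
  obtain ⟨t, rfl⟩ := hf m
  refine ⟨fun i => toB (t i), ?_⟩
  rw [LinearMap.comp_apply, LinearMap.pi_apply_eq_sum_univ, LinearMap.pi_apply_eq_sum_univ f t]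
  refine Finset.sum_congr rfl fun i _ => ?_
  rw [hinc, toB_coe, mul_smul, sub_smul, one_smul, h, sub_zero]

/-- If a finitely generated left ideal contains an idempotent `g` with `e₁ I ⊆ T g`, then it is
finitely presented. -/
theorem fp_of_idem (I : Submodule T T) [Module.Finite T I] (g : T) (hg : g ∈ I) (hgg : g * g = g)
    (h : ∀ x ∈ I, e1 1 * x * g = e1 1 * x) : Module.FinitePresentation T I := by
  let ρ : I →ₗ[T] I := LinearMap.id - (LinearMap.toSpanSingleton T I ⟨g, hg⟩).comp I.subtype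
  have hρ : ∀ x : I, (ρ x : T) = x - x * g := fun x => rfl
  have h1 : Module.Finite T (LinearMap.range ρ) := inferInstance
  have h2 : Module.FinitePresentation T (LinearMap.range ρ) := by
    apply fp_of_e1
    rintro ⟨_, x, rfl⟩
    apply Subtype.ext
    apply Subtype.ext
    change e1 1 * (ρ x : T) = 0
    rw [hρ, mul_sub, ← mul_assoc, h x x.2, sub_self]
  have hker : ∀ x : I, x ∈ LinearMap.ker ρ ↔ (x : T) * g = x := by
    intro x
    rw [LinearMap.mem_ker, ← Submodule.coe_eq_zero, hρ, sub_eq_zero, eq_comm]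
  let r : T →ₗ[T] LinearMap.ker ρ := LinearMap.toSpanSingleton T _ ⟨⟨g, hg⟩, (hker _).mpr hgg⟩
  have hr : ∀ x : LinearMap.ker ρ, r ((x : I) : T) = x := by
    intro x
    apply Subtype.ext
    apply Subtype.ext
    exact (hker _).mp x.2
  have h3 : Module.Projective T (LinearMap.ker ρ) :=
    Module.Projective.of_split (I.subtype.comp (LinearMap.ker ρ).subtype) r (LinearMap.ext hr)
  have h4 : Module.Finite T (LinearMap.ker ρ) :=
    Module.Finite.of_surjective r fun x => ⟨_, hr x⟩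
  have h5 : Module.FinitePresentation T (LinearMap.ker ρ) :=
    Module.finitePresentation_of_projective T _
  have h6 : Module.FinitePresentation T (LinearMap.ker ρ.rangeRestrict) := by
    rw [LinearMap.ker_rangeRestrict]
    exact h5
  exact Module.finitePresentation_of_ker ρ.rangeRestrict ρ.surjective_rangeRestrict

/-- The finitely generated left ideals of projective dimension at most one are finitely
presented. -/
theorem ideal_fp (I : Submodule T T) (hI : I.FG) {P : Type} [AddCommGroup P] [Module T P]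
    (f : P →ₗ[T] I) (hf : Function.Surjective f) (hP : Module.Projective T P)
    (hK : Module.Projective T (LinearMap.ker f)) : Module.FinitePresentation T I := by
  have hfin : Module.Finite T I := Module.Finite.iff_fg.mpr hI
  by_cases hc3 : ∃ x ∈ I, x.r3 ≠ 0
  · obtain ⟨x, hx, hx3⟩ := hc3
    have he3 : (⟨0, 0, 1, 0, 0, 0, 0, 0, 0, 0, 0⟩ : T) ∈ I := by
      have := I.smul_mem (⟨0, 0, x.r3⁻¹, 0, 0, 0, 0, 0, 0, 0, 0⟩ : T) hx
      convert this using 1
      ext <;> simp [hx3]
    by_cases hc1 : ∃ x ∈ I, x.r1 ≠ 0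
    · obtain ⟨x, hx, hx1⟩ := hc1
      have he1 : (⟨1, 0, 1, 0, 0, 0, 0, 0, 0, 0, 0⟩ : T) ∈ I := by
        have h1 := I.smul_mem (e1 x.r1⁻¹) hx
        have h2 := I.smul_mem (⟨0, 0, 0, 0, 0, 0, -x.r1⁻¹ * x.a, -x.r1⁻¹ * x.b, 0, 0, 0⟩ : T) he3
        convert add_mem (add_mem h1 h2) he3 using 1
        ext <;> simp [hx1, e1]
      refine fp_of_idem I _ he1 (by ext <;> simp) ?_
      intro t _
      ext <;> simp [e1]
    · push Not at hc1
      refine fp_of_idem I _ he3 (by ext <;> simp) ?_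
      intro t ht
      have := hc1 t ht
      ext <;> simp [e1, this]
  · push Not at hc3
    have hC : ∀ α β : ℚ, (⟨0, 0, 0, 0, 0, 0, α, β, 0, 0, 0⟩ : T) ∈ I → α = 0 ∧ β = 0 :=
      fun α β h => caseC I hc3 α β h f hf hP hK
    by_cases hc1 : ∃ x ∈ I, x.r1 ≠ 0
    · obtain ⟨x, hx, hx1⟩ := hc1
      have hx3 := hc3 x hx
      have hg : (⟨1, 0, 0, 0, 0, 0, x.r1⁻¹ * x.a, x.r1⁻¹ * x.b, 0, 0, 0⟩ : T) ∈ I := by
        have h1 := I.smul_mem (e1 x.r1⁻¹) hx
        convert h1 using 1
        ext <;> simp [hx1, e1, hx3]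
      refine fp_of_idem I _ hg (by ext <;> simp) ?_
      intro t ht
      have ht3 := hc3 t ht
      have h2 : (⟨0, 0, 0, 0, 0, 0, t.a - t.r1 * (x.r1⁻¹ * x.a), t.b - t.r1 * (x.r1⁻¹ * x.b),
          0, 0, 0⟩ : T) ∈ I := by
        have h3 := I.smul_mem (e1 1) ht
        have h4 := I.smul_mem (e1 (-t.r1)) hg
        convert add_mem h3 h4 using 1
        ext <;> simp [e1]
        · ring
        · ring
      obtain ⟨h5, h6⟩ := hC _ _ h2
      ext <;> simp [e1]
      · linarith
      · linarith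
    · push Not at hc1
      refine fp_of_idem I 0 (zero_mem _) (by simp) ?_
      intro t ht
      have ht1 := hc1 t ht
      have ht3 := hc3 t ht
      have h2 : (⟨0, 0, 0, 0, 0, 0, t.a, t.b, 0, 0, 0⟩ : T) ∈ I := by
        have h3 := I.smul_mem (e1 1) ht
        convert h3 using 1
        ext <;> simp [e1, ht1]
      obtain ⟨h5, h6⟩ := hC _ _ h2
      ext <;> simp [e1, ht1, h5, h6]

/-- The vector `(a, b)`. -/
def ab : Fin 2 → T := ![⟨0, 0, 0, 0, 0, 0, 1, 0, 0, 0, 0⟩, ⟨0, 0, 0, 0, 0, 0, 0, 1, 0, 0, 0⟩]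

/-- The submodule `T (a, b)` of `T²`. -/
def K : Submodule T (Fin 2 → T) := Submodule.span T {ab}

theorem K_fg : K.FG := ⟨{ab}, by simp [K]⟩

/-- The presentation `T → K`. -/
def q : T →ₗ[T] K := LinearMap.toSpanSingleton T K ⟨ab, Submodule.mem_span_singleton_self ab⟩

theorem q_surjective : Function.Surjective q := by
  rintro ⟨x, hx⟩
  obtain ⟨t, rfl⟩ := Submodule.mem_span_singleton.mp hx
  exact ⟨t, rfl⟩

theorem mem_ker_q {t : T} : t ∈ LinearMap.ker q ↔ t.r1 = 0 ∧ t.y = 0 ∧ t.w = 0 := by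
  rw [LinearMap.mem_ker, ← Submodule.coe_eq_zero]
  change t • ab = 0 ↔ _
  constructor
  · intro h
    have h0 := congrFun h 0
    have h1 := congrFun h 1
    change t * (⟨0, 0, 0, 0, 0, 0, 1, 0, 0, 0, 0⟩ : T) = 0 at h0
    change t * (⟨0, 0, 0, 0, 0, 0, 0, 1, 0, 0, 0⟩ : T) = 0 at h1
    have a1 := congrArg T.a h0
    have a2 := congrArg T.n h0
    have a3 := congrArg T.n h1
    simp at a1 a2 a3
    exact ⟨a1, a2, a3⟩
  · rintro ⟨h1, h2, h3⟩
    funext i
    fin_cases i
    · change t * (⟨0, 0, 0, 0, 0, 0, 1, 0, 0, 0, 0⟩ : T) = 0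
      ext <;> simp [h1, h2, h3]
    · change t * (⟨0, 0, 0, 0, 0, 0, 0, 1, 0, 0, 0⟩ : T) = 0
      ext <;> simp [h1, h2, h3]

/-- The element `c e₂`. -/
def e2 (c : ℚ) : T := ⟨0, c, 0, 0, 0, 0, 0, 0, 0, 0, 0⟩

theorem e2_zero : e2 0 = 0 := rfl

/-- The element `p i`. -/
def pe (i : ℕ) : T := ⟨0, 0, 0, 0, 0, 0, 0, 0, 0, 0, Finsupp.single i 1⟩

theorem pe_mem (i : ℕ) : pe i ∈ LinearMap.ker q := mem_ker_q.mpr ⟨rfl, rfl, rfl⟩

/-- `f ↦ Σ f i • p i`. -/
def lin : (ℕ →₀ T) →ₗ[T] LinearMap.ker q :=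
  Finsupp.linearCombination T fun i => (⟨pe i, pe_mem i⟩ : LinearMap.ker q)

/-- Coefficients. -/
def mr (f : ℕ →₀ ℚ) : ℕ →₀ T := f.mapRange e2 e2_zero

theorem mr_add (f g : ℕ →₀ ℚ) : mr (f + g) = mr f + mr g := by
  ext1 i
  change e2 ((f + g) i) = e2 (f i) + e2 (g i)
  ext <;> simp [e2]

theorem mr_smul (s : T) (f : ℕ →₀ ℚ) : mr (s.r2 • f) = s • mr f := by
  ext1 i
  change e2 (s.r2 * f i) = s * e2 (f i)
  ext <;> simp [e2]

theorem lin_mr (f : ℕ →₀ ℚ) : (lin (mr f) : T) = ⟨0, 0, 0, 0, 0, 0, 0, 0, 0, 0, f⟩ := by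
  induction f using Finsupp.induction_linear with
  | zero =>
    have : mr 0 = 0 := by
      ext1 i
      rfl
    rw [this, map_zero]
    rfl
  | add f g hf hg =>
    rw [mr_add, map_add, Submodule.coe_add, hf, hg]
    ext <;> simp
  | single i c =>
    have : mr (Finsupp.single i c) = Finsupp.single i (e2 c) := Finsupp.mapRange_single
    rw [this, lin, Finsupp.linearCombination_single]
    change e2 c * pe i = _
    ext <;> simp [e2, pe]

/-- The embedding of the kernel. -/
def emb : LinearMap.ker q →ₗ[T] T × (ℕ →₀ T) where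
  toFun t := ((t : T) * (1 - e1 1), mr (t : T).p)
  map_add' s t := by
    refine Prod.ext ?_ ?_
    · exact add_mul _ _ _
    · exact mr_add _ _
  map_smul' s t := by
    refine Prod.ext ?_ ?_
    · exact mul_assoc _ _ _
    · have h1 := (mem_ker_q.mp t.2).1
      change mr (s * (t : T)).p = s • mr (t : T).p
      rw [mul_p, h1, zero_smul, add_zero, mr_smul]

/-- The retraction. -/
def ret : T × (ℕ →₀ T) →ₗ[T] LinearMap.ker q :=
  LinearMap.coprod (LinearMap.toSpanSingleton T _ ⟨1 - e1 1, mem_ker_q.mpr (by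
    refine ⟨?_, ?_, ?_⟩ <;> simp [e1])⟩) lin

theorem ret_emb (t : LinearMap.ker q) : ret (emb t) = t := by
  apply Subtype.ext
  change (t : T) * (1 - e1 1) * (1 - e1 1) + (lin (mr (t : T).p) : T) = t
  rw [lin_mr]
  obtain ⟨h1, h2, h3⟩ := mem_ker_q.mp t.2
  ext <;> simp [e1, h1, h2, h3]

theorem ker_projective : Module.Projective T (LinearMap.ker q) :=
  Module.Projective.of_split emb ret (LinearMap.ext ret_emb)

theorem ker_not_fg : ¬ (LinearMap.ker q).FG := by
  rintro ⟨S, hS⟩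
  obtain ⟨N, hN⟩ : ∃ N : ℕ, ∀ s ∈ S, ∀ i ≥ N, s.p i = 0 := by
    refine ⟨(S.sup fun s => s.p.support.sup id) + 1, fun s hs i hi => ?_⟩
    by_contra h
    have h1 : i ∈ s.p.support := Finsupp.mem_support_iff.mpr h
    have h2 : i ≤ s.p.support.sup id := Finset.le_sup (f := id) h1
    have h3 : s.p.support.sup id ≤ S.sup fun s => s.p.support.sup id :=
      Finset.le_sup (f := fun s : T => s.p.support.sup id) hs
    omega
  let Q : Submodule T T :=
    { carrier := {t | t.r1 = 0 ∧ ∀ i ≥ N, t.p i = 0}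
      zero_mem' := ⟨rfl, fun i _ => rfl⟩
      add_mem' := fun {s t} hs ht => ⟨by simp [hs.1, ht.1], fun i hi => by
        simp [hs.2 i hi, ht.2 i hi]⟩
      smul_mem' := fun c t ht => ⟨by simp [ht.1], fun i hi => by simp [ht.1, ht.2 i hi]⟩ }
  have hle : LinearMap.ker q ≤ Q := by
    rw [← hS, Submodule.span_le]
    intro s hs
    have : s ∈ LinearMap.ker q := by rw [← hS]; exact Submodule.subset_span hs
    exact ⟨(mem_ker_q.mp this).1, fun i hi => hN s hs i hi⟩
  have h1 := (hle (pe_mem N)).2 N (le_refl N)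
  simp [pe] at h1

theorem K_not_fp : ¬ Module.FinitePresentation T K := by
  intro h
  exact ker_not_fg (Module.FinitePresentation.fg_ker q q_surjective)

end Q10.LeeRing
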