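import Mathlib

/-!
# The algebra `T = ℚ⟨a, y | a² y = a⟩` acting on the free algebra on `e`, `y`
-/

open MonoidAlgebra

noncomputable section

namespace Q10.McCoy

/-- Words in the letters `e` (`false`) and `y` (`true`). -/
abbrev W : Type := FreeMonoid Bool

/-- The free algebra on `e`, `y`. -/
abbrev Φ : Type := MonoidAlgebra ℚ W

/-- The letters. -/
abbrev le : W := FreeMonoid.of false
abbrev ly : W := FreeMonoid.of true

def E : Φ := single le 1
def Y : Φ := single ly 1

/-- The value of `δ` on words: `δ(1) = 0`, `δ(e w) = δ(w)`, `δ(y w) = e w`. -/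
def dw : List Bool → Φ
  | [] => 0
  | true :: w => single (FreeMonoid.ofList (false :: w)) 1
  | false :: w => dw w

/-- The linear operator `δ`. -/
def δ : Φ →ₗ[ℚ] Φ :=
  (Finsupp.linearCombination ℚ (fun w : W => dw w.toList)).comp
    (coeffLinearEquiv ℚ : Φ ≃ₗ[ℚ] (W →₀ ℚ)).toLinearMap

theorem δ_single (w : W) (r : ℚ) : δ (single w r) = r • dw w.toList := by
  change Finsupp.linearCombination ℚ (fun w : W => dw w.toList) (Finsupp.single w r) = _
  rw [Finsupp.linearCombination_single]

theorem δ_one : δ 1 = 0 := by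
  rw [one_def, δ_single]; simp [dw]

theorem δ_E_mul (u : Φ) : δ (E * u) = δ u := by
  induction u using MonoidAlgebra.induction_linear with
  | zero => simp
  | add u v hu hv => rw [mul_add, map_add, hu, hv, map_add]
  | single w r =>
    rw [E, single_mul_single, one_mul, δ_single, δ_single]
    rfl

theorem δ_Y_mul (u : Φ) : δ (Y * u) = E * u := by
  induction u using MonoidAlgebra.induction_linear with
  | zero => simp
  | add u v hu hv => rw [mul_add, map_add, hu, hv, mul_add]
  | single w r =>
    rw [Y, single_mul_single, one_mul, δ_single, E, single_mul_single, one_mul]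
    change r • single (FreeMonoid.ofList (false :: w.toList)) (1 : ℚ) = _
    rw [smul_single', mul_one]
    rfl

theorem δ_E : δ E = 0 := by
  have := δ_E_mul 1
  rwa [mul_one, δ_one] at this

/-- Commutation of `δ` with left multiplications: there are a scalar `c` and an element `q` of the
free algebra with `δ(p u) = c δ(u) + q u` for all `u`. -/
theorem δ_mul (p : Φ) : ∃ (c : ℚ) (q : Φ), ∀ u, δ (p * u) = c • δ u + q * u := by
  induction p using MonoidAlgebra.induction_linear with
  | zero => exact ⟨0, 0, fun u => by simp⟩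
  | add p p' hp hp' =>
    obtain ⟨c, q, h⟩ := hp
    obtain ⟨c', q', h'⟩ := hp'
    refine ⟨c + c', q + q', fun u => ?_⟩
    rw [add_mul, map_add, h, h', add_smul, add_mul]; abel
  | single w r =>
    have key : ∀ l : List Bool, ∃ (c : ℚ) (q : Φ), ∀ u,
        δ (single (FreeMonoid.ofList l) 1 * u) = c • δ u + q * u := by
      intro l
      induction l with
      | nil =>
        refine ⟨1, 0, fun u => ?_⟩
        have : (single (FreeMonoid.ofList []) 1 : Φ) = 1 := rfl
        rw [this]; simp
      | cons x l ih =>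
        obtain ⟨c, q, h⟩ := ih
        cases x with
        | false =>
          refine ⟨c, q, fun u => ?_⟩
          have : (single (FreeMonoid.ofList (false :: l)) 1 : Φ) =
              E * single (FreeMonoid.ofList l) 1 := by
            rw [E, single_mul_single, one_mul]; rfl
          rw [this, mul_assoc, δ_E_mul, h]
        | true =>
          refine ⟨0, E * single (FreeMonoid.ofList l) 1, fun u => ?_⟩
          have : (single (FreeMonoid.ofList (true :: l)) 1 : Φ) =
              Y * single (FreeMonoid.ofList l) 1 := by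
            rw [Y, single_mul_single, one_mul]; rfl
          rw [this, mul_assoc, δ_Y_mul, mul_assoc]; simp
    obtain ⟨c, q, h⟩ := key w.toList
    refine ⟨r * c, r • q, fun u => ?_⟩
    have h1 : (single w r : Φ) = r • single (FreeMonoid.ofList w.toList) 1 := by
      rw [smul_single', mul_one]; rfl
    rw [h1, smul_mul_assoc, map_smul, h, smul_add, smul_smul, smul_mul_assoc]

theorem δ_mul_E (u : Φ) : δ (u * E) = δ u * E := by
  induction u using MonoidAlgebra.induction_linear with
  | zero => simp
  | add u v hu hv => rw [add_mul, map_add, hu, hv, map_add, add_mul]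
  | single w r =>
    have key : ∀ l : List Bool, dw (l ++ [false]) = dw l * E := by
      intro l
      induction l with
      | nil => simp [dw]
      | cons x l ih =>
        cases x with
        | false => exact ih
        | true =>
          change single (FreeMonoid.ofList (false :: (l ++ [false]))) (1 : ℚ) =
            single (FreeMonoid.ofList (false :: l)) 1 * E
          rw [E, single_mul_single, one_mul]
          rfl
    rw [E, single_mul_single, mul_one, δ_single, δ_single]
    change r • dw (w.toList ++ [false]) = _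
    rw [key, smul_mul_assoc]; rfl

theorem δ_mul_Y (u : Φ) : ∃ c : ℚ, δ (u * Y) = δ u * Y + c • E := by
  induction u using MonoidAlgebra.induction_linear with
  | zero => exact ⟨0, by simp⟩
  | add u v hu hv =>
    obtain ⟨c, hc⟩ := hu
    obtain ⟨d, hd⟩ := hv
    exact ⟨c + d, by rw [add_mul, map_add, hc, hd, map_add, add_mul, add_smul]; abel⟩
  | single w r =>
    have key : ∀ l : List Bool, ∃ c : ℚ, dw (l ++ [true]) = dw l * Y + c • E := by
      intro l
      induction l with
      | nil => exact ⟨1, by simp [dw, E]⟩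
      | cons x l ih =>
        cases x with
        | false => exact ih
        | true =>
          refine ⟨0, ?_⟩
          change single (FreeMonoid.ofList (false :: (l ++ [true]))) (1 : ℚ) =
            single (FreeMonoid.ofList (false :: l)) 1 * Y + (0 : ℚ) • E
          rw [Y, single_mul_single, one_mul, zero_smul, add_zero]
          rfl
    obtain ⟨c, hc⟩ := key w.toList
    refine ⟨r * c, ?_⟩
    rw [Y, single_mul_single, mul_one, δ_single, δ_single]
    change r • dw (w.toList ++ [true]) = _
    rw [hc, smul_add, smul_smul, smul_mul_assoc]; rfl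

/-! ### The operators `∑ h_k δ^k` -/

/-- The operator `u ↦ ∑ k, h_k δ^k(u)`. -/
def Op (h : ℕ →₀ Φ) : Module.End ℚ Φ :=
  h.sum fun k p => (LinearMap.mulLeft ℚ p) * δ ^ k

theorem Op_zero : Op 0 = 0 := Finsupp.sum_zero_index

theorem Op_add (h h' : ℕ →₀ Φ) : Op (h + h') = Op h + Op h' := by
  rw [Op, Finsupp.sum_add_index']
  · rfl
  · intro k
    ext u
    simp
  · intro k p q
    rw [← add_mul]
    congr 1
    apply LinearMap.ext
    intro u
    change (p + q) * u = p * u + q * u
    rw [add_mul]

theorem Op_single (k : ℕ) (p : Φ) : Op (Finsupp.single k p) = LinearMap.mulLeft ℚ p * δ ^ k := by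
  rw [Op, Finsupp.sum_single_index]
  ext u
  simp

theorem δ_pow_one (k : ℕ) (hk : k ≠ 0) : (δ ^ k) (1 : Φ) = 0 := by
  obtain ⟨m, rfl⟩ := Nat.exists_eq_succ_of_ne_zero hk
  rw [Nat.succ_eq_add_one, pow_succ]
  change (δ ^ m) (δ 1) = 0
  rw [δ_one, map_zero]

theorem Op_one (h : ℕ →₀ Φ) : Op h 1 = h 0 := by
  induction h using Finsupp.induction_linear with
  | zero => rw [Op_zero]; rfl
  | add h h' e e' =>
    rw [Op_add, Finsupp.add_apply, ← e, ← e']; rfl
  | single k p =>
    rw [Op_single]
    change p * (δ ^ k) 1 = _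
    by_cases hk : k = 0
    · subst hk
      rw [pow_zero, Finsupp.single_eq_same]
      change p * 1 = p
      rw [mul_one]
    · rw [δ_pow_one k hk, mul_zero, Finsupp.single_eq_of_ne (Ne.symm hk)]

theorem δ_pow_mul_E (k : ℕ) (u : Φ) : (δ ^ k) (u * E) = (δ ^ k) u * E := by
  induction k generalizing u with
  | zero => rfl
  | succ k ih =>
    rw [pow_succ]
    change (δ ^ k) (δ (u * E)) = (δ ^ k) (δ u) * E
    rw [δ_mul_E, ih]

theorem δ_pow_mul_Y (k : ℕ) (u : Φ) : ∃ c : ℚ, (δ ^ k) (u * Y) = (δ ^ k) u * Y + c • E := by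
  induction k generalizing u with
  | zero => exact ⟨0, by rw [zero_smul, add_zero]; rfl⟩
  | succ k ih =>
    obtain ⟨c, hc⟩ := δ_mul_Y u
    obtain ⟨d, hd⟩ := ih (δ u)
    rw [pow_succ]
    change ∃ c : ℚ, (δ ^ k) (δ (u * Y)) = (δ ^ k) (δ u) * Y + c • E
    rw [hc, map_add, hd, map_smul]
    cases k with
    | zero => exact ⟨d + c, by rw [add_smul, ← add_assoc]; rfl⟩
    | succ k =>
      refine ⟨d, ?_⟩
      have : (δ ^ (k + 1)) E = 0 := by
        rw [pow_succ]
        change (δ ^ k) (δ E) = 0
        rw [δ_E, map_zero]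
      rw [this, smul_zero, add_zero]

theorem Op_mul_E (h : ℕ →₀ Φ) (u : Φ) : Op h (u * E) = Op h u * E := by
  induction h using Finsupp.induction_linear with
  | zero => rw [Op_zero]; simp
  | add h h' e e' =>
    rw [Op_add]
    change Op h (u * E) + Op h' (u * E) = (Op h u + Op h' u) * E
    rw [e, e', add_mul]
  | single k p =>
    rw [Op_single]
    change p * (δ ^ k) (u * E) = p * (δ ^ k) u * E
    rw [δ_pow_mul_E, mul_assoc]

theorem Op_mul_Y (h : ℕ →₀ Φ) (u : Φ) : ∃ q : Φ, Op h (u * Y) = Op h u * Y + q * E := by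
  induction h using Finsupp.induction_linear with
  | zero => exact ⟨0, by rw [Op_zero]; simp⟩
  | add h h' e e' =>
    obtain ⟨q, hq⟩ := e
    obtain ⟨q', hq'⟩ := e'
    refine ⟨q + q', ?_⟩
    rw [Op_add]
    change Op h (u * Y) + Op h' (u * Y) = (Op h u + Op h' u) * Y + (q + q') * E
    rw [hq, hq', add_mul, add_mul]; abel
  | single k p =>
    rw [Op_single]
    obtain ⟨c, hc⟩ := δ_pow_mul_Y k u
    refine ⟨c • p, ?_⟩
    change p * (δ ^ k) (u * Y) = p * (δ ^ k) u * Y + (c • p) * E
    rw [hc, mul_add, mul_assoc, mul_smul_comm, smul_mul_assoc]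

/-! ### The injectivity of `∑ h_k δ^k` when `h_0 ≠ 0` -/

theorem word_cases (w : W) : w = 1 ∨ (∃ w', w = w' * ly) ∨ ∃ w', w = w' * le := by
  rcases List.eq_nil_or_concat w.toList with h | ⟨l, x, h⟩
  · left; exact h
  · right
    cases x with
    | false =>
      right
      rw [List.concat_eq_append] at h
      exact ⟨FreeMonoid.ofList l, h⟩
    | true =>
      left
      rw [List.concat_eq_append] at h
      exact ⟨FreeMonoid.ofList l, h⟩

theorem mul_ne (x y : Bool) (hxy : x ≠ y) (w d : W) :
    d * FreeMonoid.of x ≠ w * FreeMonoid.of y := by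
  intro h
  apply hxy
  have h2 := congrArg FreeMonoid.toList h
  rw [FreeMonoid.toList_mul, FreeMonoid.toList_mul, FreeMonoid.toList_of,
    FreeMonoid.toList_of] at h2
  have := (List.append_inj' h2 rfl).2
  simpa using this

theorem mul_ne_one' (x : Bool) (d : W) : d * FreeMonoid.of x ≠ 1 := by
  intro h
  have h2 := congrArg FreeMonoid.toList h
  rw [FreeMonoid.toList_mul, FreeMonoid.toList_of] at h2
  have h3 := congrArg List.length h2
  rw [List.length_append] at h3
  simp at h3

/-- The right quotient of `u` by the letter `x`. -/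
def quo (x : Bool) (u : Φ) : Φ :=
  ofCoeff (u.coeff.comapDomain (fun w => w * FreeMonoid.of x)
    (fun _ _ _ _ h => mul_right_cancel h))

theorem coeff_quo (x : Bool) (u : Φ) (w : W) : (quo x u).coeff w = u.coeff (w * FreeMonoid.of x) :=
  rfl

theorem decomp (u : Φ) :
    u = (u.coeff 1) • (1 : Φ) + quo true u * Y + quo false u * E := by
  apply MonoidAlgebra.ext
  ext w
  rw [MonoidAlgebra.coeff_add, MonoidAlgebra.coeff_add, Finsupp.add_apply, Finsupp.add_apply,
    Y, E, MonoidAlgebra.coeff_smul, Finsupp.smul_apply]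
  rcases word_cases w with rfl | ⟨w', rfl⟩ | ⟨w', rfl⟩
  · rw [coeff_mul_single_of_forall_mul_ne _ _ (fun d => mul_ne_one' true d),
      coeff_mul_single_of_forall_mul_ne _ _ (fun d => mul_ne_one' false d), coeff_one_one]
    simp
  · rw [coeff_mul_single_mul, coeff_mul_single_of_forall_mul_ne _ _
      (fun d => mul_ne false true (by decide) w' d), coeff_quo, one_def, coeff_single,
      Finsupp.single_eq_of_ne (mul_ne_one' true w')]
    simp
  · rw [coeff_mul_single_mul, coeff_mul_single_of_forall_mul_ne _ _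
      (fun d => mul_ne true false (by decide) w' d), coeff_quo, one_def, coeff_single,
      Finsupp.single_eq_of_ne (mul_ne_one' false w')]
    simp

/-- All words of length at least `n` have coefficient zero. -/
def DegLT (u : Φ) (n : ℕ) : Prop := ∀ w : W, n ≤ w.toList.length → u.coeff w = 0

theorem coeff_add_mul_Y (p q : Φ) (w : W) :
    (p * Y + q * E).coeff (w * ly) = p.coeff w := by
  rw [MonoidAlgebra.coeff_add, Finsupp.add_apply, Y, E, coeff_mul_single_mul,
    coeff_mul_single_of_forall_mul_ne _ _ (fun d => mul_ne false true (by decide) w d)]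
  simp

theorem coeff_mul_E' (p : Φ) (w : W) : (p * E).coeff (w * le) = p.coeff w := by
  rw [E, coeff_mul_single_mul, mul_one]

theorem length_mul_of (w : W) (x : Bool) :
    (w * FreeMonoid.of x).toList.length = w.toList.length + 1 := by
  rw [FreeMonoid.toList_mul, FreeMonoid.toList_of, List.length_append]; rfl

/-- The key estimate: if `h_0` has a word of length `d` and no longer words, then `∑ h_k δ^k(u)` has
a word of length at least `d`, for every `u ≠ 0`. -/
theorem key (h : ℕ →₀ Φ) (d : ℕ) (hd : DegLT (h 0) (d + 1)) (hd' : ¬ DegLT (h 0) d) (n : ℕ) :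
    ∀ u : Φ, DegLT u n → DegLT (Op h u) d → u = 0 := by
  induction n with
  | zero =>
    intro u hu _
    apply MonoidAlgebra.ext
    ext w
    exact hu w (Nat.zero_le _)
  | succ n ih =>
    intro u hu hOp
    have hquo : ∀ x, DegLT (quo x u) n := by
      intro x w hw
      rw [coeff_quo]
      apply hu
      rw [length_mul_of]; omega
    set κ := u.coeff 1 with hκ
    obtain ⟨q, hq⟩ := Op_mul_Y h (quo true u)
    have hOpu : Op h u = κ • h 0 + (Op h (quo true u) * Y + (q + Op h (quo false u)) * E) := by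
      conv_lhs => rw [decomp u]
      rw [map_add, map_add, map_smul, Op_one, hq, Op_mul_E, add_mul, ← hκ]
      abel
    -- first the quotient by `y`
    have h1 : quo true u = 0 := by
      apply ih _ (hquo true)
      intro w hw
      have h2 : (Op h u).coeff (w * ly) = _ := congrArg (fun z : Φ => z.coeff (w * ly)) hOpu
      rw [MonoidAlgebra.coeff_add, Finsupp.add_apply, coeff_add_mul_Y, MonoidAlgebra.coeff_smul,
        Finsupp.smul_apply, hd _ (by rw [length_mul_of]; omega),
        hOp _ (by rw [length_mul_of]; omega), smul_zero, zero_add] at h2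
      exact h2.symm
    have hOpu' : Op h u = κ • h 0 + Op h (quo false u) * E := by
      conv_lhs => rw [decomp u]
      rw [h1, zero_mul, add_zero, map_add, map_smul, Op_one, Op_mul_E, ← hκ]
    have h3 : quo false u = 0 := by
      apply ih _ (hquo false)
      intro w hw
      have h2 : (Op h u).coeff (w * le) = _ := congrArg (fun z : Φ => z.coeff (w * le)) hOpu'
      rw [MonoidAlgebra.coeff_add, Finsupp.add_apply, coeff_mul_E', MonoidAlgebra.coeff_smul,
        Finsupp.smul_apply, hd _ (by rw [length_mul_of]; omega),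
        hOp _ (by rw [length_mul_of]; omega), smul_zero, zero_add] at h2
      exact h2.symm
    have h4 : κ = 0 := by
      by_contra hκ0
      apply hd'
      intro w hw
      have h2 := hOp w hw
      have h5 : Op h u = κ • h 0 := by rw [hOpu', h3, LinearMap.map_zero, zero_mul, add_zero]
      rw [h5, MonoidAlgebra.coeff_smul, Finsupp.smul_apply, smul_eq_mul] at h2
      exact (mul_eq_zero.mp h2).resolve_left hκ0
    rw [decomp u, h1, h3, ← hκ, h4, zero_smul, zero_mul, zero_mul, add_zero, add_zero]

theorem exists_bound (u : Φ) : ∃ n, DegLT u n := by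
  refine ⟨(u.coeff.support.sup fun w => w.toList.length) + 1, fun w hw => ?_⟩
  by_contra h
  have : w.toList.length ≤ _ :=
    Finset.le_sup (f := fun w : W => w.toList.length) (Finsupp.mem_support_iff.mpr h)
  omega

/-- `∑ h_k δ^k` is injective if `h_0 ≠ 0`. -/
theorem Op_injective (h : ℕ →₀ Φ) (h0 : h 0 ≠ 0) (u : Φ) (hu : Op h u = 0) : u = 0 := by
  classical
  have hex := exists_bound (h 0)
  let N := Nat.find hex
  have hN : DegLT (h 0) N := Nat.find_spec hex
  have hN0 : N ≠ 0 := by
    intro h1
    apply h0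
    apply MonoidAlgebra.ext
    ext w
    exact hN w (by omega)
  obtain ⟨n, hn⟩ := exists_bound u
  refine key h (N - 1) (by rwa [Nat.sub_add_cancel (Nat.one_le_iff_ne_zero.mpr hN0)])
    (Nat.find_min hex (by omega)) n u hn ?_
  rw [hu]
  intro w _
  rfl

/-! ### The algebra `T` -/

theorem mulLeft_mul_Op (p : Φ) (h : ℕ →₀ Φ) : ∃ h', LinearMap.mulLeft ℚ p * Op h = Op h' := by
  induction h using Finsupp.induction_linear with
  | zero => exact ⟨0, by rw [Op_zero, mul_zero]⟩
  | add h h' e e' =>
    obtain ⟨k, hk⟩ := e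
    obtain ⟨k', hk'⟩ := e'
    exact ⟨k + k', by rw [Op_add, mul_add, hk, hk', Op_add]⟩
  | single k q =>
    refine ⟨Finsupp.single k (p * q), ?_⟩
    rw [Op_single, Op_single, ← mul_assoc]
    congr 1
    apply LinearMap.ext
    intro u
    change p * (q * u) = p * q * u
    rw [mul_assoc]

theorem δ_mul_Op (h : ℕ →₀ Φ) : ∃ h', δ * Op h = Op h' := by
  induction h using Finsupp.induction_linear with
  | zero => exact ⟨0, by rw [Op_zero, mul_zero]⟩
  | add h h' e e' =>
    obtain ⟨k, hk⟩ := e
    obtain ⟨k', hk'⟩ := e'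
    exact ⟨k + k', by rw [Op_add, mul_add, hk, hk', Op_add]⟩
  | single k p =>
    obtain ⟨c, q, hq⟩ := δ_mul p
    refine ⟨Finsupp.single (k + 1) (c • 1) + Finsupp.single k q, ?_⟩
    rw [Op_add, Op_single, Op_single, Op_single]
    apply LinearMap.ext
    intro u
    rw [pow_succ' δ k]
    change δ (p * (δ ^ k) u) = (c • 1) * (δ ((δ ^ k) u)) + q * (δ ^ k) u
    rw [hq, smul_mul_assoc, one_mul]

theorem δ_pow_mul_Op (k : ℕ) (h : ℕ →₀ Φ) : ∃ h', δ ^ k * Op h = Op h' := by
  induction k with
  | zero => exact ⟨h, by rw [pow_zero, one_mul]⟩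
  | succ k ih =>
    obtain ⟨h', hh'⟩ := ih
    rw [pow_succ', mul_assoc, hh']
    exact δ_mul_Op h'

theorem Op_mul_Op (h g : ℕ →₀ Φ) : ∃ h', Op h * Op g = Op h' := by
  induction h using Finsupp.induction_linear with
  | zero => exact ⟨0, by rw [Op_zero, zero_mul]⟩
  | add h h' e e' =>
    obtain ⟨k, hk⟩ := e
    obtain ⟨k', hk'⟩ := e'
    exact ⟨k + k', by rw [Op_add, add_mul, hk, hk', Op_add]⟩
  | single k p =>
    obtain ⟨h', hh'⟩ := δ_pow_mul_Op k g
    rw [Op_single, mul_assoc, hh']
    exact mulLeft_mul_Op p h'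

/-- The algebra `T` of all operators `∑ h_k δ^k`. -/
def T : Subalgebra ℚ (Module.End ℚ Φ) where
  carrier := {t | ∃ h, t = Op h}
  mul_mem' := by
    rintro _ _ ⟨h, rfl⟩ ⟨g, rfl⟩
    exact Op_mul_Op h g
  add_mem' := by
    rintro _ _ ⟨h, rfl⟩ ⟨g, rfl⟩
    exact ⟨h + g, (Op_add h g).symm⟩
  algebraMap_mem' r := ⟨Finsupp.single 0 (r • 1), by
    rw [Op_single]
    apply LinearMap.ext
    intro u
    change r • u = (r • 1) * u
    rw [smul_mul_assoc, one_mul]⟩

/-- The element `a` of `T`. -/
def a : T := ⟨δ, Finsupp.single 1 1, by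
  rw [Op_single]
  apply LinearMap.ext
  intro u
  change δ u = 1 * (δ ^ 1) u
  rw [one_mul, pow_one]⟩

/-- The element `y` of `T`. -/
def y : T := ⟨LinearMap.mulLeft ℚ Y, Finsupp.single 0 Y, by
  rw [Op_single, pow_zero, mul_one]⟩

theorem rel : a = a ^ 2 * y := by
  apply Subtype.ext
  apply LinearMap.ext
  intro u
  have : ((a ^ 2 * y : T) : Module.End ℚ Φ) u = δ (δ (Y * u)) := rfl
  rw [this, δ_Y_mul, δ_E_mul]; rfl

theorem E_ne_zero : E ≠ 0 := by
  rw [E]
  exact single_ne_zero.mpr one_ne_zero

theorem Op_shift (h : ℕ →₀ Φ) : Op h = LinearMap.mulLeft ℚ (h 0) +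
    Op (h.comapDomain Nat.succ Nat.succ_injective.injOn) * δ := by
  induction h using Finsupp.induction_linear with
  | zero =>
    have : ((0 : ℕ →₀ Φ).comapDomain Nat.succ Nat.succ_injective.injOn) = 0 := by
      ext n; rfl
    rw [this, Op_zero, zero_mul, add_zero]
    apply LinearMap.ext
    intro u
    change (0 : Φ) = 0 * u
    rw [zero_mul]
  | add h h' e e' =>
    have : ((h + h').comapDomain Nat.succ Nat.succ_injective.injOn) =
        h.comapDomain Nat.succ Nat.succ_injective.injOn +
          h'.comapDomain Nat.succ Nat.succ_injective.injOn := by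
      apply Finsupp.ext; intro n; rfl
    rw [Op_add, e, e', this, Op_add, add_mul, Finsupp.add_apply]
    have h2 : LinearMap.mulLeft ℚ (h 0 + h' 0) =
        LinearMap.mulLeft ℚ (h 0) + LinearMap.mulLeft ℚ (h' 0) := by
      apply LinearMap.ext
      intro u
      exact add_mul _ _ _
    rw [h2, ← e, ← e', e, e']; abel
  | single k p =>
    cases k with
    | zero =>
      have : ((Finsupp.single 0 p).comapDomain Nat.succ Nat.succ_injective.injOn) = 0 := by
        apply Finsupp.ext; intro n
        rw [Finsupp.comapDomain_apply, Finsupp.single_apply, if_neg (by omega)]; rfl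
      rw [this, Op_zero, zero_mul, add_zero, Finsupp.single_eq_same, Op_single, pow_zero, mul_one]
    | succ k =>
      have : ((Finsupp.single (k + 1) p).comapDomain Nat.succ Nat.succ_injective.injOn) =
          Finsupp.single k p := by
        apply Finsupp.ext; intro n
        rw [Finsupp.comapDomain_apply, Finsupp.single_apply, Finsupp.single_apply]
        simp
      rw [this, Op_single, Op_single, Finsupp.single_eq_of_ne (by omega), pow_succ, mul_assoc]
      have h2 : LinearMap.mulLeft ℚ (0 : Φ) = 0 := by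
        apply LinearMap.ext
        intro u
        exact zero_mul _
      rw [h2, zero_add]

/-- An element of `T` outside `T a` acts injectively. -/
theorem injective_of_not_mem (t : T) (ht : ¬ ∃ s : T, t = s * a) (u : Φ)
    (hu : (t : Module.End ℚ Φ) u = 0) : u = 0 := by
  obtain ⟨t, h, rfl⟩ := t
  apply Op_injective h _ u hu
  intro h0
  apply ht
  refine ⟨⟨Op (h.comapDomain Nat.succ Nat.succ_injective.injOn), _, rfl⟩, ?_⟩
  apply Subtype.ext
  change Op h = Op (h.comapDomain Nat.succ Nat.succ_injective.injOn) * δ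
  have h2 : LinearMap.mulLeft ℚ (0 : Φ) = 0 := by
    apply LinearMap.ext
    intro u
    exact zero_mul _
  conv_lhs => rw [Op_shift h, h0, h2, zero_add]

/-- Right cancellation: if `t ∉ T a` and `t g = 0` then `g = 0`. -/
theorem eq_zero_of_mul (t g : T) (ht : ¬ ∃ s : T, t = s * a) (h : t * g = 0) : g = 0 := by
  apply Subtype.ext
  apply LinearMap.ext
  intro u
  apply injective_of_not_mem t ht
  have : ((t * g : T) : Module.End ℚ Φ) u = 0 := by rw [h]; rfl
  exact this

theorem not_mem_sq : ¬ ∃ s : T, a = s * a ^ 2 := by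
  rintro ⟨s, hs⟩
  have h1 : ((a : T) : Module.End ℚ Φ) Y = ((s * a ^ 2 : T) : Module.End ℚ Φ) Y := by rw [← hs]
  have h2 : ((s * a ^ 2 : T) : Module.End ℚ Φ) Y = (s : Module.End ℚ Φ) (δ (δ Y)) := rfl
  have h3 : ((a : T) : Module.End ℚ Φ) Y = δ Y := rfl
  have h4 : δ Y = E := by
    have := δ_Y_mul 1
    rwa [mul_one, mul_one] at this
  rw [h2, h3, h4, δ_E, map_zero] at h1
  exact E_ne_zero h1

theorem ay_ne_one : a * y ≠ 1 := by
  intro h
  have h1 : ((a * y : T) : Module.End ℚ Φ) Y = Y := by rw [h]; rfl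
  have h2 : ((a * y : T) : Module.End ℚ Φ) Y = δ (Y * Y) := rfl
  rw [h2, δ_Y_mul, Y, E, single_mul_single] at h1
  have h3 := congrArg (fun u : Φ => u.coeff ly) h1
  simp only [MonoidAlgebra.coeff_single] at h3
  rw [Finsupp.single_eq_same, Finsupp.single_eq_of_ne] at h3
  · exact zero_ne_one h3
  · intro h4
    have := congrArg (fun w : W => w.toList.length) h4
    simp only [FreeMonoid.toList_mul, FreeMonoid.toList_of] at this
    simp at this

/-- `t` is represented by a sum `∑_{k < N} h_k δ^k`. -/
def Bdd (N : ℕ) (t : T) : Prop := ∃ h : ℕ →₀ Φ, (t : Module.End ℚ Φ) = Op h ∧ ∀ k, N ≤ k → h k = 0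

theorem Bdd_zero (t : T) (h : Bdd 0 t) : t = 0 := by
  obtain ⟨h, hh, h0⟩ := h
  have : h = 0 := by apply Finsupp.ext; intro k; exact h0 k (Nat.zero_le _)
  apply Subtype.ext
  rw [hh, this, Op_zero]; rfl

theorem Bdd_zero' (N : ℕ) : Bdd N 0 := ⟨0, by rw [Op_zero]; rfl, fun _ _ => rfl⟩

theorem Bdd_mono {M N : ℕ} (hMN : M ≤ N) (t : T) (h : Bdd M t) : Bdd N t := by
  obtain ⟨h, hh, h0⟩ := h
  exact ⟨h, hh, fun k hk => h0 k (hMN.trans hk)⟩

theorem exists_Bdd (t : T) : ∃ N, Bdd N t := by
  obtain ⟨t, h, hh⟩ := t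
  refine ⟨(h.support.sup id) + 1, h, hh, fun k hk => ?_⟩
  by_contra h0
  have : k ≤ h.support.sup id := Finset.le_sup (f := id) (Finsupp.mem_support_iff.mpr h0)
  omega

theorem Bdd_step (N : ℕ) (t s : T) (h : Bdd (N + 1) t) (hs : t = s * a) :
    ∃ s' : T, t = s' * a ∧ Bdd N s' := by
  obtain ⟨h, hh, h0⟩ := h
  have h00 : h 0 = 0 := by
    rw [← Op_one, ← hh, hs]
    change (s : Module.End ℚ Φ) (δ 1) = 0
    rw [δ_one, map_zero]
  refine ⟨⟨Op (h.comapDomain Nat.succ Nat.succ_injective.injOn), _, rfl⟩, ?_, _, rfl, ?_⟩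
  · apply Subtype.ext
    rw [hh]
    change Op h = Op (h.comapDomain Nat.succ Nat.succ_injective.injOn) * δ
    have h2 : LinearMap.mulLeft ℚ (0 : Φ) = 0 := by
      apply LinearMap.ext
      intro u
      exact zero_mul _
    conv_lhs => rw [Op_shift h, h00, h2, zero_add]
  · intro k hk
    exact h0 (k + 1) (by omega)

/-- The algebra `T` as a type. -/
def TT : Type := T

instance : Ring TT := inferInstanceAs (Ring T)
instance : Algebra ℚ TT := inferInstanceAs (Algebra ℚ T)

/-! ### Polynomials over a ring with the properties of `T` -/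

section Generic

open Polynomial

variable {A : Type*} [Ring A] [Algebra ℚ A]

/-- The subspace `A a`. -/
def Ta (a : A) : Submodule ℚ A where
  carrier := {t | ∃ s : A, t = s * a}
  add_mem' := by
    rintro _ _ ⟨s, rfl⟩ ⟨s', rfl⟩
    exact ⟨s + s', (add_mul _ _ _).symm⟩
  zero_mem' := ⟨0, (zero_mul _).symm⟩
  smul_mem' := by
    rintro r _ ⟨s, rfl⟩
    exact ⟨r • s, (smul_mul_assoc _ _ _).symm⟩

theorem interp (V : Submodule ℚ A) (f : A[X])
    (h : {r : ℚ | f.eval (algebraMap ℚ A r) ∈ V}.Infinite) (j : ℕ) : f.coeff j ∈ V := by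
  rw [← Submodule.Quotient.mk_eq_zero]
  rw [← Module.forall_dual_apply_eq_zero_iff ℚ]
  intro ψ
  let P : ℚ[X] := ∑ i ∈ Finset.range (f.natDegree + 1),
    monomial i (ψ (Submodule.Quotient.mk (f.coeff i)))
  have hP : P = 0 := by
    apply Polynomial.eq_zero_of_infinite_isRoot
    apply h.mono
    intro r hr
    change P.eval r = 0
    have h1 : P.eval r = ψ (Submodule.Quotient.mk (f.eval (algebraMap ℚ A r))) := by
      rw [Polynomial.eval_eq_sum_range (p := f), ← Submodule.mkQ_apply, map_sum, map_sum]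
      simp only [P, Polynomial.eval_finsetSum, Polynomial.eval_monomial]
      apply Finset.sum_congr rfl
      intro i _
      have : f.coeff i * algebraMap ℚ A r ^ i = r ^ i • f.coeff i := by
        rw [← map_pow, ← Algebra.commutes, ← Algebra.smul_def]
      rw [this, map_smul, map_smul, smul_eq_mul, mul_comm]; rfl
    rw [h1, (Submodule.Quotient.mk_eq_zero V).mpr hr, map_zero]
  have h2 : P.coeff j = ψ (Submodule.Quotient.mk (f.coeff j)) := by
    simp only [P, Polynomial.finsetSum_coeff, Polynomial.coeff_monomial]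
    rw [Finset.sum_ite_eq' (Finset.range (f.natDegree + 1)) j]
    split_ifs with hj
    · rfl
    · rw [Finset.mem_range, not_lt] at hj
      rw [Polynomial.coeff_eq_zero_of_natDegree_lt (by omega)]
      have : (Submodule.Quotient.mk (0 : A) : A ⧸ V) = 0 := rfl
      rw [this, map_zero]
  rw [← h2, hP, Polynomial.coeff_zero]

/-- The evaluation homomorphism at a rational number. -/
def ev (r : ℚ) : A[X] →+* A :=
  Polynomial.eval₂RingHom' (RingHom.id A) (algebraMap ℚ A r)
    (fun t => (Algebra.commutes r t).symm)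

theorem ev_apply (r : ℚ) (f : A[X]) : ev r f = f.eval (algebraMap ℚ A r) := rfl

variable {a y : A} (hrel : a = a ^ 2 * y)
  (H : ∀ t g : A, (¬ ∃ s : A, t = s * a) → t * g = 0 → g = 0)

include H

/-- If `f g = 0` and `g ≠ 0` then all coefficients of `f` lie in `T a`. -/
theorem coeff_mem (f g : A[X]) (hg : g ≠ 0) (hfg : f * g = 0) (j : ℕ) :
    ∃ s : A, f.coeff j = s * a := by
  have hfin : {r : ℚ | g.eval (algebraMap ℚ A r) ∈ (⊥ : Submodule ℚ A)}.Finite := by
    by_contra h
    apply hg
    ext1 i
    have := interp ⊥ g h i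
    rw [Submodule.mem_bot] at this
    rw [this, Polynomial.coeff_zero]
  have hinf : {r : ℚ | g.eval (algebraMap ℚ A r) ∈ (⊥ : Submodule ℚ A)}ᶜ.Infinite :=
    hfin.infinite_compl
  refine interp (Ta a) f (hinf.mono ?_) j
  intro r hr
  by_contra hmem
  apply hr
  change g.eval (algebraMap ℚ A r) ∈ (⊥ : Submodule ℚ A)
  rw [Submodule.mem_bot]
  apply H (f.eval (algebraMap ℚ A r)) _ hmem
  rw [← ev_apply, ← ev_apply, ← map_mul, hfg, map_zero]

theorem left_annihilator (B : ℕ → A → Prop) (hB0 : ∀ t, B 0 t → t = 0) (hB0' : ∀ N, B N 0)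
    (hBs : ∀ N t s, B (N + 1) t → t = s * a → ∃ s', t = s' * a ∧ B N s') (N : ℕ) :
    ∀ f g : A[X], f ≠ 0 → (∀ j, B N (f.coeff j)) → f * g = 0 → ∃ k : ℕ, C (a ^ k) * g = 0 := by
  induction N with
  | zero =>
    intro f g hf hb _
    exfalso
    apply hf
    ext1 j
    rw [hB0 _ (hb j), Polynomial.coeff_zero]
  | succ N ih =>
    intro f g hf hb hfg
    by_cases hg : g = 0
    · exact ⟨0, by rw [hg, mul_zero]⟩
    -- the quotients of the coefficients
    have hq : ∀ j, ∃ s : A, f.coeff j = s * a ∧ B N s := by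
      intro j
      obtain ⟨s, hs⟩ := coeff_mem H f g hg hfg j
      exact hBs N _ s (hb j) hs
    choose s hs hsb using hq
    let f' : A[X] := ∑ j ∈ Finset.range (f.natDegree + 1), monomial j (s j)
    have hf' : f = f' * C a := by
      conv_lhs => rw [f.as_sum_range' (f.natDegree + 1) (Nat.lt_succ_self _)]
      simp only [f', Finset.sum_mul, monomial_mul_C]
      apply Finset.sum_congr rfl
      intro j _
      rw [← hs]
    have hf'0 : f' ≠ 0 := by
      intro h
      apply hf
      rw [hf', h, zero_mul]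
    have hcoeff : ∀ j, B N (f'.coeff j) := by
      intro j
      simp only [f', Polynomial.finsetSum_coeff, Polynomial.coeff_monomial]
      rw [Finset.sum_ite_eq' (Finset.range (f.natDegree + 1)) j]
      split_ifs
      · exact hsb j
      · exact hB0' N
    obtain ⟨k, hk⟩ := ih f' (C a * g) hf'0 hcoeff (by rw [← mul_assoc, ← hf', hfg])
    refine ⟨k + 1, ?_⟩
    rw [pow_succ, C_mul, mul_assoc, hk]

omit H
include hrel

theorem pow_ne_zero_of (ha : a ≠ 0) (k : ℕ) : a ^ k ≠ 0 := by
  induction k with
  | zero =>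
    rw [pow_zero]
    intro h
    apply ha
    rw [← one_mul a, h, zero_mul]
  | succ k ih =>
    intro h
    cases k with
    | zero => rw [zero_add, pow_one] at h; exact ha h
    | succ k =>
      apply ih
      have : a ^ (k + 1) = a ^ (k + 1 + 1) * y := by
        calc a ^ (k + 1) = a ^ k * a := pow_succ a k
          _ = a ^ k * (a ^ 2 * y) := by rw [← hrel]
          _ = a ^ (k + 1 + 1) * y := by rw [← mul_assoc, ← pow_add]
      rw [this, h, zero_mul]

include H

/-- Right and left McCoy conditions. -/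
theorem mccoy (ha : a ≠ 0) (hay : a * y ≠ 1) (B : ℕ → A → Prop) (hB0 : ∀ t, B 0 t → t = 0)
    (hB0' : ∀ N, B N 0) (hBm : ∀ M N, M ≤ N → ∀ t, B M t → B N t) (hBe : ∀ t, ∃ N, B N t)
    (hBs : ∀ N t s, B (N + 1) t → t = s * a → ∃ s', t = s' * a ∧ B N s') (f g : A[X])
    (hf : f ≠ 0) (hg : g ≠ 0) (hfg : f * g = 0) :
    (∃ s : A, s ≠ 0 ∧ f * C s = 0) ∧ ∃ s : A, s ≠ 0 ∧ C s * g = 0 := by
  constructor
  · refine ⟨1 - a * y, sub_ne_zero.mpr (Ne.symm hay), ?_⟩
    ext1 j
    rw [Polynomial.coeff_mul_C, Polynomial.coeff_zero]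
    obtain ⟨s, hs⟩ := coeff_mem H f g hg hfg j
    rw [hs, mul_assoc, mul_sub, mul_one, ← mul_assoc, ← pow_two, ← hrel, sub_self, mul_zero]
  · choose N hN using fun j => hBe (f.coeff j)
    obtain ⟨k, hk⟩ := left_annihilator H B hB0 hB0' hBs
      ((Finset.range (f.natDegree + 1)).sup N) f g hf (fun j => by
        by_cases hj : j < f.natDegree + 1
        · exact hBm _ _ (Finset.le_sup (f := N) (Finset.mem_range.mpr hj)) _ (hN j)
        · rw [Polynomial.coeff_eq_zero_of_natDegree_lt (by omega)]
          exact hB0' _) hfg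
    exact ⟨a ^ k, pow_ne_zero_of hrel ha k, hk⟩

end Generic

/-- The element `a`. -/
def a' : TT := a

/-- The element `y`. -/
def y' : TT := y

theorem rel' : a' = a' ^ 2 * y' := rel

theorem not_mem_sq' : ¬ ∃ s : TT, a' = s * a' ^ 2 := not_mem_sq

open Polynomial in
theorem mccoy' (f g : TT[X]) (hf : f ≠ 0) (hg : g ≠ 0) (hfg : f * g = 0) :
    (∃ s : TT, s ≠ 0 ∧ f * C s = 0) ∧ ∃ s : TT, s ≠ 0 ∧ C s * g = 0 := by
  refine mccoy (a := a') (y := y') rel' (fun t g ht h => eq_zero_of_mul t g ht h) ?_ ay_ne_one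
    (fun N t => Bdd N t) Bdd_zero Bdd_zero' (fun M N h t => Bdd_mono h t) exists_Bdd
    (fun N t s => Bdd_step N t s) f g hf hg hfg
  intro h
  apply not_mem_sq'
  exact ⟨0, by rw [h]; simp⟩

end Q10.McCoy
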