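import Mathlib
import Pool.Agent.Q10.Fam

/-!
# The quotient `M_3(L(1,10))` over `ℤ/3`: it has the family, but its free module of rank one is not
isomorphic to the free module of rank two
-/

open Finset

noncomputable section

namespace Q10.NotDoubles

open Q10.LeavittNine Q10.Fam

/-- The homogeneous element. -/
def hm (d : ℤ) (s : Op) (hs : s ∈ Ed d) : C := DirectSum.of (fun d => Ed d) d ⟨s, hs⟩

theorem hm_congr {d e : ℤ} {s t : Op} (hs : s ∈ Ed d) (ht : t ∈ Ed e) (h : s = t) (hde : d = e) :
    hm d s hs = hm e t ht := by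
  subst h
  subst hde
  rfl

theorem hm_mul {d e : ℤ} {s t : Op} (hs : s ∈ Ed d) (ht : t ∈ Ed e) :
    hm d s hs * hm e t ht = hm (d + e) (s * t) (Hom.mul hs ht) := by
  rw [hm, hm, DirectSum.of_mul_of]
  rfl

theorem hm_zero' {d : ℤ} {s : Op} (hs : s ∈ Ed d) (h : s = 0) : hm d s hs = 0 := by
  subst h
  rw [hm]
  exact map_zero _

theorem hm_sum {ι : Type} (K : Finset ι) (d : ℤ) (s : ι → Op) (hs : ∀ i, s i ∈ Ed d) :
    ∑ i ∈ K, hm d (s i) (hs i) = hm d (∑ i ∈ K, s i) (sum_mem fun i _ => hs i) := by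
  simp only [hm]
  rw [← map_sum]
  congr 1
  apply Subtype.ext
  rw [AddSubmonoidClass.coe_finsetSum]

/-- Matrix units as operators. -/
def M (P Q i j : ℕ) : Op := L P Q (fun a b => if a = i ∧ b = j then 1 else 0)

theorem M_apply {P Q i j : ℕ} (hj : j < Q) (f : V) (m : ℕ) :
    M P Q i j f m = if m % P = i then f (Q * (m / P) + j) else 0 := by
  rw [M, L_apply, Finset.sum_eq_single j]
  · by_cases h : m % P = i
    · rw [if_pos ⟨h, rfl⟩, if_pos h, one_mul]
    · rw [if_neg (fun h' => h h'.1), if_neg h, zero_mul]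
  · intro b _ hb
    rw [if_neg (fun h => hb h.2), zero_mul]
  · intro h
    exact absurd (Finset.mem_range.mpr hj) h

theorem N0 : N 0 = 3 := rfl
theorem N1 : N 1 = 30 := rfl

/-- The operators. -/
def xd (d : Fin 10) : Op := M (N 1) (N 0) (3 * d) 0
def yd (d : Fin 10) : Op := M (N 0) (N 1) 0 (3 * d)
def xi (i : Fin 2) : Op := M (N 0) (N 0) (i + 1) 0
def yi (i : Fin 2) : Op := M (N 0) (N 0) 0 (i + 1)
def ww : Op := M (N 0) (N 0) 0 0

theorem M_hom {p q : ℕ} {d : ℤ} (h : (p : ℤ) = q + d) (i j : ℕ) : M (N p) (N q) i j ∈ Ed d :=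
  ⟨p, q, h, fun a b => if a = i ∧ b = j then 1 else 0, rfl⟩

theorem xd_mem (d : Fin 10) : xd d ∈ Ed 1 := M_hom (by simp) _ _
theorem yd_mem (d : Fin 10) : yd d ∈ Ed (-1) := M_hom (by simp) _ _
theorem xi_mem (i : Fin 2) : xi i ∈ Ed 0 := M_hom (by simp) _ _
theorem yi_mem (i : Fin 2) : yi i ∈ Ed 0 := M_hom (by simp) _ _
theorem ww_mem : ww ∈ Ed 0 := M_hom (by simp) _ _

theorem mul_mem_zero {d e : ℤ} (h : d + e = 0) {s t : Op} (hs : s ∈ Ed d) (ht : t ∈ Ed e) :
    s * t ∈ Ed 0 := h ▸ Hom.mul hs ht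

theorem hm_mul_zero {d e : ℤ} (h : d + e = 0) {s t : Op} (hs : s ∈ Ed d) (ht : t ∈ Ed e) :
    hm d s hs * hm e t ht = hm 0 (s * t) (mul_mem_zero h hs ht) := by
  rw [hm_mul]
  exact hm_congr _ _ rfl h

theorem xd_apply (d : Fin 10) (f : V) (m : ℕ) :
    xd d f m = if m % 30 = 3 * d then f (3 * (m / 30)) else 0 := by
  rw [xd, M_apply (by rw [N0]; norm_num), N0, N1, add_zero]

theorem yd_apply (d : Fin 10) (f : V) (m : ℕ) :
    yd d f m = if m % 3 = 0 then f (30 * (m / 3) + 3 * d) else 0 := by
  rw [yd, M_apply (by rw [N1]; omega), N0, N1]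

theorem xi_apply (i : Fin 2) (f : V) (m : ℕ) :
    xi i f m = if m % 3 = i + 1 then f (3 * (m / 3)) else 0 := by
  rw [xi, M_apply (by rw [N0]; norm_num), N0, add_zero]

theorem yi_apply (i : Fin 2) (f : V) (m : ℕ) :
    yi i f m = if m % 3 = 0 then f (3 * (m / 3) + (i + 1)) else 0 := by
  rw [yi, M_apply (by rw [N0]; omega), N0]

theorem ww_apply (f : V) (m : ℕ) : ww f m = if m % 3 = 0 then f m else 0 := by
  rw [ww, M_apply (by rw [N0]; norm_num), N0, add_zero]
  split_ifs with h
  · congr 1; omega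
  · rfl

theorem yd_xd (d e : Fin 10) : yd d * xd e = if d = e then ww else 0 := by
  apply LinearMap.ext
  intro f
  funext m
  rw [Module.End.mul_apply, yd_apply]
  by_cases h : d = e
  · subst h
    rw [if_pos rfl, ww_apply]
    split_ifs with h1
    · rw [xd_apply, if_pos (by omega)]
      congr 1
      omega
    · rfl
  · rw [if_neg h]
    have h' : (d : ℕ) ≠ e := fun h' => h (Fin.ext h')
    split_ifs with h1
    · rw [xd_apply, if_neg (by omega)]
      rfl
    · rfl

theorem yd_xi (d : Fin 10) (i : Fin 2) : yd d * xi i = 0 := by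
  apply LinearMap.ext
  intro f
  funext m
  rw [Module.End.mul_apply, yd_apply]
  split_ifs with h1
  · rw [xi_apply, if_neg (by omega)]
    rfl
  · rfl

theorem yi_xd (i : Fin 2) (d : Fin 10) : yi i * xd d = 0 := by
  apply LinearMap.ext
  intro f
  funext m
  rw [Module.End.mul_apply, yi_apply]
  split_ifs with h1
  · rw [xd_apply, if_neg (by omega)]
    rfl
  · rfl

theorem yi_xi (i j : Fin 2) : yi i * xi j = if i = j then ww else 0 := by
  apply LinearMap.ext
  intro f
  funext m
  rw [Module.End.mul_apply, yi_apply]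
  by_cases h : i = j
  · subst h
    rw [if_pos rfl, ww_apply]
    split_ifs with h1
    · rw [xi_apply, if_pos (by omega)]
      congr 1
      omega
    · rfl
  · rw [if_neg h]
    have h' : (i : ℕ) ≠ j := fun h' => h (Fin.ext h')
    split_ifs with h1
    · rw [xi_apply, if_neg (by omega)]
      rfl
    · rfl

theorem sum_xd_yd : ∑ d, xd d * yd d = ww := by
  apply LinearMap.ext
  intro f
  funext m
  rw [LinearMap.sum_apply, Finset.sum_apply, ww_apply]
  have h1 : ∀ d : Fin 10, (xd d * yd d) f m = if m % 30 = 3 * d then f m else 0 := by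
    intro d
    rw [Module.End.mul_apply, xd_apply]
    split_ifs with h
    · rw [yd_apply, if_pos (by omega)]
      congr 1
      omega
    · rfl
  rw [Finset.sum_congr rfl fun d _ => h1 d]
  split_ifs with h
  · rw [Finset.sum_eq_single (⟨m % 30 / 3, by omega⟩ : Fin 10)]
    · rw [if_pos (by simp; omega)]
    · intro d _ hd
      rw [if_neg]
      intro h2
      apply hd
      apply Fin.ext
      simp
      omega
    · intro h; exact absurd (Finset.mem_univ _) h
  · apply Finset.sum_eq_zero
    intro d _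
    rw [if_neg (by omega)]

theorem sum_xi_yi : ww + ∑ i, xi i * yi i = 1 := by
  apply LinearMap.ext
  intro f
  funext m
  have h1 : ∀ i : Fin 2, (xi i * yi i) f m = if m % 3 = i + 1 then f m else 0 := by
    intro d
    rw [Module.End.mul_apply, xi_apply]
    split_ifs with h
    · rw [yi_apply, if_pos (by omega)]
      congr 1
      omega
    · rfl
  rw [LinearMap.add_apply, Pi.add_apply, LinearMap.sum_apply, Finset.sum_apply, ww_apply,
    Finset.sum_congr rfl fun d _ => h1 d, Fin.sum_univ_two, Module.End.one_apply]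
  have : m % 3 < 3 := Nat.mod_lt _ (by norm_num)
  simp only [Fin.val_zero, Fin.val_one]
  rcases (by omega : m % 3 = 0 ∨ m % 3 = 1 ∨ m % 3 = 2) with h | h | h <;> simp [h]

theorem hw : ∑ d : Fin 10, hm 1 (xd d) (xd_mem d) * hm (-1) (yd d) (yd_mem d) =
    hm 0 ww ww_mem := by
  rw [Finset.sum_congr rfl fun d _ => hm_mul_zero (by norm_num) (xd_mem d) (yd_mem d), hm_sum]
  exact hm_congr _ _ sum_xd_yd rfl

theorem hw' : ∑ i : Fin 2, hm 0 (xi i) (xi_mem i) * hm 0 (yi i) (yi_mem i) =
    hm 0 (∑ i, xi i * yi i) (sum_mem fun i _ => mul_mem_zero (by norm_num) (xi_mem i)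
      (yi_mem i)) := by
  rw [Finset.sum_congr rfl fun d _ => hm_mul_zero (by norm_num) (xi_mem d) (yi_mem d), hm_sum]

theorem hm_add {s t : Op} (hs : s ∈ Ed 0) (ht : t ∈ Ed 0) :
    hm 0 s hs + hm 0 t ht = hm 0 (s + t) (add_mem hs ht) := by
  simp only [hm]
  rw [← map_add]
  rfl

/-- The family in `C`. -/
def FC : Fam (Fin 10) (Fin 2) C where
  X := Sum.elim (fun d => hm 1 (xd d) (xd_mem d)) (fun i => hm 0 (xi i) (xi_mem i))
  Y := Sum.elim (fun d => hm (-1) (yd d) (yd_mem d)) (fun i => hm 0 (yi i) (yi_mem i))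
  YX := by
    rintro (d | i) (e | j)
    · simp only [Sum.elim_inl, Sum.inl.injEq]
      rw [hw, hm_mul_zero (by norm_num)]
      by_cases h : d = e
      · rw [if_pos h]
        refine hm_congr _ _ ?_ rfl
        rw [yd_xd, if_pos h]
      · rw [if_neg h]
        refine hm_zero' _ ?_
        rw [yd_xd, if_neg h]
    · simp only [Sum.elim_inl, Sum.elim_inr, hm_mul]
      rw [if_neg (by simp)]
      exact hm_zero' _ (yd_xi d j)
    · simp only [Sum.elim_inl, Sum.elim_inr, hm_mul]
      rw [if_neg (by simp)]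
      exact hm_zero' _ (yi_xd i e)
    · simp only [Sum.elim_inl, Sum.elim_inr, Sum.inr.injEq]
      rw [hw, hm_mul_zero (by norm_num)]
      by_cases h : i = j
      · rw [if_pos h]
        refine hm_congr _ _ ?_ rfl
        rw [yi_xi, if_pos h]
      · rw [if_neg h]
        refine hm_zero' _ ?_
        rw [yi_xi, if_neg h]
  XY := by
    rw [Fintype.sum_sum_type]
    simp only [Sum.elim_inl, Sum.elim_inr]
    rw [hw, hw', hm_add]
    exact hm_congr _ Hom.one sum_xi_yi rfl

/-! ### Reduction modulo three -/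

section Red

variable {R : Type} [Ring R]

theorem three_comm (t : R) : t * 3 = 3 * t := (Nat.cast_commute 3 t).symm

theorem three_left_comm (y t : R) : y * (3 * t) = 3 * (y * t) := by
  rw [← mul_assoc, three_comm, mul_assoc]

variable (R) in
/-- Congruence modulo three. -/
def con : RingCon R where
  r x y := ∃ z, x - y = 3 * z
  iseqv :=
    { refl := fun x => ⟨0, by rw [sub_self, mul_zero]⟩
      symm := by
        rintro x y ⟨z, hz⟩
        exact ⟨-z, by rw [mul_neg, ← hz, neg_sub]⟩
      trans := by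
        rintro x y t ⟨z, hz⟩ ⟨z', hz'⟩
        exact ⟨z + z', by rw [mul_add, ← hz, ← hz']; abel⟩ }
  add' := by
    rintro x y x' y' ⟨z, hz⟩ ⟨z', hz'⟩
    exact ⟨z + z', by rw [mul_add, ← hz, ← hz']; abel⟩
  mul' := by
    rintro x y x' y' ⟨z, hz⟩ ⟨z', hz'⟩
    refine ⟨z * x' + y * z', ?_⟩
    calc x * x' - y * y' = (x - y) * x' + y * (x' - y') := by noncomm_ring
      _ = 3 * (z * x' + y * z') := by rw [hz, hz', three_left_comm, mul_add, mul_assoc]

variable (R) in
/-- The quotient. -/
def Cb : Type := (con R).Quotient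

instance : Ring (Cb R) := inferInstanceAs (Ring (con R).Quotient)

variable (R) in
/-- The projection. -/
def π : R →+* Cb R := (con R).mk'

theorem π_surjective : Function.Surjective (π R) := (con R).mk'_surjective

theorem π_eq {x y : R} : π R x = π R y ↔ ∃ z, x - y = 3 * z := by
  change ((x : (con R).Quotient) = y) ↔ _
  rw [RingCon.eq]
  rfl

/-- The family in the quotient. -/
def FCb (F : Fam (Fin 10) (Fin 2) R) : Fam (Fin 10) (Fin 2) (Cb R) where
  X a := π R (F.X a)
  Y a := π R (F.Y a)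
  YX a b := by
    rw [← map_mul, F.YX]
    split_ifs
    · rw [map_sum]
      simp only [map_mul]
    · exact map_zero _
  XY := by
    simp only [← map_mul]
    rw [← map_sum, F.XY, map_one]

variable (h9 : (9 : R) = 0) (τ : R →+ ZMod 9) (hτ : ∀ x y, τ (x * y) = τ (y * x)) (hτ1 : τ 1 = 3)

include h9

theorem h33 (t : R) : 3 * (3 * t) = 0 := by
  rw [← mul_assoc, show (3 : R) * 3 = 9 by norm_num, h9, zero_mul]

include hτ1

theorem one_ne : ¬ ∃ z : R, (1 : R) = 3 * z := by
  rintro ⟨z, hz⟩
  have h1 : (1 : R) = 0 := by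
    calc (1 : R) = 1 * 1 := (one_mul 1).symm
      _ = 3 * z * (3 * z) := by rw [← hz]
      _ = 0 := by rw [three_left_comm, mul_assoc, h33 h9]
  have h2 := congrArg τ h1
  rw [hτ1, map_zero] at h2
  exact absurd h2 (by decide)

theorem charP : CharP (Cb R) 3 where
  cast_eq_zero_iff n := by
    have h0 : ((n : ℕ) : Cb R) = π R (n : R) := (map_natCast (π R) n).symm
    rw [h0, ← map_zero (π R), π_eq, sub_zero]
    constructor
    · rintro ⟨z, hz⟩
      by_contra hn
      have hcop : IsCoprime (n : ℤ) (3 : ℤ) := by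
        rw [show (3 : ℤ) = ((3 : ℕ) : ℤ) by rfl, Nat.isCoprime_iff_coprime]
        exact ((Nat.Prime.coprime_iff_not_dvd Nat.prime_three).mpr hn).symm
      obtain ⟨u, v, huv⟩ := hcop
      apply one_ne h9 τ hτ1
      refine ⟨(u : R) * z + v, ?_⟩
      have h1 := congrArg (fun t : ℤ => (t : R)) huv
      push_cast at h1
      rw [← h1, hz, mul_add, three_left_comm, three_comm]
    · rintro ⟨m, rfl⟩
      exact ⟨m, by push_cast; rfl⟩

include hτ

theorem not_doubles : ¬ Doubles (Cb R) := by
  rintro ⟨a, b, hba, hab⟩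
  choose x hx using fun i => π_surjective (a i)
  choose y hy using fun i => π_surjective (b i)
  -- the errors
  have h1 : ∀ i j, ∃ r, y i * x j = (if i = j then 1 else 0) + 3 * r := by
    intro i j
    have : π R (y i * x j) = π R (if i = j then 1 else 0) := by
      rw [map_mul, hx, hy, hba]
      split_ifs
      · rw [map_one]
      · rw [map_zero]
    obtain ⟨z, hz⟩ := π_eq.mp this
    exact ⟨z, by rw [← hz]; abel⟩
  choose r hr using h1
  obtain ⟨s, hs⟩ : ∃ s, ∑ i, x i * y i = 1 + 3 * s := by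
    have : π R (∑ i, x i * y i) = π R 1 := by
      rw [map_sum, map_one, ← hab]
      refine Finset.sum_congr rfl fun i _ => ?_
      rw [map_mul, hx, hy]
    obtain ⟨z, hz⟩ := π_eq.mp this
    exact ⟨z, by rw [← hz]; abel⟩
  -- corrected inverses: `Y' = Y (1 - 3 s)`
  obtain ⟨y', hy'⟩ : ∃ y' : Fin 2 → R, y' = fun i => y i * (1 - 3 * s) := ⟨_, rfl⟩
  have hs1 : ∑ i, x i * y' i = 1 := by
    simp only [hy', ← mul_assoc]
    rw [← Finset.sum_mul, hs]
    have : (1 + 3 * s) * (1 - 3 * s) = 1 - 3 * (s * (3 * s)) := by noncomm_ring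
    rw [this, three_left_comm, h33 h9, sub_zero]
  have hr1 : ∀ i j, ∃ t, y' i * x j = (if i = j then 1 else 0) + 3 * t := by
    intro i j
    refine ⟨r i j - y i * (s * x j), ?_⟩
    simp only [hy']
    have : y i * (1 - 3 * s) * x j = y i * x j - y i * (3 * (s * x j)) := by noncomm_ring
    rw [this, hr, three_left_comm, mul_sub]
    abel
  choose t ht using hr1
  -- the idempotent matrix `P = Y' X` is the identity
  have hidem : ∀ i j, y' i * x j = ∑ l, y' i * x l * (y' l * x j) := by
    intro i j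
    have : ∀ l, y' i * x l * (y' l * x j) = y' i * (x l * y' l) * x j := fun l => by
      simp only [mul_assoc]
    rw [Finset.sum_congr rfl fun l _ => this l, ← Finset.sum_mul, ← Finset.mul_sum, hs1, mul_one]
  have ht0 : ∀ i j, 3 * t i j = 0 := by
    intro i j
    have h5 := hidem i j
    have h6 : ∀ l, y' i * x l * (y' l * x j) =
        (if i = l then (y' l * x j) else 0) + (if l = j then 3 * t i l else 0) := by
      intro l
      rw [ht i l, ht l j]
      have h7 : 3 * t i l * (3 * t l j) = 0 := by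
        rw [three_left_comm, mul_assoc, h33 h9]
      by_cases h1 : i = l <;> by_cases h2 : l = j
      · simp only [if_pos h1, if_pos h2]
        rw [add_mul, one_mul, mul_add, mul_one, h7, add_zero]
      · simp only [if_pos h1, if_neg h2]
        rw [add_mul, one_mul, mul_add, mul_zero, h7, add_zero]
      · simp only [if_neg h1, if_pos h2]
        rw [zero_add, mul_add, mul_one, h7, add_zero]
      · simp only [if_neg h1, if_neg h2]
        rw [zero_add, zero_add, h7, add_zero]
    rw [Finset.sum_congr rfl fun l _ => h6 l, Finset.sum_add_distrib, Finset.sum_ite_eq,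
      Finset.sum_ite_eq', if_pos (Finset.mem_univ _), if_pos (Finset.mem_univ _)] at h5
    exact left_eq_add.mp h5
  have hyx : ∀ i, y' i * x i = 1 := by
    intro i
    rw [ht, if_pos rfl, ht0, add_zero]
  -- traces
  have htr : τ (∑ i, x i * y' i) = ∑ i : Fin 2, τ (y' i * x i) := by
    rw [map_sum]
    exact Finset.sum_congr rfl fun i _ => hτ _ _
  rw [hs1, Fin.sum_univ_two, hyx, hyx, hτ1] at htr
  exact absurd htr (by decide)

end Red

theorem nine' : (9 : C) = 0 := by
  have := nine 1
  rwa [mul_one] at this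

/-- The algebra over `ℤ/3`. -/
def Q : Type := Cb C

instance : Ring Q := inferInstanceAs (Ring (Cb C))

instance : CharP Q 3 := charP nine' τ τ_one

instance : Algebra (ZMod 3) Q := ZMod.algebra Q 3

/-- The family. -/
def FQ : Fam (Fin 10) (Fin 2) Q := FCb FC

theorem Q_not_doubles : ¬ Doubles Q := not_doubles nine' τ τ_mul τ_one

end Q10.NotDoubles
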