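import Mathlib

/-!
# Ore extensions

`IsOreExtension σ δ ι x` says that the ring `A`, with the ring homomorphism `ι : R →+* A` and the
element `x : A`, is the Ore extension `R[x; σ, δ]`.  For `δ = 0` we show that it exists.
-/

namespace Q10

/-- `A` (with `ι : R →+* A` and `x : A`) is the Ore extension `R[x; σ, δ]`: one has
`x * r = σ r * x + δ r` for `r` in `R`, and every element of `A` can be written in exactly one way
as a polynomial `∑ i, r i * x ^ i` with coefficients from `R` on the left. -/
structure IsOreExtension {R : Type*} [Ring R] (σ : R →+* R) (δ : R →+ R) {A : Type*} [Ring A]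
    (ι : R →+* A) (x : A) : Prop where
  comm : ∀ r : R, x * ι r = ι (σ r) * x + ι (δ r)
  bijective : Function.Bijective fun p : ℕ →₀ R => p.sum fun i r => ι r * x ^ i

namespace SkewModel

universe u

variable {R : Type u} [Ring R] (σ : R →+* R)

/-- The action of the powers of `σ`. -/
@[reducible] def act : MulSemiringAction (Multiplicative ℕ) R :=
  MulSemiringAction.compHom R (powersHom (R →+* R) σ)

theorem exists_ore : ∃ (A : Type u) (_ : Ring A) (ι : R →+* A) (x : A),
    IsOreExtension σ 0 ι x := by
  let _ := act σ
  refine ⟨SkewPolynomial R, inferInstance, SkewPolynomial.CRingHom, SkewPolynomial.X, ?_, ?_⟩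
  · intro r
    have h1 : (SkewPolynomial.X : SkewPolynomial R) * SkewPolynomial.CRingHom r =
        SkewPolynomial.monomial 1 (SkewPolynomial.φ r) := by
      rw [SkewPolynomial.CRingHom_eq_C, ← SkewPolynomial.monomial_zero_left,
        SkewPolynomial.X_mul_monomial]
    have h2 : (SkewPolynomial.φ r : R) = σ r := by
      change (powersHom (R →+* R) σ (Multiplicative.ofAdd 1)) r = σ r
      rw [powersHom_apply, toAdd_ofAdd, pow_one]
    rw [h1, h2, SkewPolynomial.CRingHom_eq_C, SkewPolynomial.C_mul_X_eq_monomial]
    simp
  · let e : (ℕ →₀ R) ≃+ SkewPolynomial R :=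
      (Finsupp.domCongr Multiplicative.ofAdd).trans
        (SkewMonoidAlgebra.coeffAddEquiv).symm
    have he : (fun p : ℕ →₀ R => p.sum fun i r =>
        SkewPolynomial.CRingHom r * (SkewPolynomial.X : SkewPolynomial R) ^ i) = e := by
      funext p
      induction p using Finsupp.induction_linear with
      | zero => simp
      | add f g hf hg =>
        rw [map_add, Finsupp.sum_add_index', ← hf, ← hg]
        · intro i; simp
        · intro i a b; rw [map_add, add_mul]
      | single i r =>
        rw [Finsupp.sum_single_index (by simp)]
        rw [SkewPolynomial.CRingHom_eq_C, SkewPolynomial.C_mul_X_pow_eq_monomial,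
          SkewPolynomial.monomial_def]
        simp [e]
    rw [he]
    exact e.bijective

end SkewModel

end Q10
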