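import Mathlib

/-!
# Skew Laurent series rings `A((x, φ))`

For a ring `A` and an automorphism `φ` of `A`, `Q10.SkewLaurent φ` is the ring of all formal series
`∑ a_i x^i` (`i ∈ ℤ`, `a_i ∈ A`, `a_i = 0` for `i` small enough), with coefficientwise addition and
with the multiplication determined by `x a = φ(a) x`; i.e. the coefficient of `x^n` in a product
`f g` is the (finite) sum of the `f_i φ^i(g_{n-i})`.
-/

namespace Q10

/-- The skew Laurent series ring `A((x, φ))`: formal series `∑ a_i x^i` over `i ∈ ℤ` with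
`a_i = 0` for all sufficiently small `i`. -/
@[ext] structure SkewLaurent {A : Type*} [Ring A] (φ : A ≃+* A) where
  /-- the coefficient `a_i` of `x^i` -/
  coeff : ℤ → A
  /-- the coefficients vanish for small indices -/
  bdd : ∃ N : ℤ, ∀ n < N, coeff n = 0

/-- A property invariant under `φ` is invariant under all powers of `φ`. -/
theorem zpow_iff {A : Type*} [Ring A] (φ : A ≃+* A) (P : A → Prop) (h : ∀ a, P (φ a) ↔ P a)
    (n : ℤ) (a : A) : P ((φ ^ n) a) ↔ P a := by
  have h' : ∀ a, P ((φ⁻¹ : A ≃+* A) a) ↔ P a := by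
    intro a
    rw [← h ((φ⁻¹ : A ≃+* A) a)]
    have : φ ((φ⁻¹ : A ≃+* A) a) = a := φ.apply_symm_apply a
    rw [this]
  induction n using Int.induction_on generalizing a with
  | zero => simp
  | succ i ih =>
    rw [zpow_add_one]
    exact (ih (φ a)).trans (h a)
  | pred i ih =>
    rw [zpow_sub_one]
    exact (ih ((φ⁻¹ : A ≃+* A) a)).trans (h' a)

namespace SkewLaurent

variable {A : Type*} [Ring A] {φ : A ≃+* A}

instance : Zero (SkewLaurent φ) := ⟨⟨0, 0, fun _ _ => rfl⟩⟩

instance : Add (SkewLaurent φ) := ⟨fun f g => ⟨f.coeff + g.coeff, by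
  obtain ⟨a, ha⟩ := f.bdd
  obtain ⟨b, hb⟩ := g.bdd
  refine ⟨min a b, fun n hn => ?_⟩
  rw [Pi.add_apply, ha n (by omega), hb n (by omega), add_zero]⟩⟩

instance : Neg (SkewLaurent φ) := ⟨fun f => ⟨-f.coeff, by
  obtain ⟨a, ha⟩ := f.bdd
  refine ⟨a, fun n hn => ?_⟩
  rw [Pi.neg_apply, ha n hn, neg_zero]⟩⟩

/-- The series `1`. -/
instance : One (SkewLaurent φ) := ⟨⟨Pi.single 0 1, 0, fun n hn => by
  rw [Pi.single_apply, if_neg (by omega)]⟩⟩

/-- Multiplication: the coefficient of `x^n` in `f g` is `∑ i, f_i φ^i(g_{n-i})`; only finitely many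
summands are nonzero. -/
noncomputable instance : Mul (SkewLaurent φ) :=
  ⟨fun f g => ⟨fun n => ∑ᶠ i : ℤ, f.coeff i * (φ ^ i) (g.coeff (n - i)), by
    obtain ⟨a, ha⟩ := f.bdd
    obtain ⟨b, hb⟩ := g.bdd
    refine ⟨a + b, fun n hn => ?_⟩
    have : ∀ i : ℤ, f.coeff i * (φ ^ i) (g.coeff (n - i)) = 0 := by
      intro i
      rcases lt_or_ge i a with h | h
      · rw [ha i h, zero_mul]
      · rw [hb (n - i) (by omega), map_zero, mul_zero]
    simp only [this, finsum_zero]⟩⟩

@[simp] theorem coeff_zero (n : ℤ) : (0 : SkewLaurent φ).coeff n = 0 := rfl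
@[simp] theorem coeff_add (f g : SkewLaurent φ) (n : ℤ) :
    (f + g).coeff n = f.coeff n + g.coeff n := rfl
@[simp] theorem coeff_neg (f : SkewLaurent φ) (n : ℤ) : (-f).coeff n = -f.coeff n := rfl
theorem coeff_one (n : ℤ) : (1 : SkewLaurent φ).coeff n = if n = 0 then 1 else 0 := by
  change (Pi.single 0 1 : ℤ → A) n = _
  rw [Pi.single_apply]

theorem coeff_mul (f g : SkewLaurent φ) (n : ℤ) :
    (f * g).coeff n = ∑ᶠ i : ℤ, f.coeff i * (φ ^ i) (g.coeff (n - i)) := rfl

theorem coeff_mul_eq_sum (f g : SkewLaurent φ) (n a b : ℤ) (ha : ∀ i < a, f.coeff i = 0)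
    (hb : ∀ i < b, g.coeff i = 0) :
    (f * g).coeff n = ∑ i ∈ Finset.Icc a (n - b), f.coeff i * (φ ^ i) (g.coeff (n - i)) := by
  rw [coeff_mul]
  apply finsum_eq_sum_of_support_subset
  intro i hi
  rw [Function.mem_support] at hi
  rw [Finset.coe_Icc, Set.mem_Icc]
  constructor
  · by_contra h
    exact hi (by rw [ha i (by omega), zero_mul])
  · by_contra h
    exact hi (by rw [hb (n - i) (by omega), map_zero, mul_zero])

theorem coeff_mul_eq_zero (f g : SkewLaurent φ) (n a b : ℤ) (ha : ∀ i < a, f.coeff i = 0)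
    (hb : ∀ i < b, g.coeff i = 0) (hn : n < a + b) : (f * g).coeff n = 0 := by
  rw [coeff_mul_eq_sum f g n a b ha hb, Finset.Icc_eq_empty (by omega), Finset.sum_empty]

theorem mul_assoc' (f g h : SkewLaurent φ) : f * g * h = f * (g * h) := by
  obtain ⟨a, ha⟩ := f.bdd
  obtain ⟨b, hb⟩ := g.bdd
  obtain ⟨c, hc⟩ := h.bdd
  ext n
  rw [coeff_mul_eq_sum (f * g) h n (a + b) c
    (fun i hi => coeff_mul_eq_zero f g i a b ha hb hi) hc,
    coeff_mul_eq_sum f (g * h) n a (b + c) ha
    (fun i hi => coeff_mul_eq_zero g h i b c hb hc hi)]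
  have h1 : ∀ k ∈ Finset.Icc (a + b) (n - c), (f * g).coeff k * (φ ^ k) (h.coeff (n - k)) =
      ∑ i ∈ Finset.Icc a (k - b), f.coeff i * (φ ^ i) (g.coeff (k - i)) *
        (φ ^ k) (h.coeff (n - k)) := by
    intro k _
    rw [coeff_mul_eq_sum f g k a b ha hb, Finset.sum_mul]
  have h2 : ∀ i ∈ Finset.Icc a (n - (b + c)), f.coeff i * (φ ^ i) ((g * h).coeff (n - i)) =
      ∑ j ∈ Finset.Icc b (n - i - c), f.coeff i * (φ ^ i) (g.coeff j) *
        (φ ^ (i + j)) (h.coeff (n - i - j)) := by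
    intro i _
    rw [coeff_mul_eq_sum g h (n - i) b c hb hc, map_sum, Finset.mul_sum]
    apply Finset.sum_congr rfl
    intro j _
    rw [map_mul, ← mul_assoc, zpow_add]
    rfl
  rw [Finset.sum_congr rfl h1, Finset.sum_congr rfl h2, Finset.sum_sigma', Finset.sum_sigma']
  apply Finset.sum_nbij' (fun p => (⟨p.2, p.1 - p.2⟩ : (_ : ℤ) × ℤ))
    (fun p => (⟨p.1 + p.2, p.1⟩ : (_ : ℤ) × ℤ))
  · rintro ⟨k, i⟩ hk
    simp only [Finset.mem_sigma, Finset.mem_Icc] at hk ⊢
    omega
  · rintro ⟨i, j⟩ hk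
    simp only [Finset.mem_sigma, Finset.mem_Icc] at hk ⊢
    omega
  · rintro ⟨k, i⟩ _
    simp
  · rintro ⟨i, j⟩ _
    simp
  · rintro ⟨k, i⟩ _
    have e1 : i + (k - i) = k := by omega
    have e2 : n - i - (k - i) = n - k := by omega
    simp only [e1, e2]

theorem one_mul' (f : SkewLaurent φ) : 1 * f = f := by
  ext n
  rw [coeff_mul, finsum_eq_single _ (0 : ℤ)]
  · rw [coeff_one, if_pos rfl]; simp
  · intro i hi
    rw [coeff_one, if_neg hi, zero_mul]

theorem mul_one' (f : SkewLaurent φ) : f * 1 = f := by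
  ext n
  rw [coeff_mul, finsum_eq_single _ n]
  · rw [sub_self, coeff_one, if_pos rfl, map_one, mul_one]
  · intro i hi
    rw [coeff_one, if_neg (by omega), map_zero, mul_zero]

theorem left_distrib' (f g h : SkewLaurent φ) : f * (g + h) = f * g + f * h := by
  obtain ⟨a, ha⟩ := f.bdd
  obtain ⟨b, hb⟩ := g.bdd
  obtain ⟨c, hc⟩ := h.bdd
  ext n
  rw [coeff_add, coeff_mul_eq_sum f (g + h) n a (min b c) ha (fun i hi => by
      rw [coeff_add, hb i (by omega), hc i (by omega), add_zero]),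
    coeff_mul_eq_sum f g n a (min b c) ha (fun i hi => hb i (by omega)),
    coeff_mul_eq_sum f h n a (min b c) ha (fun i hi => hc i (by omega)), ← Finset.sum_add_distrib]
  apply Finset.sum_congr rfl
  intro i _
  rw [coeff_add, map_add, mul_add]

theorem right_distrib' (f g h : SkewLaurent φ) : (f + g) * h = f * h + g * h := by
  obtain ⟨a, ha⟩ := f.bdd
  obtain ⟨b, hb⟩ := g.bdd
  obtain ⟨c, hc⟩ := h.bdd
  ext n
  rw [coeff_add, coeff_mul_eq_sum (f + g) h n (min a b) c (fun i hi => by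
      rw [coeff_add, ha i (by omega), hb i (by omega), add_zero]) hc,
    coeff_mul_eq_sum f h n (min a b) c (fun i hi => ha i (by omega)) hc,
    coeff_mul_eq_sum g h n (min a b) c (fun i hi => hb i (by omega)) hc, ← Finset.sum_add_distrib]
  apply Finset.sum_congr rfl
  intro i _
  rw [coeff_add, add_mul]

noncomputable instance : Ring (SkewLaurent φ) where
  add_assoc f g h := by ext n; simp [add_assoc]
  zero_add f := by ext n; simp
  add_zero f := by ext n; simp
  add_comm f g := by ext n; simp [add_comm]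
  neg_add_cancel f := by ext n; simp
  mul_assoc := mul_assoc'
  one_mul := one_mul'
  mul_one := mul_one'
  left_distrib := left_distrib'
  right_distrib := right_distrib'
  zero_mul f := by ext n; rw [coeff_mul]; simp
  mul_zero f := by ext n; rw [coeff_mul]; simp
  nsmul := nsmulRec
  zsmul := zsmulRec

@[simp] theorem coeff_sub (f g : SkewLaurent φ) (n : ℤ) :
    (f - g).coeff n = f.coeff n - g.coeff n := by
  rw [sub_eq_add_neg, coeff_add, coeff_neg, sub_eq_add_neg]

/-- The coefficient as an additive homomorphism. -/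
def coeffHom (n : ℤ) : SkewLaurent φ →+ A where
  toFun f := f.coeff n
  map_zero' := rfl
  map_add' _ _ := rfl

theorem coeff_sum {ι : Type*} (s : Finset ι) (F : ι → SkewLaurent φ) (n : ℤ) :
    (∑ i ∈ s, F i).coeff n = ∑ i ∈ s, (F i).coeff n := map_sum (coeffHom n) F s

/-- The monomial `a x^m`. -/
def mono (m : ℤ) (a : A) : SkewLaurent φ :=
  ⟨Pi.single m a, m, fun n hn => by rw [Pi.single_apply, if_neg (by omega)]⟩

theorem coeff_mono (m n : ℤ) (a : A) :
    (mono m a : SkewLaurent φ).coeff n = if n = m then a else 0 := by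
  change (Pi.single m a : ℤ → A) n = _
  rw [Pi.single_apply]

theorem coeff_mono_mul (m : ℤ) (a : A) (f : SkewLaurent φ) (n : ℤ) :
    (mono m a * f).coeff n = a * (φ ^ m) (f.coeff (n - m)) := by
  rw [coeff_mul, finsum_eq_single _ m]
  · rw [coeff_mono, if_pos rfl]
  · intro i hi
    rw [coeff_mono, if_neg hi, zero_mul]

theorem coeff_mul_mono (m : ℤ) (a : A) (f : SkewLaurent φ) (n : ℤ) :
    (f * mono m a).coeff n = f.coeff (n - m) * (φ ^ (n - m)) a := by
  rw [coeff_mul, finsum_eq_single _ (n - m)]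
  · rw [coeff_mono, if_pos (by omega)]
  · intro i hi
    rw [coeff_mono, if_neg (by omega), map_zero, mul_zero]

theorem mono_mul_mono (m n : ℤ) (a b : A) :
    (mono m a * mono n b : SkewLaurent φ) = mono (m + n) (a * (φ ^ m) b) := by
  ext k
  rw [coeff_mono_mul, coeff_mono, coeff_mono]
  by_cases h : k = m + n
  · rw [if_pos h, if_pos (by omega)]
  · rw [if_neg h, if_neg (by omega), map_zero, mul_zero]

theorem mono_zero_one : (mono 0 1 : SkewLaurent φ) = 1 := by
  ext n
  rw [coeff_mono, coeff_one]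

/-- The constant series. -/
def C : A →+* SkewLaurent φ where
  toFun a := mono 0 a
  map_one' := mono_zero_one
  map_mul' a b := by rw [mono_mul_mono]; simp
  map_zero' := by ext n; rw [coeff_mono]; simp
  map_add' a b := by
    ext n
    rw [coeff_add, coeff_mono, coeff_mono, coeff_mono]
    split_ifs <;> simp

theorem C_apply (a : A) : (C a : SkewLaurent φ) = mono 0 a := rfl

theorem coeff_C_mul (a : A) (f : SkewLaurent φ) (n : ℤ) : (C a * f).coeff n = a * f.coeff n := by
  rw [C_apply, coeff_mono_mul]; simp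

theorem coeff_mul_C (a : A) (f : SkewLaurent φ) (n : ℤ) :
    (f * C a).coeff n = f.coeff n * (φ ^ n) a := by
  rw [C_apply, coeff_mul_mono]; simp

theorem coeff_C (a : A) (n : ℤ) : (C a : SkewLaurent φ).coeff n = if n = 0 then a else 0 := by
  rw [C_apply, coeff_mono]

end SkewLaurent

end Q10
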