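import Mathlib
import Pool.Agent.Q10.SkewLaurent

/-!
# If `A` is left noetherian then so is `A((x, φ))`
-/

namespace Q10.SkewLaurent

variable {A : Type*} [Ring A] {φ : A ≃+* A}

/-- `f` has order at least `n`. -/
def OrdGE (f : SkewLaurent φ) (n : ℤ) : Prop := ∀ i < n, f.coeff i = 0

theorem OrdGE.mul {f g : SkewLaurent φ} {m n : ℤ} (hf : OrdGE f m) (hg : OrdGE g n) :
    OrdGE (f * g) (m + n) := fun i hi => coeff_mul_eq_zero f g i m n hf hg hi

theorem OrdGE.sub {f g : SkewLaurent φ} {n : ℤ} (hf : OrdGE f n) (hg : OrdGE g n) :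
    OrdGE (f - g) n := fun i hi => by rw [coeff_sub, hf i hi, hg i hi, sub_zero]

theorem OrdGE.add {f g : SkewLaurent φ} {n : ℤ} (hf : OrdGE f n) (hg : OrdGE g n) :
    OrdGE (f + g) n := fun i hi => by rw [coeff_add, hf i hi, hg i hi, add_zero]

theorem OrdGE.sum {ι : Type*} {s : Finset ι} {F : ι → SkewLaurent φ} {n : ℤ}
    (h : ∀ i ∈ s, OrdGE (F i) n) : OrdGE (∑ i ∈ s, F i) n := fun i hi => by
  rw [coeff_sum]
  exact Finset.sum_eq_zero fun j hj => h j hj i hi

theorem ordGE_mono (m : ℤ) (a : A) : OrdGE (mono m a : SkewLaurent φ) m := fun i hi => by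
  rw [coeff_mono, if_neg (by omega)]

theorem mono_mul_mono_neg (m : ℤ) : (mono m 1 * mono (-m) 1 : SkewLaurent φ) = 1 := by
  rw [mono_mul_mono, map_one, mul_one, add_neg_cancel, mono_zero_one]

variable (I : Ideal (SkewLaurent φ))

/-- The left ideal of leading coefficients. -/
def lead : Ideal A where
  carrier := {b | ∃ f ∈ I, OrdGE f 0 ∧ f.coeff 0 = b}
  add_mem' := by
    rintro a b ⟨f, hf, hf0, rfl⟩ ⟨g, hg, hg0, rfl⟩
    exact ⟨f + g, I.add_mem hf hg, hf0.add hg0, rfl⟩
  zero_mem' := ⟨0, I.zero_mem, fun _ _ => rfl, rfl⟩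
  smul_mem' := by
    rintro c b ⟨f, hf, hf0, rfl⟩
    refine ⟨C c * f, I.mul_mem_left _ hf, fun i hi => ?_, ?_⟩
    · rw [coeff_C_mul, hf0 i hi, mul_zero]
    · rw [coeff_C_mul]; rfl

variable {I}

theorem fg_of_lead_fg (hL : (lead I).FG) : I.FG := by
  classical
  obtain ⟨r, b, hb⟩ := Submodule.fg_iff_exists_fin_generating_family.mp hL
  have hbL : ∀ j, b j ∈ lead I := fun j => by
    rw [← hb]; exact Submodule.subset_span ⟨j, rfl⟩
  choose F hFI hF0 hFb using hbL
  -- one step of the division
  have step : ∀ (n : ℕ) (g : SkewLaurent φ), g ∈ I → OrdGE g n →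
      ∃ c : Fin r → A, OrdGE (g - ∑ j, mono (n : ℤ) 1 * C (c j) * F j) ((n : ℤ) + 1) := by
    intro n g hgI hgn
    have hmem : (φ ^ (-(n : ℤ))) (g.coeff n) ∈ lead I := by
      refine ⟨mono (-(n : ℤ)) 1 * g, I.mul_mem_left _ hgI, ?_, ?_⟩
      · have := (ordGE_mono (φ := φ) (-(n : ℤ)) 1).mul hgn
        rwa [neg_add_cancel] at this
      · rw [coeff_mono_mul, one_mul]; simp
    rw [← hb] at hmem
    obtain ⟨c, hc⟩ := (Submodule.mem_span_range_iff_exists_fun A).mp hmem
    refine ⟨c, fun i hi => ?_⟩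
    rw [coeff_sub, coeff_sum]
    have h1 : ∀ j, (mono (n : ℤ) 1 * C (c j) * F j).coeff i =
        (φ ^ (n : ℤ)) (c j * (F j).coeff (i - n)) := by
      intro j
      rw [mul_assoc, coeff_mono_mul, one_mul, coeff_C_mul]
    simp only [h1]
    rcases lt_or_eq_of_le (Int.lt_add_one_iff.mp hi) with h | h
    · rw [hgn i h, zero_sub, neg_eq_zero]
      apply Finset.sum_eq_zero
      intro j _
      rw [hF0 j _ (by omega), mul_zero, map_zero]
    · subst h
      simp only [sub_self, hFb]
      rw [← map_sum]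
      have : ∑ j, c j * b j = (φ ^ (-(n : ℤ))) (g.coeff n) := by
        rw [← hc]; rfl
      rw [this, zpow_neg]
      have h2 : (φ ^ (n : ℤ)) ((φ ^ (n : ℤ))⁻¹ (g.coeff n)) = g.coeff n :=
        (φ ^ (n : ℤ)).apply_symm_apply _
      rw [h2, sub_self]
  -- every element of `I` of order `≥ 0` is a combination of the `F j`
  have key : ∀ f ∈ I, OrdGE f 0 → f ∈ Submodule.span (SkewLaurent φ) (Set.range F) := by
    intro f hfI hf0
    let st : (n : ℕ) → SkewLaurent φ → (Fin r → A) := fun n g =>
      if h : g ∈ I ∧ OrdGE g n then Classical.choose (step n g h.1 h.2) else 0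
    let G : ℕ → SkewLaurent φ := fun n => Nat.rec f
      (fun n g => g - ∑ j, mono (n : ℤ) 1 * C (st n g j) * F j) n
    have hG0 : G 0 = f := rfl
    have hGs : ∀ n, G (n + 1) = G n - ∑ j, mono (n : ℤ) 1 * C (st n (G n) j) * F j :=
      fun _ => rfl
    have hG : ∀ n : ℕ, G n ∈ I ∧ OrdGE (G n) n := by
      intro n
      induction n with
      | zero => exact ⟨hfI, by rw [hG0]; simpa using hf0⟩
      | succ n ih =>
        constructor
        · rw [hGs]
          exact I.sub_mem ih.1 (I.sum_mem fun j _ => I.mul_mem_left _ (hFI j))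
        · have h1 : st n (G n) = Classical.choose (step n (G n) ih.1 ih.2) := dif_pos ih
          have h2 := Classical.choose_spec (step n (G n) ih.1 ih.2)
          rw [← h1, ← hGs] at h2
          exact_mod_cast h2
    -- the coefficients
    let c : ℕ → Fin r → A := fun n => st n (G n)
    let h : Fin r → SkewLaurent φ := fun j =>
      ⟨fun m => if 0 ≤ m then (φ ^ m) (c m.toNat j) else 0, 0, fun n hn => if_neg (by omega)⟩
    have hG' : ∀ n : ℕ, G n = f - ∑ j, (∑ i ∈ Finset.range n, mono (i : ℤ) 1 * C (c i j)) * F j := by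
      intro n
      induction n with
      | zero => simp [hG0]
      | succ n ih =>
        rw [hGs]
        have : ∀ j, (∑ i ∈ Finset.range (n + 1), mono (i : ℤ) 1 * C (c i j)) * F j =
            (∑ i ∈ Finset.range n, mono (i : ℤ) 1 * C (c i j)) * F j +
              mono (n : ℤ) 1 * C (st n (G n) j) * F j := by
          intro j
          rw [Finset.sum_range_succ, add_mul]
        simp only [this, Finset.sum_add_distrib]
        nth_rewrite 1 [ih]
        abel
    have hrem : ∀ (n : ℕ) (j : Fin r),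
        OrdGE (h j - ∑ i ∈ Finset.range n, mono (i : ℤ) 1 * C (c i j)) n := by
      intro n j m hm
      rw [coeff_sub, coeff_sum]
      have h1 : ∀ i : ℕ, (mono (i : ℤ) 1 * C (c i j) : SkewLaurent φ).coeff m =
          if m = i then (φ ^ m) (c i j) else 0 := by
        intro i
        rw [coeff_mono_mul, one_mul, coeff_C]
        by_cases hmi : m = i
        · rw [if_pos hmi, if_pos (by omega), hmi]
        · rw [if_neg hmi, if_neg (by omega), map_zero]
      simp only [h1]
      change (if 0 ≤ m then (φ ^ m) (c m.toNat j) else 0) - _ = 0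
      by_cases h0 : 0 ≤ m
      · obtain ⟨k, rfl⟩ := Int.eq_ofNat_of_zero_le h0
        rw [if_pos h0]
        have hk : k ∈ Finset.range n := by rw [Finset.mem_range]; omega
        have h2 : ∀ i ∈ Finset.range n, (if (k : ℤ) = i then (φ ^ (k : ℤ)) (c i j) else 0) =
            if k = i then (φ ^ (k : ℤ)) (c i j) else 0 := by
          intro i _
          simp only [Nat.cast_inj]
        rw [Finset.sum_congr rfl h2, Finset.sum_ite_eq, if_pos hk]
        simp
      · rw [if_neg h0, zero_sub, neg_eq_zero]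
        apply Finset.sum_eq_zero
        intro i _
        rw [if_neg (by omega)]
    have hf : f = ∑ j, h j * F j := by
      ext m
      obtain ⟨n, hn⟩ : ∃ n : ℕ, m < n := ⟨(m + 1).toNat, by omega⟩
      have h1 := (hG n).2 m hn
      rw [hG', coeff_sub, sub_eq_zero] at h1
      rw [h1]
      have h2 : ∀ j, h j * F j = (∑ i ∈ Finset.range n, mono (i : ℤ) 1 * C (c i j)) * F j +
          (h j - ∑ i ∈ Finset.range n, mono (i : ℤ) 1 * C (c i j)) * F j := by
        intro j
        rw [← add_mul]; congr 1; abel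
      simp only [h2, Finset.sum_add_distrib, coeff_add]
      have h3 : OrdGE (∑ j, (h j - ∑ i ∈ Finset.range n, mono (i : ℤ) 1 * C (c i j)) * F j)
          (n : ℤ) := by
        apply OrdGE.sum
        intro j _
        have := (hrem n j).mul (hF0 j)
        rwa [add_zero] at this
      rw [h3 m hn, add_zero]
    rw [hf]
    exact Submodule.sum_mem _ fun j _ =>
      Submodule.smul_mem _ (h j) (Submodule.subset_span ⟨j, rfl⟩)
  refine Submodule.fg_iff_exists_fin_generating_family.mpr ⟨r, F, le_antisymm ?_ ?_⟩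
  · rw [Submodule.span_le]
    rintro _ ⟨j, rfl⟩
    exact hFI j
  · intro f hf
    obtain ⟨N, hN⟩ := f.bdd
    have h1 : mono (-N) 1 * f ∈ Submodule.span (SkewLaurent φ) (Set.range F) := by
      apply key _ (I.mul_mem_left _ hf)
      have := (ordGE_mono (φ := φ) (-N) 1).mul (show OrdGE f N from hN)
      rwa [neg_add_cancel] at this
    have h2 : f = mono N 1 * (mono (-N) 1 * f) := by
      rw [← mul_assoc, mono_mul_mono_neg, one_mul]
    rw [h2]
    exact Submodule.smul_mem _ (mono N 1) h1

/-- If `A` is left noetherian then so is `A((x, φ))`. -/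
theorem isNoetherianRing [IsNoetherianRing A] : IsNoetherianRing (SkewLaurent φ) :=
  ⟨fun I => fg_of_lead_fg (I := I) (IsNoetherian.noetherian _)⟩

end Q10.SkewLaurent
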