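import Mathlib
import Pool.Agent.Q10.SkewLaurentNoeth

/-!
# Von Neumann regular rings and regular skew Laurent series rings
-/

namespace Q10

/-- A ring is (von Neumann) regular if for every `r` there is `s` with `r = r s r`. -/
def IsRegularRing (R : Type*) [Ring R] : Prop := ∀ r : R, ∃ s : R, r = r * s * r

section Regular

variable {A : Type*} [Ring A]

/-- There is an infinite sequence of nonzero pairwise orthogonal idempotents. -/
def HasInfiniteOrthogonal (A : Type*) [Ring A] : Prop :=
  ∃ p : ℕ → A, (∀ k, p k ≠ 0) ∧ (∀ k, p k * p k = p k) ∧ ∀ k l, k ≠ l → p k * p l = 0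

/-- In a regular ring: if `I` is a left ideal and `g ∈ I` is an idempotent with `I ≠ A g`, there
is a nonzero idempotent `p ∈ I` orthogonal to `g`. -/
theorem exists_orthogonal (hA : IsRegularRing A) (I : Ideal A) (g : A) (hgI : g ∈ I)
    (hgg : g * g = g) (hne : I ≠ Ideal.span {g}) :
    ∃ p ∈ I, p ≠ 0 ∧ p * p = p ∧ g * p = 0 ∧ p * g = 0 := by
  have hlt : Ideal.span {g} ≤ I := (Ideal.span_singleton_le_iff_mem I).mpr hgI
  obtain ⟨x, hxI, hx⟩ : ∃ x ∈ I, x ∉ Ideal.span {g} := by
    by_contra h
    push Not at h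
    exact hne (le_antisymm h hlt)
  obtain ⟨y, hy⟩ : ∃ y, y = x - x * g := ⟨_, rfl⟩
  have hy0 : y ≠ 0 := by
    intro h
    apply hx
    rw [h] at hy
    have : x = x * g := (sub_eq_zero.mp hy.symm)
    rw [this]
    exact Ideal.mul_mem_left _ _ (Ideal.subset_span rfl)
  have hyI : y ∈ I := by rw [hy]; exact I.sub_mem hxI (I.mul_mem_left _ hgI)
  have hyg : y * g = 0 := by rw [hy, sub_mul, mul_assoc, hgg, sub_self]
  obtain ⟨s, hs⟩ := hA y
  obtain ⟨f, hf⟩ : ∃ f, f = s * y := ⟨_, rfl⟩
  have hff : f * f = f := by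
    have : f * f = s * (y * s * y) := by rw [hf]; simp only [mul_assoc]
    rw [this, ← hs, hf]
  have hfg : f * g = 0 := by rw [hf, mul_assoc, hyg, mul_zero]
  have hf0 : f ≠ 0 := by
    intro h
    apply hy0
    rw [hs, mul_assoc, ← hf, h, mul_zero]
  have hfI : f ∈ I := by rw [hf]; exact I.mul_mem_left _ hyI
  refine ⟨f - g * f, I.sub_mem hfI (I.mul_mem_left _ hfI), ?_, ?_, ?_, ?_⟩
  · intro h
    apply hf0
    have : f * (f - g * f) = f := by rw [mul_sub, ← mul_assoc, hfg, hff]; simp
    rw [← this, h, mul_zero]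
  · have : (f - g * f) * (f - g * f) = f * f - (f * g) * f - g * (f * f) + g * (f * g) * f := by
      noncomm_ring
    rw [this, hff, hfg]; simp
  · rw [mul_sub, ← mul_assoc, hgg, sub_self]
  · rw [sub_mul, mul_assoc, hfg]; simp

/-- A regular ring without an infinite sequence of nonzero orthogonal idempotents is left
noetherian. -/
theorem isNoetherian_of_regular (hA : IsRegularRing A) (h : ¬ HasInfiniteOrthogonal A) :
    IsNoetherianRing A := by
  constructor
  intro I
  by_contra hI
  apply h
  -- the sequence `g_k` of idempotents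
  have step : ∀ g : {g : A // g ∈ I ∧ g * g = g}, ∃ p : A, p ∈ I ∧ p ≠ 0 ∧ p * p = p ∧
      (g : A) * p = 0 ∧ p * g = 0 := by
    rintro ⟨g, hgI, hgg⟩
    apply exists_orthogonal hA I g hgI hgg
    intro h
    apply hI
    rw [h]
    exact ⟨{g}, by simp⟩
  choose P hPI hP0 hPP hgP hPg using step
  let G : ℕ → {g : A // g ∈ I ∧ g * g = g} := fun n => Nat.rec ⟨0, I.zero_mem, by simp⟩
    (fun _ g => ⟨g + P g, I.add_mem g.2.1 (hPI g), by
      have : (↑g + P g) * (↑g + P g) = (g : A) * g + g * P g + P g * g + P g * P g := by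
        noncomm_ring
      rw [this, g.2.2, hgP, hPg, hPP]; simp⟩) n
  have hGs : ∀ n : ℕ, (G (n + 1)).1 = (G n).1 + P (G n) := fun n => rfl
  have h1 : ∀ k l : ℕ, k < l → (G l).1 * P (G k) = P (G k) ∧ P (G k) * (G l).1 = P (G k) := by
    intro k l hkl
    induction l with
    | zero => omega
    | succ l ih =>
      rcases Nat.lt_succ_iff_lt_or_eq.mp hkl with h | h
      · obtain ⟨e1, e2⟩ := ih h
        constructor
        · rw [hGs, add_mul, e1]
          have : P (G l) * P (G k) = P (G l) * (G l).1 * P (G k) := by rw [mul_assoc, e1]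
          rw [this, hPg, zero_mul, add_zero]
        · rw [hGs, mul_add, e2]
          have : P (G k) * P (G l) = P (G k) * ((G l).1 * P (G l)) := by rw [← mul_assoc, e2]
          rw [this, hgP, mul_zero, add_zero]
      · subst h
        rw [hGs]
        constructor
        · rw [add_mul, hgP, hPP, zero_add]
        · rw [mul_add, hPg, hPP, zero_add]
  refine ⟨fun k => P (G k), fun k => hP0 _, fun k => hPP _, ?_⟩
  intro k l hkl
  rcases lt_or_gt_of_ne hkl with h | h
  · have : P (G k) * P (G l) = P (G k) * ((G l).1 * P (G l)) := by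
      rw [← mul_assoc, (h1 k l h).2]
    change P (G k) * P (G l) = 0
    rw [this, hgP, mul_zero]
  · have : P (G k) * P (G l) = P (G k) * (G k).1 * P (G l) := by
      rw [mul_assoc, (h1 l k h).1]
    change P (G k) * P (G l) = 0
    rw [this, hPg, zero_mul]

/-- A left noetherian regular ring is semisimple. -/
theorem isSemisimple_of_regular (hA : IsRegularRing A) [IsNoetherianRing A] :
    IsSemisimpleRing A := by
  have : ComplementedLattice (Submodule A A) := by
    constructor
    intro I
    -- a maximal `A g` with `g ∈ I` idempotent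
    let S : Set (Ideal A) := {J | ∃ g ∈ I, g * g = g ∧ J = Ideal.span {g}}
    have hS : S.Nonempty := ⟨_, 0, I.zero_mem, by simp, rfl⟩
    obtain ⟨J, ⟨g, hgI, hgg, hJ⟩, hmax⟩ := set_has_maximal_iff_noetherian.mpr
      (inferInstance : IsNoetherian A A) S hS
    have hIg : I = Ideal.span {g} := by
      by_contra hne
      obtain ⟨p, hpI, hp0, hpp, hgp, hpg⟩ := exists_orthogonal hA I g hgI hgg hne
      have hidem : (g + p) * (g + p) = g + p := by
        have : (g + p) * (g + p) = g * g + g * p + p * g + p * p := by noncomm_ring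
        rw [this, hgg, hgp, hpg, hpp]; simp
      apply hmax (Ideal.span {g + p}) ⟨g + p, I.add_mem hgI hpI, hidem, rfl⟩
      rw [hJ]
      have hgm : g ∈ Ideal.span {g + p} := by
        rw [Ideal.mem_span_singleton']
        exact ⟨g, by rw [mul_add, hgg, hgp, add_zero]⟩
      have hpm : p ∈ Ideal.span {g + p} := by
        rw [Ideal.mem_span_singleton']
        exact ⟨p, by rw [mul_add, hpg, hpp, zero_add]⟩
      refine lt_of_le_of_ne ((Ideal.span_singleton_le_iff_mem _).mpr hgm) ?_
      intro heq
      rw [← heq, Ideal.mem_span_singleton'] at hpm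
      obtain ⟨z, hz⟩ := hpm
      apply hp0
      have : p = p * g := by rw [← hz, mul_assoc, hgg]
      rw [this, hpg]
    refine ⟨Ideal.span {1 - g}, ?_⟩
    rw [hIg]
    constructor
    · rw [Submodule.disjoint_def]
      intro x hx1 hx2
      obtain ⟨y, rfl⟩ := Ideal.mem_span_singleton'.mp hx1
      obtain ⟨z, hz⟩ := Ideal.mem_span_singleton'.mp hx2
      have h1 : z * (1 - g) * g = 0 := by rw [mul_assoc, sub_mul, one_mul, hgg, sub_self, mul_zero]
      rw [hz, mul_assoc, hgg] at h1
      exact h1
    · rw [codisjoint_iff, eq_top_iff]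
      intro x _
      have : x = x * g + x * (1 - g) := by noncomm_ring
      rw [this]
      exact Submodule.add_mem_sup (Ideal.mul_mem_left _ _ (Ideal.subset_span rfl))
        (Ideal.mul_mem_left _ _ (Ideal.subset_span rfl))
  have h2 : IsSemisimpleModule A A := ⟨⟩
  exact h2

end Regular

open SkewLaurent

variable {A : Type*} [Ring A] {φ : A ≃+* A}

/-- `A` is regular if `A((x, φ))` is. -/
theorem regular_coeff (hR : IsRegularRing (SkewLaurent φ)) : IsRegularRing A := by
  intro a
  obtain ⟨s, hs⟩ := hR (C a)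
  refine ⟨s.coeff 0, ?_⟩
  have := congrArg (fun f : SkewLaurent φ => f.coeff 0) hs
  simp only [coeff_mul_C, coeff_C_mul] at this
  rw [coeff_C, if_pos rfl] at this
  simpa using this

/-- The lacunary series argument. -/
theorem lacunary (hR : IsRegularRing (SkewLaurent φ)) (e q c : ℕ → A) (n : ℕ → ℤ)
    (hn : StrictMono n) (hc : ∀ k, c k ≠ 0) (he : ∀ k l, e k * c l = if k = l then c l else 0)
    (hq : ∀ k l, c l * (φ ^ (n l)) (q k) = if k = l then c l else 0) : False := by
  classical
  have hninj : Function.Injective n := hn.injective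
  let f : SkewLaurent φ := ⟨fun m => if h : ∃ k, n k = m then c (Classical.choose h) else 0, n 0,
    fun m hm => by
      rw [dif_neg]
      rintro ⟨k, rfl⟩
      exact absurd (hn.monotone (Nat.zero_le k)) (not_le.mpr hm)⟩
  have hf1 : ∀ k, f.coeff (n k) = c k := by
    intro k
    have h : ∃ l, n l = n k := ⟨k, rfl⟩
    change (if h : ∃ l, n l = n k then c (Classical.choose h) else 0) = c k
    rw [dif_pos h, hninj (Classical.choose_spec h)]
  have hf2 : ∀ m, (¬ ∃ k, n k = m) → f.coeff m = 0 := fun m h => dif_neg h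
  have hef : ∀ k, C (e k) * f = mono (n k) (c k) := by
    intro k
    ext m
    rw [coeff_C_mul, coeff_mono]
    by_cases hm : ∃ l, n l = m
    · obtain ⟨l, rfl⟩ := hm
      rw [hf1, he]
      by_cases hkl : k = l
      · rw [if_pos hkl, if_pos (by rw [hkl]), hkl]
      · rw [if_neg hkl, if_neg (fun h => hkl (hninj h).symm)]
    · rw [hf2 m hm, mul_zero, if_neg (fun h => hm ⟨k, h.symm⟩)]
  have hfq : ∀ k, f * C (q k) = mono (n k) (c k) := by
    intro k
    ext m
    rw [coeff_mul_C, coeff_mono]
    by_cases hm : ∃ l, n l = m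
    · obtain ⟨l, rfl⟩ := hm
      rw [hf1, hq]
      by_cases hkl : k = l
      · rw [if_pos hkl, if_pos (by rw [hkl]), hkl]
      · rw [if_neg hkl, if_neg (fun h => hkl (hninj h).symm)]
    · rw [hf2 m hm, zero_mul, if_neg (fun h => hm ⟨k, h.symm⟩)]
  obtain ⟨g, hg⟩ := hR f
  obtain ⟨N, hN⟩ := g.bdd
  -- choose `k` with `-n k < N`
  obtain ⟨k, hk⟩ : ∃ k : ℕ, -n k < N := by
    have h1 : ∀ k : ℕ, n 0 + k ≤ n k := by
      intro k
      induction k with
      | zero => simp
      | succ k ih =>
        have := hn (show k < k + 1 by omega)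
        push_cast
        omega
    refine ⟨(-N - n 0 + 1).toNat, ?_⟩
    have := h1 (-N - n 0 + 1).toNat
    omega
  have h0 : (g * f).coeff 0 * q k = 0 := by
    have h1 : (g * f).coeff 0 * q k = (g * f * C (q k)).coeff 0 := by
      rw [coeff_mul_C]; simp
    rw [h1, mul_assoc, hfq, coeff_mul_mono, hN _ (by omega), zero_mul]
  have h2 : c k * (φ ^ (n k)) ((g * f).coeff 0) = c k := by
    have h3 : mono (n k) (c k) * (g * f) = mono (n k) (c k) := by
      rw [← hef, mul_assoc, ← mul_assoc f, ← hg]
    have h4 := congrArg (fun f : SkewLaurent φ => f.coeff (n k)) h3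
    simp only [coeff_mono_mul, coeff_mono, sub_self, if_true] at h4
    exact h4
  apply hc k
  have h5 : c k * (φ ^ (n k)) (q k) = c k := by rw [hq, if_pos rfl]
  rw [← h5, ← h2, mul_assoc, ← map_mul, h0, map_zero, mul_zero]

/-- If `A((x, φ))` is regular then `A` has no infinite sequence of nonzero orthogonal
idempotents. -/
theorem no_infinite (hR : IsRegularRing (SkewLaurent φ)) : ¬ HasInfiniteOrthogonal A := by
  rintro ⟨p, hp0, hpp, hpq⟩
  have hA := regular_coeff hR
  have hpow : ∀ (m k : ℤ) (a : A), (φ ^ m) ((φ ^ k) a) = (φ ^ (m + k)) a := by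
    intro m k a
    rw [zpow_add]; rfl
  by_cases hcase : ∀ k, ∀ N : ℤ, ∃ n : ℤ, N < n ∧ ∃ a : A, p k * a * (φ ^ n) (p k) ≠ 0
  · choose nn hnn aa haa using hcase
    let n : ℕ → ℤ := fun k => Nat.rec (nn 0 0) (fun k m => nn (k + 1) m) k
    have hns : ∀ k, n (k + 1) = nn (k + 1) (n k) := fun _ => rfl
    have hmono : StrictMono n := strictMono_nat_of_lt_succ fun k => by
      rw [hns]; exact hnn _ _
    have hex : ∀ k, ∃ a : A, p k * a * (φ ^ (n k)) (p k) ≠ 0 := by
      intro k
      cases k with
      | zero => exact ⟨aa 0 0, haa 0 0⟩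
      | succ k => exact ⟨aa (k + 1) (n k), haa (k + 1) (n k)⟩
    choose a ha using hex
    refine lacunary hR p p (fun k => p k * a k * (φ ^ (n k)) (p k)) n hmono ha ?_ ?_
    · intro k l
      by_cases hkl : k = l
      · subst hkl
        rw [if_pos rfl, ← mul_assoc, ← mul_assoc, hpp]
      · rw [if_neg hkl, ← mul_assoc, ← mul_assoc, hpq k l hkl, zero_mul, zero_mul]
    · intro k l
      by_cases hkl : k = l
      · subst hkl
        rw [if_pos rfl, mul_assoc _ ((φ ^ n k) (p k)), ← map_mul, hpp]
      · rw [if_neg hkl, mul_assoc _ ((φ ^ n l) (p l)), ← map_mul, hpq l k (Ne.symm hkl), map_zero,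
          mul_zero]
  · push Not at hcase
    obtain ⟨k, N, hN⟩ := hcase
    set e := p k with he
    have hee : e * e = e := hpp k
    have he0 : e ≠ 0 := hp0 k
    obtain ⟨m, hm0, hm⟩ : ∃ m : ℤ, 0 < m ∧ ∀ n, m ≤ n → ∀ a, e * a * (φ ^ n) e = 0 :=
      ⟨max (N + 1) 1, by omega, fun n hn a => hN n (by omega) a⟩
    have hm' : ∀ n, m ≤ n → ∀ a, (φ ^ n) e * a * e = 0 := by
      intro n hn a
      obtain ⟨s, hs⟩ := hA ((φ ^ n) e * a * e)
      have : (φ ^ n) e * a * e * s * ((φ ^ n) e * a * e) =
          (φ ^ n) e * a * (e * s * (φ ^ n) e) * a * e := by simp only [mul_assoc]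
      rw [hs, this, hm n hn, mul_zero, zero_mul, zero_mul]
    -- orthogonality of far translates
    have horth : ∀ i j : ℤ, m ≤ i - j ∨ m ≤ j - i → (φ ^ i) e * (φ ^ j) e = 0 := by
      rintro i j (h | h)
      · have h1 := hm' (i - j) h 1
        rw [mul_one] at h1
        have h2 := congrArg (φ ^ j) h1
        rw [map_mul, hpow, map_zero] at h2
        have : j + (i - j) = i := by omega
        rwa [this] at h2
      · have h1 := hm (j - i) h 1
        rw [mul_one] at h1
        have h2 := congrArg (φ ^ i) h1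
        rw [map_mul, hpow, map_zero] at h2
        have : i + (j - i) = j := by omega
        rwa [this] at h2
    have hgap : ∀ i j : ℕ, i ≠ j → m ≤ (i : ℤ) * m - j * m ∨ m ≤ (j : ℤ) * m - i * m := by
      intro i j hij
      rcases lt_or_gt_of_ne hij with h | h
      · right
        have : (1 : ℤ) ≤ j - i := by omega
        nlinarith
      · left
        have : (1 : ℤ) ≤ i - j := by omega
        nlinarith
    refine lacunary hR (fun i => (φ ^ (2 * (i * m) : ℤ)) e) (fun i => (φ ^ ((i : ℤ) * m)) e)
      (fun i => (φ ^ (2 * (i * m) : ℤ)) e) (fun i => (i : ℤ) * m) ?_ ?_ ?_ ?_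
    · exact strictMono_nat_of_lt_succ fun k => by push_cast; nlinarith
    · intro i h
      exact he0 (by simpa using h)
    · intro i j
      by_cases hij : i = j
      · subst hij
        rw [if_pos rfl, ← map_mul, hee]
      · rw [if_neg hij]
        apply horth
        rcases hgap i j hij with h | h
        · left; linarith
        · right; linarith
    · intro i j
      rw [hpow]
      by_cases hij : i = j
      · subst hij
        have : (i : ℤ) * m + i * m = 2 * (i * m) := by ring
        rw [if_pos rfl, this, ← map_mul, hee]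
      · rw [if_neg hij]
        apply horth
        rcases hgap i j hij with h | h
        · right
          linarith
        · left
          linarith

/-- If `A((x, φ))` is regular then it is semisimple Artinian. -/
theorem semisimple_of_regular_laurent (hR : IsRegularRing (SkewLaurent φ)) :
    IsSemisimpleRing (SkewLaurent φ) := by
  have hA := regular_coeff hR
  have h1 : IsNoetherianRing A := isNoetherian_of_regular hA (no_infinite hR)
  have h2 : IsNoetherianRing (SkewLaurent φ) := SkewLaurent.isNoetherianRing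
  exact isSemisimple_of_regular hR

end Q10
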