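import Mathlib
import Pool.Agent.Q10.Basic
import Pool.Agent.Q10.SkewLaurentNoeth

/-!
# Units of skew Laurent series rings
-/

namespace Q10

theorem isUnit_add_of_mem_jacobson {R : Type*} [Ring R] {u j : R} (hu : IsUnit u)
    (hj : j ∈ Ring.jacobson R) : IsUnit (u + j) := by
  obtain ⟨u, rfl⟩ := hu
  have : (u : R) + j = u * (1 + (u⁻¹ : Rˣ) * j) := by
    rw [mul_add, mul_one, ← mul_assoc, Units.mul_inv, one_mul]
  rw [this]
  exact u.isUnit.mul (isUnit_one_add_mul_of_mem_jacobson hj _)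

namespace SkewLaurent

variable {A : Type*} [Ring A] {φ : A ≃+* A}

theorem OrdGE.neg {f : SkewLaurent φ} {n : ℤ} (hf : OrdGE f n) : OrdGE (-f) n :=
  fun i hi => by rw [coeff_neg, hf i hi, neg_zero]

theorem OrdGE.mono_le {f : SkewLaurent φ} {m n : ℤ} (hf : OrdGE f n) (h : m ≤ n) : OrdGE f m :=
  fun i hi => hf i (lt_of_lt_of_le hi h)

theorem ordGE_one : OrdGE (1 : SkewLaurent φ) 0 := fun i hi => by
  rw [coeff_one, if_neg (by omega)]

theorem OrdGE.pow {f : SkewLaurent φ} (hf : OrdGE f 1) (n : ℕ) : OrdGE (f ^ n) n := by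
  induction n with
  | zero => rw [pow_zero]; exact_mod_cast ordGE_one
  | succ n ih =>
    rw [pow_succ]
    have := ih.mul hf
    exact_mod_cast this

theorem eq_zero_of_ordGE {f : SkewLaurent φ} (h : ∀ n : ℕ, OrdGE f n) : f = 0 := by
  ext m
  exact h (m + 1).toNat m (by omega)

/-- `1 + h` is a unit if `h` has order at least `1`. -/
theorem isUnit_one_add_of_ordGE {h : SkewLaurent φ} (hh : OrdGE h 1) : IsUnit (1 + h) := by
  classical
  let g : SkewLaurent φ := ⟨fun m => if 0 ≤ m then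
    ∑ n ∈ Finset.range (m.toNat + 1), ((-h) ^ n).coeff m else 0, 0, fun n hn => if_neg (by omega)⟩
  have hneg : OrdGE (-h) 1 := hh.neg
  have h1 : ∀ M : ℕ, OrdGE (g - ∑ n ∈ Finset.range M, (-h) ^ n) M := by
    intro M m hm
    rw [coeff_sub, coeff_sum]
    change (if 0 ≤ m then ∑ n ∈ Finset.range (m.toNat + 1), ((-h) ^ n).coeff m else 0) - _ = 0
    by_cases h0 : 0 ≤ m
    · rw [if_pos h0, sub_eq_zero]
      apply Finset.sum_subset
      · intro n hn
        rw [Finset.mem_range] at hn ⊢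
        omega
      · intro n _ hn
        rw [Finset.mem_range] at hn
        exact hneg.pow n m (by omega)
    · rw [if_neg h0, zero_sub, neg_eq_zero]
      apply Finset.sum_eq_zero
      intro n _
      exact hneg.pow n m (by omega)
  have h0 : OrdGE (1 + h) 0 := ordGE_one.add (hh.mono_le (by norm_num))
  have hgeom : ∀ M : ℕ, (∑ n ∈ Finset.range M, (-h) ^ n) * (1 + h) = 1 - (-h) ^ M := by
    intro M
    have := geom_sum_mul_neg (-h) M
    rwa [sub_neg_eq_add] at this
  have hgeom' : ∀ M : ℕ, (1 + h) * (∑ n ∈ Finset.range M, (-h) ^ n) = 1 - (-h) ^ M := by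
    intro M
    have := mul_neg_geom_sum (-h) M
    rwa [sub_neg_eq_add] at this
  refine ⟨⟨1 + h, g, ?_, ?_⟩, rfl⟩
  · have : (1 + h) * g - 1 = 0 := by
      apply eq_zero_of_ordGE
      intro M
      have e : (1 + h) * g - 1 = (1 + h) * (g - ∑ n ∈ Finset.range M, (-h) ^ n) - (-h) ^ M := by
        rw [mul_sub, hgeom']; abel
      rw [e]
      refine OrdGE.sub ?_ (hneg.pow M)
      have := h0.mul (h1 M)
      rwa [zero_add] at this
    exact sub_eq_zero.mp this
  · have : g * (1 + h) - 1 = 0 := by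
      apply eq_zero_of_ordGE
      intro M
      have e : g * (1 + h) - 1 = (g - ∑ n ∈ Finset.range M, (-h) ^ n) * (1 + h) - (-h) ^ M := by
        rw [sub_mul, hgeom]; abel
      rw [e]
      refine OrdGE.sub ?_ (hneg.pow M)
      have := (h1 M).mul h0
      rwa [add_zero] at this
    exact sub_eq_zero.mp this

theorem isUnit_mono (n : ℤ) {a : A} (ha : IsUnit a) : IsUnit (mono n a : SkewLaurent φ) := by
  obtain ⟨u, rfl⟩ := ha
  have : (mono n (u : A) : SkewLaurent φ) = C (u : A) * mono n 1 := by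
    rw [C_apply, mono_mul_mono]; simp
  rw [this]
  refine (u.isUnit.map C).mul ⟨⟨mono n 1, mono (-n) 1, mono_mul_mono_neg n, ?_⟩, rfl⟩
  have := mono_mul_mono_neg (φ := φ) (-n)
  rwa [neg_neg] at this

/-- A series whose lowest coefficient is a unit is a unit. -/
theorem isUnit_of_lead {f : SkewLaurent φ} {n : ℤ} (hf : OrdGE f n) (hn : IsUnit (f.coeff n)) :
    IsUnit f := by
  have hu := isUnit_mono (φ := φ) n hn
  obtain ⟨u, hu'⟩ := hu
  obtain ⟨v, hv⟩ := hn
  have hinv : ((u⁻¹ : (SkewLaurent φ)ˣ) : SkewLaurent φ) = mono (-n) ((φ ^ (-n)) (v⁻¹ : Aˣ)) := by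
    have h1 : (u : SkewLaurent φ) * mono (-n) ((φ ^ (-n)) (v⁻¹ : Aˣ)) = 1 := by
      rw [hu', mono_mul_mono, ← hv]
      have : (φ ^ n) ((φ ^ (-n)) ((v⁻¹ : Aˣ) : A)) = ((v⁻¹ : Aˣ) : A) := by
        rw [zpow_neg]; exact (φ ^ n).apply_symm_apply _
      rw [this, Units.mul_inv, add_neg_cancel, mono_zero_one]
    exact (Units.inv_eq_of_mul_eq_one_right h1)
  have hh : OrdGE ((u⁻¹ : (SkewLaurent φ)ˣ) * f - 1 : SkewLaurent φ) 1 := by
    intro m hm
    rw [hinv, coeff_sub, coeff_mono_mul, coeff_one, sub_neg_eq_add]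
    rcases lt_or_eq_of_le (Int.lt_add_one_iff.mp (by simpa using hm) : m ≤ 0) with h | h
    · rw [hf _ (by omega), map_zero, mul_zero, if_neg (by omega), sub_zero]
    · subst h
      rw [zero_add, if_pos rfl, ← hv, ← map_mul, Units.inv_mul, map_one, sub_self]
  have h2 := isUnit_one_add_of_ordGE hh
  have h3 : f = u * (1 + ((u⁻¹ : (SkewLaurent φ)ˣ) * f - 1)) := by
    rw [add_sub_cancel, ← mul_assoc, Units.mul_inv, one_mul]
  rw [h3]
  exact u.isUnit.mul h2

end SkewLaurent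

end Q10
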